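import Pool.Agent.Helper28.GT.TreeGrid

/-!
# GT-20: balanced grids

`merge`: from a `TG` with `R` columns and columns `c 0 < c 1 < ... < c (n-1) < R` we get a `TG` with `n` columns, the same potential, and vertical edges `ev i (c a)`. For `a + 1 < n` put `B' i a =` union of the `B i j`, `c a ≤ j < c (a+1)`, `F' i a =` union of the `F i j` for these `j` and of the edges `eh i j` with `c a ≤ j`, `j + 1 < c (a+1)`; for `a + 1 = n`:
`B' i a = B i (c a)`, `F' i a = F i (c a)`. `eh' i a = eh i (c (a+1) - 1)`. Cardinalities: the trees are disjoint (ends in disjoint branch sets), the edges `eh i j` are different and not in trees; `|F'| + 1 = ∑ (|B i j| - 1) + (number of j) - 1 + 1 = |B'|`. (It may be easier to prove by induction the statement for an interval of columns.)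
`bal_grid`: `R = n * (card H) ^ n` (at least `1`). For a column `j < R` let `δ i j = φ u * g * (φ v)⁻¹` if `G (ev i j) = (u, v, g)` with `u ∈ B i j`, `v ∈ B (i+1) j`, and `δ i j = φ u * g⁻¹ * (φ v)⁻¹` if `G (ev i j) = (v, u, g)` (`i + 1 < n`). By the pigeonhole principle `n` columns have the same vector `(δ i j)_i =: (δ i)_i`. `merge`. Then put
`κ 0 = 1`, `κ (i+1) = κ i * δ i`, and `φ' w = κ i * φ w` for `w` in row `i` (any `B' i a`), `φ' w = φ w` elsewhere. Trees and horizontal edges lie inside one row, so `Pt` still holds; vertical edges satisfy `Pt` by the choice of `κ`.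
-/

set_option autoImplicit false

namespace Pool.Agent.Helper28.GT

open Pool.Agent.Helper28.BW

variable {H : Type} [Group H]

/-- union of the branch sets of row `i` in the columns `s, ..., s + k` -/
private def BB (B : ℕ → ℕ → Set ℕ) (i s : ℕ) : ℕ → Set ℕ
  | 0 => B i s
  | k + 1 => BB B i s k ∪ B i (s + k + 1)

/-- union of the trees and the horizontal edges of row `i` in the columns `s, ..., s + k` -/
private def FF (F : ℕ → ℕ → Finset ℕ) (eh : ℕ → ℕ → ℕ) (i s : ℕ) : ℕ → Finset ℕ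
  | 0 => F i s
  | k + 1 => insert (eh i (s + k)) (FF F eh i s k ∪ F i (s + k + 1))

private theorem mem_BB {B : ℕ → ℕ → Set ℕ} {i s k u : ℕ} :
    u ∈ BB B i s k ↔ ∃ t, t ≤ k ∧ u ∈ B i (s + t) := by
  induction k with
  | zero =>
    constructor
    · intro h
      exact ⟨0, le_refl _, h⟩
    · rintro ⟨t, ht, h⟩
      have : t = 0 := by omega
      subst this
      exact h
  | succ k ih =>
    constructor
    · rintro (h | h)
      · obtain ⟨t, ht, h⟩ := ih.1 h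
        exact ⟨t, by omega, h⟩
      · exact ⟨k + 1, le_refl _, h⟩
    · rintro ⟨t, ht, h⟩
      rcases Nat.lt_or_ge t (k + 1) with h1 | h1
      · exact Or.inl (ih.2 ⟨t, by omega, h⟩)
      · have : t = k + 1 := by omega
        subst this
        exact Or.inr h

private structure Blk (G : GG H) (E : Finset ℕ) (φ : ℕ → H) (A : Set ℕ) (T : Finset ℕ) :
    Prop where
  fin : A.Finite
  ne : A.Nonempty
  FE : T ⊆ E
  Fe : ∀ e ∈ T, (G e).1 ∈ A ∧ (G e).2.1 ∈ A
  Fcard : T.card + 1 = A.ncard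
  Fcon : ∀ u ∈ A, ∀ v ∈ A, Con (img G T) u v
  Fpot : ∀ e ∈ T, Pt G φ e

private theorem JS.ends {G : GG H} {e : ℕ} {A B : Set ℕ} (h : JS G e A B) :
    ∃ x ∈ A, ∃ y ∈ B, Con ({G e} : Set (Tri H)) x y ∧
      (x = (G e).1 ∨ x = (G e).2.1) ∧ (y = (G e).1 ∨ y = (G e).2.1) := by
  have h0 : W ({G e} : Set (Tri H)) (G e).1 (G e).2.1 (G e).2.2 := W.edge rfl
  rcases h with ⟨h1, h2⟩ | ⟨h1, h2⟩
  · exact ⟨_, h1, _, h2, ⟨_, h0⟩, Or.inl rfl, Or.inr rfl⟩
  · exact ⟨_, h2, _, h1, ⟨_, h0.symm⟩, Or.inr rfl, Or.inl rfl⟩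

private theorem Blk.join {G : GG H} {E : Finset ℕ} {φ : ℕ → H} {A A' A0 : Set ℕ}
    {T T' : Finset ℕ} {e : ℕ} (h : Blk G E φ A T) (h' : Blk G E φ A' T') (hd : Disjoint A A')
    (hA0 : A0 ⊆ A) (he : e ∈ E) (hJ : JS G e A0 A') (hp : Pt G φ e) :
    Blk G E φ (A ∪ A') (insert e (T ∪ T')) := by
  obtain ⟨x, hx, y, hy, hxy, hxe, hye⟩ := hJ.ends
  have hdis : ∀ z, z ∈ A → z ∈ A' → False := fun z h1 h2 => Set.disjoint_left.1 hd h1 h2
  have heT : e ∉ T := by
    intro h1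
    have h2 := h.Fe e h1
    rcases hye with h3 | h3
    · exact hdis y (h3 ▸ h2.1) hy
    · exact hdis y (h3 ▸ h2.2) hy
  have heT' : e ∉ T' := by
    intro h1
    have h2 := h'.Fe e h1
    rcases hxe with h3 | h3
    · exact hdis x (hA0 hx) (h3 ▸ h2.1)
    · exact hdis x (hA0 hx) (h3 ▸ h2.2)
  have hTT : Disjoint T T' := by
    rw [Finset.disjoint_left]
    intro f h1 h2
    exact hdis _ (h.Fe f h1).1 (h'.Fe f h2).1
  have m0 : ({G e} : Set (Tri H)) ⊆ img G (insert e (T ∪ T')) := by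
    rw [img_insert]
    exact Set.singleton_subset_iff.2 (Set.mem_insert _ _)
  have m1 : img G T ⊆ img G (insert e (T ∪ T')) := img_mono G
    (Finset.subset_union_left.trans (Finset.subset_insert _ _))
  have m2 : img G T' ⊆ img G (insert e (T ∪ T')) := img_mono G
    (Finset.subset_union_right.trans (Finset.subset_insert _ _))
  refine ⟨h.fin.union h'.fin, h.ne.mono Set.subset_union_left, ?_, ?_, ?_, ?_, ?_⟩
  · intro f hf
    rcases Finset.mem_insert.1 hf with hf | hf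
    · rw [hf]
      exact he
    · rcases Finset.mem_union.1 hf with hf | hf
      · exact h.FE hf
      · exact h'.FE hf
  · intro f hf
    rcases Finset.mem_insert.1 hf with hf | hf
    · rw [hf]
      rcases hJ with ⟨h1, h2⟩ | ⟨h1, h2⟩
      · exact ⟨Or.inl (hA0 h1), Or.inr h2⟩
      · exact ⟨Or.inr h1, Or.inl (hA0 h2)⟩
    · rcases Finset.mem_union.1 hf with hf | hf
      · exact ⟨Or.inl (h.Fe f hf).1, Or.inl (h.Fe f hf).2⟩
      · exact ⟨Or.inr (h'.Fe f hf).1, Or.inr (h'.Fe f hf).2⟩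
  · have hne : e ∉ T ∪ T' := fun h1 => (Finset.mem_union.1 h1).elim heT heT'
    rw [Finset.card_insert_of_notMem hne, Finset.card_union_of_disjoint hTT,
      Set.ncard_union_eq hd h.fin h'.fin]
    have h1 := h.Fcard
    have h2 := h'.Fcard
    omega
  · have key : ∀ u ∈ A, ∀ v ∈ A', Con (img G (insert e (T ∪ T'))) u v := by
      intro u hu v hv
      exact (((h.Fcon u hu x (hA0 hx)).mono m1).trans (hxy.mono m0)).trans
        ((h'.Fcon y hy v hv).mono m2)
    rintro u (hu | hu) v (hv | hv)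
    · exact (h.Fcon u hu v hv).mono m1
    · exact key u hu v hv
    · exact (key v hv u hu).symm
    · exact (h'.Fcon u hu v hv).mono m2
  · intro f hf
    rcases Finset.mem_insert.1 hf with hf | hf
    · rw [hf]
      exact hp
    · rcases Finset.mem_union.1 hf with hf | hf
      · exact h.Fpot f hf
      · exact h'.Fpot f hf

private theorem TG.blk {G : GG H} {E : Finset ℕ} {m R : ℕ} {B : ℕ → ℕ → Set ℕ}
    {F : ℕ → ℕ → Finset ℕ} {eh ev : ℕ → ℕ → ℕ} {φ : ℕ → H} (h : TG G E m R B F eh ev φ)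
    {i j : ℕ} (hi : i < m) (hj : j < R) : Blk G E φ (B i j) (F i j) :=
  ⟨h.fin i j hi hj, h.ne i j hi hj, h.FE i j hi hj, h.Fe i j hi hj, h.Fcard i j hi hj,
    h.Fcon i j hi hj, h.Fpot i j hi hj⟩

private theorem TG.interval {G : GG H} {E : Finset ℕ} {m R : ℕ} {B : ℕ → ℕ → Set ℕ}
    {F : ℕ → ℕ → Finset ℕ} {eh ev : ℕ → ℕ → ℕ} {φ : ℕ → H} (h : TG G E m R B F eh ev φ)
    {i s : ℕ} (hi : i < m) : ∀ k, s + k < R → Blk G E φ (BB B i s k) (FF F eh i s k) := by
  intro k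
  induction k with
  | zero =>
    intro hk
    exact h.blk hi hk
  | succ k ih =>
    intro hk
    have h1 := ih (by omega)
    have h2 := h.hE i (s + k) hi (by omega)
    refine Blk.join h1 (h.blk hi (by omega)) ?_ (A0 := B i (s + k)) ?_ h2.1 h2.2.1 h2.2.2
    · rw [Set.disjoint_left]
      intro u hu hu'
      obtain ⟨t, ht, hut⟩ := mem_BB.1 hu
      exact Set.disjoint_left.1 (h.dj i (s + t) i (s + k + 1) hi (by omega) hi (by omega)
        (Or.inr (by omega))) hut hu'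
    · intro u hu
      exact mem_BB.2 ⟨k, le_refl _, hu⟩

theorem merge {G : GG H} {E : Finset ℕ} {m R n : ℕ} {B : ℕ → ℕ → Set ℕ}
    {F : ℕ → ℕ → Finset ℕ} {eh ev : ℕ → ℕ → ℕ} {φ : ℕ → H} (h : TG G E m R B F eh ev φ)
    {c : ℕ → ℕ} (hc : ∀ a a', a < a' → a' < n → c a < c a') (hR : ∀ a, a < n → c a < R) :
    ∃ B' F' eh', TG G E m n B' F' eh' (fun i a => ev i (c a)) φ ∧
      ∀ i a, i < m → a < n → B i (c a) ⊆ B' i a := by
  obtain ⟨L, hL⟩ : ∃ L : ℕ → ℕ, ∀ a, L a = if a + 1 < n then c (a + 1) - c a - 1 else 0 :=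
    ⟨_, fun _ => rfl⟩
  have hLR : ∀ a, a < n → c a + L a < R := by
    intro a ha
    rw [hL]
    split_ifs with h1
    · have h2 := hc a (a + 1) (by omega) h1
      have h3 := hR (a + 1) h1
      omega
    · have h3 := hR a ha
      omega
  have hLc : ∀ a a', a < a' → a' < n → c a + L a < c a' := by
    intro a a' ha ha'
    rw [hL, if_pos (by omega)]
    have h2 := hc a (a + 1) (by omega) (by omega)
    rcases Nat.lt_or_ge (a + 1) a' with h3 | h3
    · have h4 := hc (a + 1) a' h3 ha'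
      omega
    · have h4 : a' = a + 1 := by omega
      subst h4
      omega
  have hblk : ∀ i a, i < m → a < n → Blk G E φ (BB B i (c a) (L a)) (FF F eh i (c a) (L a)) :=
    fun i a hi ha => h.interval hi (L a) (hLR a ha)
  have hsub : ∀ i a, B i (c a) ⊆ BB B i (c a) (L a) := fun i a u hu =>
    mem_BB.2 ⟨0, Nat.zero_le _, hu⟩
  refine ⟨fun i a => BB B i (c a) (L a), fun i a => FF F eh i (c a) (L a),
    fun i a => eh i (c a + L a), ?_, fun i a _ _ => hsub i a⟩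
  refine ⟨fun i a hi ha => (hblk i a hi ha).fin, fun i a hi ha => (hblk i a hi ha).ne, ?_,
    fun i a hi ha => (hblk i a hi ha).FE, fun i a hi ha => (hblk i a hi ha).Fe,
    fun i a hi ha => (hblk i a hi ha).Fcard, fun i a hi ha => (hblk i a hi ha).Fcon,
    fun i a hi ha => (hblk i a hi ha).Fpot, ?_, ?_⟩
  · intro i a i' a' hi ha hi' ha' hne
    rw [Set.disjoint_left]
    intro u hu hu'
    obtain ⟨t, ht, hut⟩ := mem_BB.1 hu
    obtain ⟨t', ht', hut'⟩ := mem_BB.1 hu'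
    have h1 := hLR a ha
    have h2 := hLR a' ha'
    refine Set.disjoint_left.1 (h.dj i (c a + t) i' (c a' + t') hi (by omega) hi' (by omega)
      ?_) hut hut'
    by_cases h3 : i = i'
    · right
      have h4 : a ≠ a' := by
        rcases hne with h5 | h5
        · exact absurd h3 h5
        · exact h5
      rcases Nat.lt_or_ge a a' with h5 | h5
      · have h6 := hLc a a' h5 ha'
        omega
      · have h6 := hLc a' a (by omega) ha
        omega
    · exact Or.inl h3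
  · intro i a hi ha
    have h1 : c a + L a + 1 = c (a + 1) := by
      rw [hL, if_pos ha]
      have h2 := hc a (a + 1) (by omega) ha
      omega
    have h2 := h.hE i (c a + L a) hi (by rw [h1]; exact hR _ ha)
    rw [h1] at h2
    refine ⟨h2.1, ?_, h2.2.2⟩
    have k1 : B i (c a + L a) ⊆ BB B i (c a) (L a) := fun u hu => mem_BB.2 ⟨L a, le_refl _, hu⟩
    have k2 := hsub i (a + 1)
    rcases h2.2.1 with ⟨h3, h4⟩ | ⟨h3, h4⟩
    · exact Or.inl ⟨k1 h3, k2 h4⟩
    · exact Or.inr ⟨k2 h3, k1 h4⟩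
  · intro i a hi ha
    have h2 := h.vE i (c a) hi (hR a ha)
    refine ⟨h2.1, ?_⟩
    rcases h2.2 with ⟨h3, h4⟩ | ⟨h3, h4⟩
    · exact Or.inl ⟨hsub i a h3, hsub (i + 1) a h4⟩
    · exact Or.inr ⟨hsub (i + 1) a h3, hsub i a h4⟩

/-- the defect of the edge `e` between `A` and `A'` -/
private theorem exists_defect {G : GG H} {φ : ℕ → H} {e : ℕ} {A A' : Set ℕ} (hJ : JS G e A A') :
    ∃ δ : H, ∀ (φ' : ℕ → H) (κ : H), (∀ w ∈ A, φ' w = κ * φ w) →
      (∀ w ∈ A', φ' w = κ * δ * φ w) → Pt G φ' e := by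
  rcases hJ with ⟨h1, h2⟩ | ⟨h1, h2⟩
  · refine ⟨φ (G e).1 * (G e).2.2 * (φ (G e).2.1)⁻¹, fun φ' κ ha ha' => ?_⟩
    rw [Pt, ha _ h1, ha' _ h2]
    group
  · refine ⟨φ (G e).2.1 * (G e).2.2⁻¹ * (φ (G e).1)⁻¹, fun φ' κ ha ha' => ?_⟩
    rw [Pt, ha _ h2, ha' _ h1]
    group

private theorem pt_row {G : GG H} {φ φ' : ℕ → H} {e : ℕ} {κ : H} (h : Pt G φ e)
    (h1 : φ' (G e).1 = κ * φ (G e).1) (h2 : φ' (G e).2.1 = κ * φ (G e).2.1) : Pt G φ' e := by
  rw [Pt] at h ⊢
  rw [h, h1, h2]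
  group

theorem bal_grid (H : Type) [Group H] [Finite H] (n : ℕ) : ∃ R : ℕ, ∀ (G : GG H)
    (E : Finset ℕ) (B : ℕ → ℕ → Set ℕ) (F : ℕ → ℕ → Finset ℕ) (eh ev : ℕ → ℕ → ℕ) (φ : ℕ → H),
    TG G E n R B F eh ev φ →
    ∃ B' F' eh' ev' φ', TG G E n n B' F' eh' ev' φ' ∧
      ∀ i j, i + 1 < n → j < n → Pt G φ' (ev' i j) := by
  classical
  have := Fintype.ofFinite H
  refine ⟨Fintype.card (Fin n → H) * n, fun G E B F eh ev φ h => ?_⟩
  obtain ⟨R, hRd⟩ : ∃ R : ℕ, R = Fintype.card (Fin n → H) * n := ⟨_, rfl⟩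
  rw [← hRd] at h
  have hδ : ∀ i j : ℕ, ∃ δ : H, i + 1 < n → j < R → ∀ (φ' : ℕ → H) (κ : H),
      (∀ w ∈ B i j, φ' w = κ * φ w) → (∀ w ∈ B (i + 1) j, φ' w = κ * δ * φ w) →
        Pt G φ' (ev i j) := by
    intro i j
    by_cases hij : i + 1 < n ∧ j < R
    · obtain ⟨δ, hδ⟩ := exists_defect (φ := φ) (h.vE i j hij.1 hij.2).2
      exact ⟨δ, fun _ _ => hδ⟩
    · exact ⟨1, fun h1 h2 => absurd ⟨h1, h2⟩ hij⟩
  choose δ hδ using hδ
  obtain ⟨y, hy⟩ := Fintype.exists_le_card_fiber_of_mul_le_card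
    (f := fun j : Fin R => fun i : Fin n => δ i j) (n := n) (by rw [Fintype.card_fin, hRd])
  obtain ⟨S0, hS0, hS0c⟩ := Finset.exists_subset_card_eq hy
  obtain ⟨c, hcd⟩ : ∃ c : ℕ → ℕ, ∀ a (ha : a < n), c a = ((S0.orderEmbOfFin hS0c ⟨a, ha⟩ : Fin R) : ℕ) :=
    ⟨fun a => if ha : a < n then ((S0.orderEmbOfFin hS0c ⟨a, ha⟩ : Fin R) : ℕ) else 0,
      fun a ha => dif_pos ha⟩
  have hcR : ∀ a, a < n → c a < R := fun a ha => by
    rw [hcd a ha]
    exact (S0.orderEmbOfFin hS0c ⟨a, ha⟩).2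
  have hcm : ∀ a a', a < a' → a' < n → c a < c a' := fun a a' h1 h2 => by
    rw [hcd a (by omega), hcd a' h2]
    exact (S0.orderEmbOfFin hS0c).strictMono (show (⟨a, by omega⟩ : Fin n) < ⟨a', h2⟩ from h1)
  have hcδ : ∀ i (hi : i < n) a, a < n → δ i (c a) = y ⟨i, hi⟩ := by
    intro i hi a ha
    have h1 := hS0 (Finset.orderEmbOfFin_mem S0 hS0c ⟨a, ha⟩)
    have h2 := (Finset.mem_filter.1 h1).2
    have h3 := congrFun h2 ⟨i, hi⟩
    rw [hcd a ha]
    exact h3
  obtain ⟨B', F', eh', hT, hsub⟩ := merge h hcm hcR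
  obtain ⟨κ, hκ⟩ : ∃ κ : ℕ → H, ∀ i (hi : i < n), κ (i + 1) = κ i * y ⟨i, hi⟩ := by
    refine ⟨fun i => Nat.rec (1 : H) (fun j x => if hj : j < n then x * y ⟨j, hj⟩ else 1) i,
      fun i hi => ?_⟩
    exact dif_pos hi
  obtain ⟨φ', hφ'⟩ : ∃ φ' : ℕ → H, ∀ i a, i < n → a < n → ∀ w ∈ B' i a, φ' w = κ i * φ w := by
    refine ⟨fun w => if hw : ∃ i, i < n ∧ ∃ a, a < n ∧ w ∈ B' i a then
      κ (Classical.choose hw) * φ w else φ w, ?_⟩
    intro i a hi ha w hw
    have hex : ∃ i, i < n ∧ ∃ a, a < n ∧ w ∈ B' i a := ⟨i, hi, a, ha, hw⟩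
    have h1 := Classical.choose_spec hex
    obtain ⟨h2, a', ha', h3⟩ := h1
    have h4 : Classical.choose hex = i := by
      by_contra hne
      exact Set.disjoint_left.1 (hT.dj _ a' i a h2 ha' hi ha (Or.inl hne)) h3 hw
    simp only [dif_pos hex]
    rw [h4]
  refine ⟨B', F', eh', fun i a => ev i (c a), φ', ?_, ?_⟩
  · refine ⟨hT.fin, hT.ne, hT.dj, hT.FE, hT.Fe, hT.Fcard, hT.Fcon, ?_, ?_, hT.vE⟩
    · intro i j hi hj e he
      have h1 := hT.Fe i j hi hj e he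
      exact pt_row (hT.Fpot i j hi hj e he) (hφ' i j hi hj _ h1.1) (hφ' i j hi hj _ h1.2)
    · intro i j hi hj
      have h1 := hT.hE i j hi hj
      refine ⟨h1.1, h1.2.1, ?_⟩
      rcases h1.2.1 with ⟨h2, h3⟩ | ⟨h2, h3⟩
      · exact pt_row h1.2.2 (hφ' i j hi (by omega) _ h2) (hφ' i (j + 1) hi hj _ h3)
      · exact pt_row h1.2.2 (hφ' i (j + 1) hi hj _ h2) (hφ' i j hi (by omega) _ h3)
  · intro i j hi hj
    refine hδ i (c j) hi (hcR j hj) φ' (κ i) (fun w hw => ?_) (fun w hw => ?_)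
    · exact hφ' i j (by omega) hj w (hsub i j (by omega) hj hw)
    · rw [hcδ i (by omega) j hj, ← hκ i (by omega)]
      exact hφ' (i + 1) j hi hj w (hsub (i + 1) j hi hj hw)

end Pool.Agent.Helper28.GT
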