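import Pool.Agent.Helper28.GT.Defs

/-!
# GT-07: rows and connectors give a grid

`sgm h w i c`: segment number `c` of row `i`, the vertices at positions `s` with `w i c ≤ s < w i (c+1)`. `Conn`: `r` disjoint rows with cut positions `w i 0 < ... < w i D ≤ lh i + 1`, and for `i + 1 < r`, `c < D` a connector `K i c` between segment `c` of row `i` and
segment `c` of row `i + 1` (either the segments are adjacent, or `K i c` is connected and adjacent to both); connectors are disjoint from the rows, and connectors with different `c` are disjoint.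
`conn_grid`: with `D = r * r` there is an `r × r` grid minor. Branch sets: let `B i j` be the union of the vertices of row `i` at positions `s` with `w i (j * r) ≤ s < w i ((j + 1) * r)`, and, if `i + 1 < r` and the segments number `c = j * r + i` of the rows `i` and `i + 1` are not adjacent, the
connector `K i c`. The first part is a nonempty piece of a path (`jo_path`), and contains the segments `c` with `j * r ≤ c < (j + 1) * r`, so it is connected with the connector (`Cn.union_ad`). Disjointness: different parts of rows, connectors with different `c`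
(`j * r + i` determines `i < r` and `j`). Horizontal: positions `w i ((j+1) * r) - 1` and `w i ((j+1) * r)` are consecutive. Vertical: by the connector.
-/

set_option autoImplicit false

namespace Pool.Agent.Helper28.GT

/-- segment number `c` of row `i` -/
def sgm (h : ℕ → ℕ → ℕ) (w : ℕ → ℕ → ℕ) (i c : ℕ) : Set ℕ :=
  {y | ∃ s, w i c ≤ s ∧ s < w i (c + 1) ∧ y = h i s}

/-- rows and connectors -/
structure Conn (J : SimpleGraph ℕ) (r D : ℕ) (lh : ℕ → ℕ) (h : ℕ → ℕ → ℕ) (w : ℕ → ℕ → ℕ)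
    (K : ℕ → ℕ → Set ℕ) : Prop where
  hadj : ∀ i j, i < r → j < lh i → J.Adj (h i j) (h i (j + 1))
  hinj : ∀ i j i' j', i < r → i' < r → j ≤ lh i → j' ≤ lh i' → h i j = h i' j' →
    i = i' ∧ j = j'
  wlt : ∀ i c, i < r → c < D → w i c < w i (c + 1)
  wl : ∀ i, i < r → w i D ≤ lh i + 1
  Kdis : ∀ i c i' s, i + 1 < r → c < D → i' < r → s ≤ lh i' → h i' s ∉ K i c
  Kdj : ∀ i c i' c', i + 1 < r → i' + 1 < r → c < D → c' < D → c ≠ c' →
    Disjoint (K i c) (K i' c')
  link : ∀ i c, i + 1 < r → c < D → Ad J (sgm h w i c) (sgm h w (i + 1) c) ∨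
    (Cn J (K i c) ∧ Ad J (sgm h w i c) (K i c) ∧ Ad J (K i c) (sgm h w (i + 1) c))

/-- a piece of a row -/
private def prt (h : ℕ → ℕ → ℕ) (w : ℕ → ℕ → ℕ) (i a b : ℕ) : Set ℕ :=
  {y | ∃ s, w i a ≤ s ∧ s < w i b ∧ y = h i s}

private theorem wmono {J : SimpleGraph ℕ} {r D : ℕ} {lh : ℕ → ℕ} {h : ℕ → ℕ → ℕ}
    {w : ℕ → ℕ → ℕ} {K : ℕ → ℕ → Set ℕ} (hc : Conn J r D lh h w K) {i : ℕ} (hi : i < r) {c c' : ℕ}
    (hcc : c ≤ c') (hD : c' ≤ D) : w i c ≤ w i c' := by
  induction c', hcc using Nat.le_induction with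
  | base => exact le_rfl
  | succ m hm ih => exact (ih (by omega)).trans (hc.wlt i m hi (by omega)).le

private theorem prt_cn {J : SimpleGraph ℕ} {r D : ℕ} {lh : ℕ → ℕ} {h : ℕ → ℕ → ℕ}
    {w : ℕ → ℕ → ℕ} {K : ℕ → ℕ → Set ℕ} (hc : Conn J r D lh h w K) {i : ℕ} (hi : i < r) {a b : ℕ}
    (hab : a < b) (hb : b ≤ D) : Cn J (prt h w i a b) := by
  have h1 : w i a < w i b :=
    lt_of_lt_of_le (hc.wlt i a hi (by omega)) (wmono hc hi (by omega) hb)
  have h2 : w i b ≤ lh i + 1 := (wmono hc hi hb le_rfl).trans (hc.wl i hi)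
  refine ⟨⟨h i (w i a), w i a, le_rfl, h1, rfl⟩, ?_⟩
  have key : ∀ s t, s ≤ t → w i a ≤ s → t < w i b → Jo J (prt h w i a b) (h i s) (h i t) := by
    intro s t hst hs ht
    exact jo_path hst (fun j h3 h4 => ⟨j, by omega, by omega, rfl⟩)
      (fun j h3 h4 => hc.hadj i j hi (by omega))
  rintro u ⟨s, hs1, hs2, rfl⟩ v ⟨t, ht1, ht2, rfl⟩
  rcases le_total s t with hst | hst
  · exact key s t hst hs1 ht2
  · exact (key t s hst ht1 hs2).symm

private theorem sgm_sub {J : SimpleGraph ℕ} {r D : ℕ} {lh : ℕ → ℕ} {h : ℕ → ℕ → ℕ}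
    {w : ℕ → ℕ → ℕ} {K : ℕ → ℕ → Set ℕ} (hc : Conn J r D lh h w K) {i : ℕ} (hi : i < r) {a b c : ℕ}
    (hac : a ≤ c) (hcb : c < b) (hb : b ≤ D) : sgm h w i c ⊆ prt h w i a b := by
  rintro y ⟨s, h1, h2, rfl⟩
  exact ⟨s, (wmono hc hi hac (by omega)).trans h1, lt_of_lt_of_le h2 (wmono hc hi hcb hb), rfl⟩

theorem conn_grid {J : SimpleGraph ℕ} {r : ℕ} {lh : ℕ → ℕ} {h : ℕ → ℕ → ℕ}
    {w : ℕ → ℕ → ℕ} {K : ℕ → ℕ → Set ℕ} (hc : Conn J r (r * r) lh h w K) :
    ∃ B, GridM J r r B := by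
  have hcl : ∀ i j, i < r → j < r → j * r + i < (j + 1) * r ∧ (j + 1) * r ≤ r * r := by
    intro i j hi hj
    constructor
    · rw [add_mul]
      omega
    · exact Nat.mul_le_mul_right r hj
  obtain ⟨C, hC⟩ : ∃ C : ℕ → ℕ → Set ℕ, ∀ i j y, y ∈ C i j ↔ (i + 1 < r ∧
      ¬ Ad J (sgm h w i (j * r + i)) (sgm h w (i + 1) (j * r + i)) ∧ y ∈ K i (j * r + i)) :=
    ⟨fun i j => {y | i + 1 < r ∧
      ¬ Ad J (sgm h w i (j * r + i)) (sgm h w (i + 1) (j * r + i)) ∧ y ∈ K i (j * r + i)},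
      fun _ _ _ => Iff.rfl⟩
  have hs : ∀ i j s, i < r → j < r → s < w i ((j + 1) * r) → s ≤ lh i := by
    intro i j s hi hj h1
    have h2 := (wmono hc hi (hcl i j hi hj).2 le_rfl).trans (hc.wl i hi)
    omega
  have hPC : ∀ i j i' j' y, i < r → j < r → i' < r → j' < r →
      y ∈ prt h w i (j * r) ((j + 1) * r) → y ∈ C i' j' → False := by
    intro i j i' j' y hi hj hi' hj' hy hy'
    obtain ⟨s, hs1, hs2, rfl⟩ := hy
    obtain ⟨h1, -, h2⟩ := (hC _ _ _).1 hy'
    have h3 := hcl i' j' hi' hj'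
    exact hc.Kdis i' (j' * r + i') i s h1 (by omega) hi (hs i j s hi hj hs2) h2
  refine ⟨fun i j => prt h w i (j * r) ((j + 1) * r) ∪ C i j, ?_, ?_, ?_, ?_⟩
  · intro i j hi hj
    obtain ⟨h1, h2⟩ := hcl i j hi hj
    have hP := prt_cn hc hi (a := j * r) (b := (j + 1) * r) (by omega) h2
    by_cases hA : i + 1 < r ∧ ¬ Ad J (sgm h w i (j * r + i)) (sgm h w (i + 1) (j * r + i))
    · have hCK : C i j = K i (j * r + i) := by
        ext y
        rw [hC]
        exact ⟨fun h => h.2.2, fun h => ⟨hA.1, hA.2, h⟩⟩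
      rw [hCK]
      rcases hc.link i (j * r + i) hA.1 (by omega) with h3 | ⟨h3, h4, h5⟩
      · exact absurd h3 hA.2
      · exact hP.union_ad h3 (h4.mono (sgm_sub hc hi (by omega) h1 h2) subset_rfl le_rfl)
    · have hCK : C i j = ∅ := by
        ext y
        rw [hC]
        exact ⟨fun h => absurd ⟨h.1, h.2.1⟩ hA, fun h => absurd h (Set.notMem_empty y)⟩
      rw [hCK, Set.union_empty]
      exact hP
  · intro i j i' j' hi hj hi' hj' hne
    rw [Set.disjoint_left]
    rintro y (hy | hy) (hy' | hy')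
    · obtain ⟨s, hs1, hs2, rfl⟩ := hy
      obtain ⟨s', hs1', hs2', h3⟩ := hy'
      obtain ⟨h4, h5⟩ := hc.hinj i s i' s' hi hi' (hs i j s hi hj hs2) (hs i' j' s' hi' hj' hs2') h3
      subst h4
      subst h5
      rcases hne with h6 | h6
      · exact h6 rfl
      · rcases lt_or_gt_of_ne h6 with h7 | h7
        · have h8 : w i ((j + 1) * r) ≤ w i (j' * r) :=
            wmono hc hi (Nat.mul_le_mul_right r h7) (Nat.mul_le_mul_right r hj'.le)
          omega
        · have h8 : w i ((j' + 1) * r) ≤ w i (j * r) :=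
            wmono hc hi (Nat.mul_le_mul_right r h7) (Nat.mul_le_mul_right r hj.le)
          omega
    · exact hPC i j i' j' y hi hj hi' hj' hy hy'
    · exact hPC i' j' i j y hi' hj' hi hj hy' hy
    · obtain ⟨h1, -, h2⟩ := (hC _ _ _).1 hy
      obtain ⟨h3, -, h4⟩ := (hC _ _ _).1 hy'
      by_cases h5 : j * r + i = j' * r + i'
      · have h6 : i = i' := by
          have h7 := congrArg (fun x => x % r) h5
          simp only [Nat.mul_add_mod_self_right] at h7
          rwa [Nat.mod_eq_of_lt hi, Nat.mod_eq_of_lt hi'] at h7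
        subst h6
        have h7 : j * r = j' * r := by omega
        have h8 : j = j' := Nat.eq_of_mul_eq_mul_right (by omega) h7
        rcases hne with h9 | h9
        · exact h9 rfl
        · exact h9 h8
      · have h6 := hcl i j hi hj
        have h7 := hcl i' j' hi' hj'
        exact Set.disjoint_left.1 (hc.Kdj i _ i' _ h1 h3 (by omega) (by omega) h5) h2 h4
  · intro i j hi hj
    obtain ⟨h1, h2⟩ := hcl i j hi (by omega)
    obtain ⟨h3, h4⟩ := hcl i (j + 1) hi hj
    have h5 : w i (j * r) < w i ((j + 1) * r) :=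
      lt_of_lt_of_le (hc.wlt i (j * r) hi (by omega)) (wmono hc hi (by omega) h2)
    have h6 : w i ((j + 1) * r) < w i ((j + 1 + 1) * r) :=
      lt_of_lt_of_le (hc.wlt i ((j + 1) * r) hi (by omega)) (wmono hc hi (by omega) h4)
    have h7 := (wmono hc hi h4 le_rfl).trans (hc.wl i hi)
    refine ⟨h i (w i ((j + 1) * r) - 1), Or.inl ⟨_, by omega, by omega, rfl⟩,
      h i (w i ((j + 1) * r)), Or.inl ⟨_, le_rfl, h6, rfl⟩, ?_⟩
    have h8 := hc.hadj i (w i ((j + 1) * r) - 1) hi (by omega)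
    have h9 : w i ((j + 1) * r) - 1 + 1 = w i ((j + 1) * r) := by omega
    rwa [h9] at h8
  · intro i j hi hj
    obtain ⟨h1, h2⟩ := hcl i j (by omega) hj
    have hsub : sgm h w (i + 1) (j * r + i) ⊆ prt h w (i + 1) (j * r) ((j + 1) * r) ∪ C (i + 1) j :=
      (sgm_sub hc hi (by omega) h1 h2).trans Set.subset_union_left
    by_cases hA : Ad J (sgm h w i (j * r + i)) (sgm h w (i + 1) (j * r + i))
    · exact hA.mono ((sgm_sub hc (by omega) (by omega) h1 h2).trans Set.subset_union_left) hsub le_rfl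
    · rcases hc.link i (j * r + i) hi (by omega) with h3 | ⟨h3, h4, h5⟩
      · exact absurd h3 hA
      · refine h5.mono ?_ hsub le_rfl
        intro y hy
        exact Or.inr ((hC i j y).2 ⟨hi, hA, hy⟩)

end Pool.Agent.Helper28.GT
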