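import Mathlib

/-!
# GT-05: long path or large star

`PS T R r p o`: `p 0, ..., p (r-1) < R` are different, and either consecutive ones are related by `T`, or all are related to `o` and different from `o`. For every `r` there is `R` such that every symmetric relation `T` on `{0, ..., R-1}` which is
connected contains one. Proof: `R = (r + 1) ^ (r + 1) + 1` (for instance). If some `o < R` has at least `r` different `T`-neighbours `≠ o` take them. Otherwise let `L t` be the set of vertices at distance exactly `t` from `0` (or: reachable in at most `t` steps,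
of size at most `(r + 1) ^ t`). Some vertex is at distance at least `r`; a shortest path from `0` to it has at least `r` different vertices.
-/

set_option autoImplicit false

namespace Pool.Agent.Helper28.GT

/-- path or star -/
def PS (T : ℕ → ℕ → Prop) (R r : ℕ) (p : ℕ → ℕ) (o : ℕ) : Prop :=
  (∀ j, j < r → p j < R) ∧ (∀ j j', j < r → j' < r → p j = p j' → j = j') ∧ o < R ∧
    ((∀ j, j + 1 < r → T (p j) (p (j + 1))) ∨
      ((∀ j, j < r → p j ≠ o) ∧ ∀ j, j < r → T o (p j)))

open Classical in
/-- the neighbours of `v` below `R`, different from `v` -/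
private noncomputable def nb (T : ℕ → ℕ → Prop) (R v : ℕ) : Finset ℕ :=
  (Finset.range R).filter fun j => j ≠ v ∧ T v j

/-- balls around `0` -/
private noncomputable def bll (T : ℕ → ℕ → Prop) (R : ℕ) : ℕ → Finset ℕ
  | 0 => {0}
  | t + 1 => bll T R t ∪ (bll T R t).biUnion (nb T R)

private theorem mem_nb {T : ℕ → ℕ → Prop} {R v j : ℕ} : j ∈ nb T R v ↔ j < R ∧ j ≠ v ∧ T v j := by
  classical
  unfold nb
  rw [Finset.mem_filter, Finset.mem_range]

private theorem bll_mono {T : ℕ → ℕ → Prop} {R s t : ℕ} (h : s ≤ t) : bll T R s ⊆ bll T R t := by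
  induction t, h using Nat.le_induction with
  | base => exact Finset.Subset.refl _
  | succ t _ ih => exact ih.trans Finset.subset_union_left

private theorem bll_card {T : ℕ → ℕ → Prop} {R r : ℕ} (hR : 1 ≤ R)
    (h : ∀ o, o < R → (nb T R o).card ≤ r) (t : ℕ) :
    (bll T R t).card ≤ (r + 1) ^ t ∧ ∀ v ∈ bll T R t, v < R := by
  induction t with
  | zero =>
    refine ⟨by simp [bll], fun v hv => ?_⟩
    change v ∈ ({0} : Finset ℕ) at hv
    rw [Finset.mem_singleton] at hv
    omega
  | succ t ih =>
    refine ⟨?_, fun v hv => ?_⟩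
    · have h1 : ((bll T R t).biUnion (nb T R)).card ≤ (bll T R t).card * r :=
        Finset.card_biUnion_le_card_mul _ _ _ fun v hv => h v (ih.2 v hv)
      calc (bll T R (t + 1)).card ≤ (bll T R t).card + ((bll T R t).biUnion (nb T R)).card :=
            Finset.card_union_le _ _
        _ ≤ (bll T R t).card + (bll T R t).card * r := by omega
        _ = (bll T R t).card * (r + 1) := by ring
        _ ≤ (r + 1) ^ t * (r + 1) := Nat.mul_le_mul_right _ ih.1
        _ = (r + 1) ^ (t + 1) := by ring
    · change v ∈ bll T R t ∪ (bll T R t).biUnion (nb T R) at hv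
      rw [Finset.mem_union, Finset.mem_biUnion] at hv
      rcases hv with hv | ⟨w, _, hv⟩
      · exact ih.2 v hv
      · exact (mem_nb.1 hv).1

private def lvl (T : ℕ → ℕ → Prop) (R : ℕ) : ℕ → ℕ → Prop
  | 0, u => u ∈ bll T R 0
  | t + 1, u => u ∈ bll T R (t + 1) ∧ u ∉ bll T R t

private theorem lvl_mem {T : ℕ → ℕ → Prop} {R t u : ℕ} (h : lvl T R t u) : u ∈ bll T R t := by
  cases t with
  | zero => exact h
  | succ t => exact h.1

private theorem lvl_inj {T : ℕ → ℕ → Prop} {R s t u : ℕ} (hs : lvl T R s u) (ht : lvl T R t u) :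
    s = t := by
  rcases lt_trichotomy s t with h | h | h
  · exfalso
    obtain ⟨t', rfl⟩ : ∃ t', t = t' + 1 := ⟨t - 1, by omega⟩
    exact ht.2 (bll_mono (by omega) (lvl_mem hs))
  · exact h
  · exfalso
    obtain ⟨s', rfl⟩ : ∃ s', s = s' + 1 := ⟨s - 1, by omega⟩
    exact hs.2 (bll_mono (by omega) (lvl_mem ht))

private theorem lvl_path {T : ℕ → ℕ → Prop} {R : ℕ} (t : ℕ) : ∀ u, lvl T R t u →
    ∃ p : ℕ → ℕ, (∀ j, j ≤ t → lvl T R j (p j)) ∧ (∀ j, j < t → T (p j) (p (j + 1))) ∧ p t = u := by
  induction t with
  | zero =>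
    intro u hu
    refine ⟨fun _ => u, fun j hj => ?_, fun j hj => by omega, rfl⟩
    obtain rfl : j = 0 := by omega
    exact hu
  | succ t ih =>
    intro u hu
    have h1 : u ∈ bll T R t ∪ (bll T R t).biUnion (nb T R) := hu.1
    rw [Finset.mem_union, Finset.mem_biUnion] at h1
    rcases h1 with h1 | ⟨v, hv, h1⟩
    · exact absurd h1 hu.2
    · have hlv : lvl T R t v := by
        cases t with
        | zero => exact hv
        | succ t =>
          refine ⟨hv, fun hv' => hu.2 ?_⟩
          change u ∈ bll T R t ∪ (bll T R t).biUnion (nb T R)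
          rw [Finset.mem_union, Finset.mem_biUnion]
          exact Or.inr ⟨v, hv', h1⟩
      obtain ⟨p, hp1, hp2, hp3⟩ := ih v hlv
      refine ⟨fun j => if j ≤ t then p j else u, fun j hj => ?_, fun j hj => ?_, ?_⟩
      · by_cases h2 : j ≤ t
        · simp only [if_pos h2]
          exact hp1 j h2
        · simp only [if_neg h2]
          obtain rfl : j = t + 1 := by omega
          exact hu
      · by_cases h2 : j + 1 ≤ t
        · simp only [if_pos h2, if_pos (show j ≤ t by omega)]
          exact hp2 j (by omega)
        · obtain rfl : j = t := by omega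
          simp only [if_neg h2, if_pos (le_refl j)]
          rw [hp3]
          exact (mem_nb.1 h1).2.2
      · simp only [if_neg (show ¬ t + 1 ≤ t by omega)]

theorem path_or_star (r : ℕ) : ∃ R, 1 ≤ R ∧ ∀ T : ℕ → ℕ → Prop, (∀ i j, T i j → T j i) →
    (∀ i j, i < R → j < R → Relation.ReflTransGen (fun a b => T a b ∧ a < R ∧ b < R) i j) →
    ∃ p o, PS T R r p o := by
  classical
  refine ⟨(r + 1) ^ (r + 1) + 1, by omega, fun T _ hcon => ?_⟩
  set R := (r + 1) ^ (r + 1) + 1 with hR
  have hR1 : 1 ≤ R := by omega
  by_cases hstar : ∃ o, o < R ∧ r ≤ (nb T R o).card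
  · obtain ⟨o, ho, hcard⟩ := hstar
    let q := (nb T R o).orderEmbOfFin rfl
    have hq : ∀ j, q j ∈ nb T R o := fun j => Finset.orderEmbOfFin_mem _ _ _
    let p : ℕ → ℕ := fun j => if h : j < (nb T R o).card then q ⟨j, h⟩ else 0
    have hp : ∀ j (h : j < r), p j = q ⟨j, lt_of_lt_of_le h hcard⟩ := fun j h =>
      dif_pos (lt_of_lt_of_le h hcard)
    refine ⟨p, o, fun j hj => ?_, fun j j' hj hj' h => ?_, ho, Or.inr ⟨fun j hj => ?_, fun j hj => ?_⟩⟩
    · rw [hp j hj]
      exact (mem_nb.1 (hq _)).1
    · rw [hp j hj, hp j' hj'] at h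
      have h1 := q.injective h
      exact congrArg Fin.val h1
    · rw [hp j hj]
      exact (mem_nb.1 (hq _)).2.1
    · rw [hp j hj]
      exact (mem_nb.1 (hq _)).2.2
  · push Not at hstar
    have hb := bll_card (T := T) (R := R) (r := r) hR1 (fun o ho => (hstar o ho).le)
    have hex : ∀ s, s ≤ r → ∃ u, lvl T R s u := by
      intro s hs
      cases s with
      | zero => exact ⟨0, Finset.mem_singleton_self 0⟩
      | succ s =>
        by_contra hno
        push Not at hno
        have hcl : bll T R (s + 1) ⊆ bll T R s := by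
          intro u hu
          by_contra h1
          exact hno u ⟨hu, h1⟩
        have hall : ∀ v, v < R → v ∈ bll T R s := by
          intro v hv
          have h1 := hcon 0 v (by omega) hv
          induction h1 with
          | refl => exact bll_mono (Nat.zero_le s) (Finset.mem_singleton_self 0)
          | @tail b c _ hbc ih =>
            have hbm := ih hbc.2.1
            by_cases h2 : c = b
            · rw [h2]
              exact hbm
            · apply hcl
              change c ∈ bll T R s ∪ (bll T R s).biUnion (nb T R)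
              rw [Finset.mem_union, Finset.mem_biUnion]
              exact Or.inr ⟨b, hbm, mem_nb.2 ⟨hbc.2.2, h2, hbc.1⟩⟩
        have h3 : R ≤ (bll T R s).card := by
          have h4 : Finset.range R ⊆ bll T R s := fun v hv => hall v (Finset.mem_range.1 hv)
          have h5 := Finset.card_le_card h4
          rwa [Finset.card_range] at h5
        have h4 : (bll T R s).card ≤ (r + 1) ^ (r + 1) :=
          (hb s).1.trans (Nat.pow_le_pow_right (by omega) (by omega))
        omega
    obtain ⟨u, hu⟩ := hex (r - 1) (by omega)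
    obtain ⟨p, hp1, hp2, -⟩ := lvl_path (r - 1) u hu
    refine ⟨p, 0, fun j hj => ?_, fun j j' hj hj' h => ?_, by omega, Or.inl fun j hj => hp2 j (by omega)⟩
    · exact (hb j).2 _ (lvl_mem (hp1 j (by omega)))
    · have h1 := hp1 j (by omega)
      have h2 := hp1 j' (by omega)
      rw [← h] at h2
      exact lvl_inj h1 h2

end Pool.Agent.Helper28.GT
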