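import Pool.Agent.Helper28.GT.RC
import Pool.Agent.Helper28.GT.ConnGrid
import Pool.Agent.Helper28.GT.PathStar

/-!
# GT-08: rows and columns give a grid

`rc_conn_of`: suppose that for `D` columns `c 0 < c 1 < ... < c (D-1) < d` the path or star `(p, o)` is the same: `PS (Dr .. (c k)) R r p o` for all `k < D`. Then there are rows and connectors `Conn J r D`. Rows: `h' i = h (p i)`; cuts: `w' i k = w (p i) (c k)` for `k < D`,
`w' i D = w (p i) (c (D-1) + 1)` (if `D = 0` take `0`); the segment number `k` contains the positions from `w (p i) (c k)` to `w (p i) (c k + 1)` (`w_mono`), in which column `c k` meets row `p i`. Connectors for `i + 1 < r`: if `Dr (c k) (p i) (p (i+1))`, given by positions `s < t` of the column: `K i k = {v (c k) u : s < u < t}`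
(if it is empty then `t = s + 1` and the segments are adjacent). Otherwise `Dr (c k) o (p i)` and `Dr (c k) o (p (i+1))`: `K i k` is the union of the two open column parts and of the vertices of row `o` at positions `s` with `w o (c k) ≤ s < w o (c k + 1)` (nonempty connected, contains all vertices of column
`c k` on row `o`). It is connected and adjacent to the two segments. Connectors avoid the rows `p i'` (open column parts avoid all rows, `o ≠ p i'`, rows are disjoint). Connectors for different `k` are disjoint (columns are disjoint, segments of row `o` with different numbers are disjoint, open column parts avoid rows).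
`rc_grid`: let `R` be the number of `path_or_star` for `r`, and `d = (r * r) * ((R ^ r) * R * 2)` or larger. For every `c < d` choose `(p, o)` with `PS` (`dr_symm`, `dr_conn`), `p` restricted to `{0, ..., r-1}` and with values `0` elsewhere. By the pigeonhole principle `r * r` columns have the same `(p, o)`;
`rc_conn_of` and `conn_grid`.
-/

set_option autoImplicit false

namespace Pool.Agent.Helper28.GT

theorem piece_cn {J : SimpleGraph ℕ} {x : ℕ → ℕ} {s t : ℕ} (hst : s ≤ t)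
    (hadj : ∀ j, s ≤ j → j < t → J.Adj (x j) (x (j + 1))) :
    Cn J {y | ∃ u, s ≤ u ∧ u ≤ t ∧ y = x u} := by
  refine ⟨⟨x s, s, le_rfl, hst, rfl⟩, ?_⟩
  have key : ∀ u u', s ≤ u → u ≤ u' → u' ≤ t →
      Jo J {y | ∃ u, s ≤ u ∧ u ≤ t ∧ y = x u} (x u) (x u') := by
    intro u u' h1 h2 h3
    exact jo_path h2 (fun j h4 h5 => ⟨j, by omega, by omega, rfl⟩)
      (fun j h4 h5 => hadj j (by omega) (by omega))
  rintro _ ⟨u, h1, h2, rfl⟩ _ ⟨u', h3, h4, rfl⟩
  rcases le_total u u' with h | h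
  · exact key u u' h1 h h4
  · exact (key u' u h3 h h2).symm

theorem open_part {J : SimpleGraph ℕ} {x : ℕ → ℕ} {s t : ℕ} (hst : s < t)
    (hadj : ∀ j, s ≤ j → j < t → J.Adj (x j) (x (j + 1))) {A B : Set ℕ} (hA : x s ∈ A)
    (hB : x t ∈ B) :
    Ad J A B ∨ (Cn J {y | ∃ u, s < u ∧ u < t ∧ y = x u} ∧
      Ad J A {y | ∃ u, s < u ∧ u < t ∧ y = x u} ∧
      Ad J {y | ∃ u, s < u ∧ u < t ∧ y = x u} B) := by
  by_cases h : t = s + 1
  · subst h
    exact Or.inl ⟨x s, hA, x (s + 1), hB, hadj s le_rfl (by omega)⟩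
  · right
    refine ⟨?_, ⟨x s, hA, x (s + 1), ⟨s + 1, by omega, by omega, rfl⟩, hadj s le_rfl hst⟩,
      ⟨x (t - 1), ⟨t - 1, by omega, by omega, rfl⟩, x t, hB, ?_⟩⟩
    · have h1 : {y | ∃ u, s < u ∧ u < t ∧ y = x u} =
          {y | ∃ u, s + 1 ≤ u ∧ u ≤ t - 1 ∧ y = x u} := by
        ext y
        constructor
        · rintro ⟨u, h1, h2, h3⟩
          exact ⟨u, by omega, by omega, h3⟩
        · rintro ⟨u, h1, h2, h3⟩
          exact ⟨u, by omega, by omega, h3⟩
      rw [h1]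
      exact piece_cn (by omega) (fun j h2 h3 => hadj j (by omega) (by omega))
    · have h2 := hadj (t - 1) (by omega) (by omega)
      rwa [show t - 1 + 1 = t by omega] at h2

/-- a direct part of a column between a vertex of `A` and a vertex of `B` -/
theorem dr_part {J : SimpleGraph ℕ} {R d : ℕ} {lh : ℕ → ℕ} {h : ℕ → ℕ → ℕ} {lv : ℕ → ℕ}
    {v : ℕ → ℕ → ℕ} {w : ℕ → ℕ → ℕ} (hrc : RC J R d lh h lv v w) {c i i' : ℕ} (hc : c < d)
    (hd : Dr R lh h lv v c i i') {A B : Set ℕ}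
    (hA : ∀ t, t ≤ lv c → OnR lh h i (v c t) → v c t ∈ A)
    (hB : ∀ t, t ≤ lv c → OnR lh h i' (v c t) → v c t ∈ B) :
    ∃ K : Set ℕ, (∀ y ∈ K, ∃ u, u ≤ lv c ∧ y = v c u ∧ ∀ i'', i'' < R → ¬ OnR lh h i'' y) ∧
      (Ad J A B ∨ (Cn J K ∧ Ad J A K ∧ Ad J K B)) := by
  obtain ⟨s, t, hst, ht, hor, hno⟩ := hd
  refine ⟨{y | ∃ u, s < u ∧ u < t ∧ y = v c u}, ?_, ?_⟩
  · rintro _ ⟨u, h1, h2, rfl⟩
    exact ⟨u, by omega, rfl, hno u h1 h2⟩
  · have hadj : ∀ j, s ≤ j → j < t → J.Adj (v c j) (v c (j + 1)) :=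
      fun j _ h2 => hrc.vadj c j hc (by omega)
    rcases hor with ⟨h1, h2⟩ | ⟨h1, h2⟩
    · exact open_part hst hadj (hA s (by omega) h1) (hB t ht h2)
    · rcases open_part hst hadj (hB s (by omega) h1) (hA t ht h2) with h3 | ⟨h3, h4, h5⟩
      · exact Or.inl h3.symm
      · exact Or.inr ⟨h3, h5.symm, h4.symm⟩

theorem ext_part {J : SimpleGraph ℕ} {S A K : Set ℕ} (hS : Cn J S)
    (h : Ad J S A ∨ (Cn J K ∧ Ad J S K ∧ Ad J K A)) :
    ∃ S', S ⊆ S' ∧ S' ⊆ S ∪ K ∧ Cn J S' ∧ Ad J S' A := by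
  rcases h with h | ⟨h1, h2, h3⟩
  · exact ⟨S, subset_rfl, Set.subset_union_left, hS, h⟩
  · exact ⟨S ∪ K, Set.subset_union_left, subset_rfl, hS.union_ad h1 h2,
      h3.mono Set.subset_union_right subset_rfl le_rfl⟩

theorem rc_conn_of {J : SimpleGraph ℕ} {R d r D : ℕ} {lh : ℕ → ℕ} {h : ℕ → ℕ → ℕ} {lv : ℕ → ℕ}
    {v : ℕ → ℕ → ℕ} {w : ℕ → ℕ → ℕ} (hrc : RC J R d lh h lv v w) {c : ℕ → ℕ} {p : ℕ → ℕ}
    {o : ℕ} (hc : ∀ k k', k < k' → k' < D → c k < c k') (hd : ∀ k, k < D → c k < d)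
    (hps : ∀ k, k < D → PS (Dr R lh h lv v (c k)) R r p o) :
    ∃ lh' h' w' K, Conn J r D lh' h' w' K := by
  classical
  rcases Nat.eq_zero_or_pos D with hD | hD
  · subst hD
    rcases Nat.eq_zero_or_pos r with hr | hr
    · subst hr
      exact ⟨fun _ => 0, fun _ _ => 0, fun _ _ => 0, fun _ _ => ∅, ⟨by omega, by omega, by omega,
        by omega, by omega, by omega, by omega⟩⟩
    · exact ⟨fun _ => 0, fun i _ => i, fun _ _ => 0, fun _ _ => ∅,
        ⟨fun i j _ h2 => absurd h2 (by omega), fun i j i' j' _ _ h3 h4 h5 => ⟨h5, by omega⟩,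
        fun i c _ h2 => absurd h2 (by omega), fun i _ => by omega,
        fun i c i' s _ h2 => absurd h2 (by omega), fun i c i' c' _ _ h2 => absurd h2 (by omega),
        fun i c _ h2 => absurd h2 (by omega)⟩⟩
  · obtain ⟨hpR, hpi, hoR, -⟩ := hps 0 hD
    have hck : ∀ k, k + 1 < D → c k + 1 ≤ c (k + 1) := fun k hk => hc k (k + 1) (by omega) hk
    let w' : ℕ → ℕ → ℕ := fun i k => if k < D then w (p i) (c k) else w (p i) (c (D - 1) + 1)
    have hw1 : ∀ i k, k < D → w' i k = w (p i) (c k) := fun i k hk => if_pos hk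
    have hw2 : ∀ i, w' i D = w (p i) (c (D - 1) + 1) := fun i => if_neg (lt_irrefl D)
    have hw3 : ∀ i k, i < r → k < D → w (p i) (c k + 1) ≤ w' i (k + 1) := by
      intro i k hi hk
      by_cases h1 : k + 1 < D
      · rw [hw1 i (k + 1) h1]
        exact w_mono hrc (hpR i hi) (hck k h1) (hd (k + 1) h1).le
      · have h2 : k + 1 = D := by omega
        rw [h2, hw2, show D - 1 = k by omega]
    -- membership in segments
    have hseg : ∀ i k, i < r → k < D → ∀ t, t ≤ lv (c k) → OnR lh h (p i) (v (c k) t) →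
        v (c k) t ∈ sgm (fun i => h (p i)) w' i k := by
      intro i k hi hk t ht hon
      obtain ⟨s, hs, he⟩ := hon
      obtain ⟨h1, h2⟩ := hrc.seg (p i) (c k) s t (hpR i hi) (hd k hk) hs ht he.symm
      refine ⟨s, ?_, lt_of_lt_of_le h2 (hw3 i k hi hk), he⟩
      rw [hw1 i k hk]
      exact h1
    let Z : ℕ → Set ℕ := fun k =>
      {y | ∃ u, u ≤ lv (c k) ∧ y = v (c k) u ∧ ∀ i'', i'' < R → ¬ OnR lh h i'' y} ∪
      {y | ∃ s, s ≤ lh o ∧ w o (c k) ≤ s ∧ s < w o (c k + 1) ∧ y = h o s ∧ ∀ j, j < r → p j ≠ o}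
    have hK : ∀ i k, i + 1 < r → k < D → ∃ K : Set ℕ, K ⊆ Z k ∧
        (Ad J (sgm (fun i => h (p i)) w' i k) (sgm (fun i => h (p i)) w' (i + 1) k) ∨
        (Cn J K ∧ Ad J (sgm (fun i => h (p i)) w' i k) K ∧
          Ad J K (sgm (fun i => h (p i)) w' (i + 1) k))) := by
      intro i k hi hk
      obtain ⟨-, -, -, hor⟩ := hps k hk
      rcases hor with hpath | ⟨hne, hstar⟩
      · obtain ⟨K, h1, h2⟩ := dr_part hrc (hd k hk) (hpath i hi)
          (hseg i k (by omega) hk) (hseg (i + 1) k hi hk)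
        exact ⟨K, fun y hy => Or.inl (h1 y hy), h2⟩
      · have hwd : w o (c k + 1) ≤ lh o + 1 :=
          (w_mono hrc hoR (show c k + 1 ≤ d from hd k hk) le_rfl).trans (hrc.wl o hoR)
        have hwlt := w_lt hrc hoR (hd k hk)
        let S : Set ℕ := {y | ∃ u, w o (c k) ≤ u ∧ u ≤ w o (c k + 1) - 1 ∧ y = h o u}
        have hS : Cn J S := piece_cn (by omega)
          (fun j h1 h2 => hrc.hadj o j hoR (by omega))
        have hSo : ∀ t, t ≤ lv (c k) → OnR lh h o (v (c k) t) → v (c k) t ∈ S := by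
          intro t ht hon
          obtain ⟨s, hs, he⟩ := hon
          obtain ⟨h1, h2⟩ := hrc.seg o (c k) s t hoR (hd k hk) hs ht he.symm
          exact ⟨s, h1, by omega, he⟩
        obtain ⟨K1, h1, h2⟩ := dr_part hrc (hd k hk) (hstar i (by omega)) hSo
          (hseg i k (by omega) hk)
        obtain ⟨S1, h3, h4, h5, h6⟩ := ext_part hS h2
        obtain ⟨K2, h7, h8⟩ := dr_part hrc (hd k hk) (hstar (i + 1) hi)
          (fun t ht hon => h3 (hSo t ht hon)) (hseg (i + 1) k hi hk)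
        obtain ⟨S2, h9, h10, h11, h12⟩ := ext_part h5 h8
        refine ⟨S2, ?_, Or.inr ⟨h11, (h6.mono h9 subset_rfl le_rfl).symm, h12⟩⟩
        have hSZ : S ⊆ Z k := by
          rintro _ ⟨u, h13, h14, rfl⟩
          exact Or.inr ⟨u, by omega, h13, by omega, rfl, hne⟩
        refine h10.trans (Set.union_subset (h4.trans (Set.union_subset hSZ ?_)) ?_)
        · exact fun y hy => Or.inl (h1 y hy)
        · exact fun y hy => Or.inl (h7 y hy)
    have hZrow : ∀ k i' s, i' < r → s ≤ lh (p i') → h (p i') s ∉ Z k := by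
      rintro k i' s hi' hs (⟨u, -, -, h1⟩ | ⟨s', h1, -, -, h2, h3⟩)
      · exact h1 (p i') (hpR i' hi') ⟨s, hs, rfl⟩
      · exact h3 i' hi' (hrc.hinj (p i') s o s' (hpR i' hi') hoR hs h1 h2).1
    have hZlt : ∀ k k', k < k' → k' < D → Disjoint (Z k) (Z k') := by
      intro k k' hkk hk'
      have hk : k < D := by omega
      have hcc := hc k k' hkk hk'
      rw [Set.disjoint_left]
      rintro y (⟨u, h1, h2, h3⟩ | ⟨s, h1, h2, h3, h4, h5⟩) (⟨u', h1', h2', h3'⟩ | ⟨s', h1', h2', h3', h4', h5'⟩)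
      · have := (hrc.vinj (c k) u (c k') u' (hd k hk) (hd k' hk') h1 h1' (h2 ▸ h2')).1
        omega
      · exact h3 o hoR ⟨s', h1', h4'⟩
      · exact h3' o hoR ⟨s, h1, h4⟩
      · have h6 := (hrc.hinj o s o s' hoR hoR h1 h1' (h4 ▸ h4')).2
        have h7 : w o (c k + 1) ≤ w o (c k') := w_mono hrc hoR hcc (hd k' hk').le
        omega
    choose! K hK1 hK2 using hK
    refine ⟨fun i => lh (p i), fun i => h (p i), w', K, ?_⟩
    refine ⟨fun i j hi hj => hrc.hadj (p i) j (hpR i hi) hj, ?_, ?_, ?_, ?_, ?_, ?_⟩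
    · intro i j i' j' hi hi' hj hj' he
      obtain ⟨h1, h2⟩ := hrc.hinj (p i) j (p i') j' (hpR i hi) (hpR i' hi') hj hj' he
      exact ⟨hpi i i' hi hi' h1, h2⟩
    · intro i k hi hk
      have h1 := hw3 i k hi hk
      rw [hw1 i k hk]
      exact lt_of_lt_of_le (w_lt hrc (hpR i hi) (hd k hk)) h1
    · intro i hi
      rw [hw2]
      exact (w_mono hrc (hpR i hi) (show c (D - 1) + 1 ≤ d from hd (D - 1) (by omega)) le_rfl).trans
        (hrc.wl (p i) (hpR i hi))
    · intro i k i' s hi hk hi' hs hmem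
      exact hZrow k i' s hi' hs (hK1 i k hi hk hmem)
    · intro i k i' k' hi hi' hk hk' hne
      rcases lt_or_gt_of_ne hne with h1 | h1
      · exact (hZlt k k' h1 hk').mono (hK1 i k hi hk) (hK1 i' k' hi' hk')
      · exact ((hZlt k' k h1 hk).mono (hK1 i' k' hi' hk') (hK1 i k hi hk)).symm
    · exact fun i k hi hk => hK2 i k hi hk

theorem rc_grid (r : ℕ) : ∃ R d : ℕ, 1 ≤ R ∧ 1 ≤ d ∧ ∀ (J : SimpleGraph ℕ) (lh : ℕ → ℕ)
    (h : ℕ → ℕ → ℕ) (lv : ℕ → ℕ) (v : ℕ → ℕ → ℕ) (w : ℕ → ℕ → ℕ), RC J R d lh h lv v w →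
    ∃ B, GridM J r r B := by
  classical
  obtain ⟨R, hR, hPS⟩ := path_or_star r
  refine ⟨R, (R ^ r * R) * (r * r) + 1, hR, by omega, ?_⟩
  intro J lh h lv v w hrc
  set d := (R ^ r * R) * (r * r) + 1 with hd
  have h1 : ∀ c, c < d → ∃ p o, PS (Dr R lh h lv v c) R r p o := by
    intro c hc
    exact hPS (Dr R lh h lv v c) (fun i j hij => dr_symm hij)
      (fun i j hi hj => dr_conn hrc hc hi hj)
  choose! p o hpo using h1
  haveI : NeZero R := ⟨by omega⟩
  let F : Fin d → (Fin r → Fin R) × Fin R := fun c =>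
    (fun j => Fin.ofNat R (p c j), Fin.ofNat R (o c))
  have hcard : Fintype.card ((Fin r → Fin R) × Fin R) * (r * r) ≤ Fintype.card (Fin d) := by
    simp only [Fintype.card_prod, Fintype.card_fun, Fintype.card_fin]
    omega
  obtain ⟨y, hy⟩ := Fintype.exists_le_card_fiber_of_mul_le_card F hcard
  obtain ⟨S, hS1, hS2⟩ := Finset.exists_subset_card_eq hy
  let e := S.orderEmbOfFin hS2
  have heS : ∀ i, F (e i) = y := by
    intro i
    have h2 : e i ∈ S := Finset.orderEmbOfFin_mem S hS2 i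
    have h3 := hS1 h2
    rw [Finset.mem_filter] at h3
    exact h3.2
  let c : ℕ → ℕ := fun k => if hk : k < r * r then ((e ⟨k, hk⟩ : Fin d) : ℕ) else 0
  have hck : ∀ k (hk : k < r * r), c k = ((e ⟨k, hk⟩ : Fin d) : ℕ) := fun k hk => dif_pos hk
  have hps : ∀ k, k < r * r → PS (Dr R lh h lv v (c k)) R r (fun j => if hj : j < r then
      ((y.1 ⟨j, hj⟩ : Fin R) : ℕ) else 0) ((y.2 : Fin R) : ℕ) := by
    intro k hk
    have hlt : c k < d := by
      rw [hck k hk]
      exact (e ⟨k, hk⟩).2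
    obtain ⟨g1, g2, g3, g4⟩ := hpo (c k) hlt
    have hFk := heS ⟨k, hk⟩
    have hp : ∀ j (hj : j < r), ((y.1 ⟨j, hj⟩ : Fin R) : ℕ) = p (c k) j := by
      intro j hj
      rw [← hFk, hck k hk]
      show (p (e ⟨k, hk⟩ : Fin d) j) % R = _
      refine Nat.mod_eq_of_lt ?_
      have := g1 j hj
      rw [hck k hk] at this
      exact this
    have ho : ((y.2 : Fin R) : ℕ) = o (c k) := by
      rw [← hFk, hck k hk]
      show (o (e ⟨k, hk⟩ : Fin d)) % R = _
      refine Nat.mod_eq_of_lt ?_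
      rw [hck k hk] at g3
      exact g3
    refine ⟨?_, ?_, y.2.2, ?_⟩
    · intro j hj
      simp only [dif_pos hj]
      exact (y.1 ⟨j, hj⟩).2
    · intro j j' hj hj' he
      simp only [dif_pos hj, dif_pos hj'] at he
      rw [hp j hj, hp j' hj'] at he
      exact g2 j j' hj hj' he
    · rcases g4 with g4 | ⟨g4, g5⟩
      · left
        intro j hj
        simp only [dif_pos hj, dif_pos (show j < r by omega)]
        rw [hp j (by omega), hp (j + 1) hj]
        exact g4 j hj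
      · right
        refine ⟨?_, ?_⟩
        · intro j hj
          simp only [dif_pos hj]
          rw [hp j hj, ho]
          exact g4 j hj
        · intro j hj
          simp only [dif_pos hj]
          rw [hp j hj, ho]
          exact g5 j hj
  have hc1 : ∀ k k', k < k' → k' < r * r → c k < c k' := by
    intro k k' hkk hk'
    rw [hck k (by omega), hck k' hk']
    exact e.strictMono (show (⟨k, by omega⟩ : Fin (r * r)) < ⟨k', hk'⟩ from hkk)
  have hc2 : ∀ k, k < r * r → c k < d := by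
    intro k hk
    rw [hck k hk]
    exact (e ⟨k, hk⟩).2
  obtain ⟨lh', h', w', K, hconn⟩ := rc_conn_of hrc hc1 hc2 hps
  exact conn_grid hconn

end Pool.Agent.Helper28.GT
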