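import Pool.Agent.Helper28.GT.Yard
import Pool.Agent.Helper28.GT.RCConn

/-!
# GT-09: crossing families give a grid

Let `R`, `d` be the numbers of `rc_grid`. `Q` is minimal with respect to the edges of `P`; all paths of the set `P'` (at least `d * (d * n)` of them) meet all the `R + 1` paths `g 0, ..., g R` of `Q`. `yard` with `q = g R` gives `v`, `z`. Rows `h i = xq (g i)`, `i < R`; columns `xp (v c)`, `c < d`; cuts `w i 0 = 0`,
`w i c = z c (g i)` for `1 ≤ c < d`, `w i d = lq (g i) + 1`. `RC` holds (for `i < R`, `g i ≠ g R`), `rc_grid`.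
-/

set_option autoImplicit false

namespace Pool.Agent.Helper28.GT

theorem cross_grid (r : ℕ) : ∃ R d : ℕ, 1 ≤ R ∧ 1 ≤ d ∧ ∀ (J : SimpleGraph ℕ)
    (F ap aq ai aj : Set ℕ), Fg J F → ai ⊆ F → aj ⊆ F → ∀ (K n : ℕ) (lp : Fin K → ℕ)
    (xp : Fin K → ℕ → ℕ) (lq : Fin n → ℕ) (xq : Fin n → ℕ → ℕ), LK J ap aq K lp xp →
    LK J ai aj n lq xq →
    (∀ l' x', LK J ai aj n l' x' →
      (ed lq xq \ ed lp xp).ncard ≤ (ed l' x' \ ed lp xp).ncard) →
    ∀ P : Finset (Fin K), d * (d * n) ≤ P.card → ∀ g : ℕ → Fin n,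
    (∀ i i', i ≤ R → i' ≤ R → g i = g i' → i = i') →
    (∀ p ∈ P, ∀ i, i ≤ R → ∃ b s, b ≤ lp p ∧ s ≤ lq (g i) ∧ xp p b = xq (g i) s) →
    ∃ B, GridM J r r B := by
  obtain ⟨R, d, hR, hd, hgrid⟩ := rc_grid r
  refine ⟨R, d, hR, hd, ?_⟩
  intro J F ap aq ai aj hJ hi hj K n lp xp lq xq hP hQ hmin P hcard g hg hmeet
  obtain ⟨v, z, hv, hvinj, hvz⟩ := yard hJ hi hj hP hQ hmin hd hcard (g R)
    (fun p hp => hmeet p hp R le_rfl)
  refine hgrid J (fun i => lq (g i)) (fun i j => xq (g i) j) (fun c => lp (v c))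
    (fun c j => xp (v c) j)
    (fun i c => if c = 0 then 0 else if c < d then z c (g i) else lq (g i) + 1) ?_
  refine ⟨?_, ?_, ?_, ?_, ?_, ?_, ?_⟩
  · intro i j _ h2
    exact hQ.adj (g i) j h2
  · intro i j i' j' h1 h2 h3 h4 h5
    obtain ⟨h6, h7⟩ := hQ.inj (g i) j (g i') j' h3 h4 h5
    exact ⟨hg i i' h1.le h2.le h6, h7⟩
  · intro c j _ h2
    exact hP.adj (v c) j h2
  · intro c j c' j' h1 h2 h3 h4 h5
    obtain ⟨h6, h7⟩ := hP.inj (v c) j (v c') j' h3 h4 h5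
    exact ⟨hvinj c c' h1 h2 h6, h7⟩
  · intro i c h1 h2
    obtain ⟨b, s, hb, hs, hbs⟩ := hmeet (v c) (hv c h2) i h1.le
    exact ⟨s, b, hs, hb, hbs.symm⟩
  · intro i c s t h1 h2 h3 h4 h5
    have hne : g i ≠ g R := by
      intro h6
      have h7 := hg i R h1.le le_rfl h6
      omega
    obtain ⟨h6, h7⟩ := hvz c h2 (g i) hne t s h4 h3 h5.symm
    constructor
    · by_cases hc0 : c = 0
      · simp only [if_pos hc0]
        exact Nat.zero_le s
      · simp only [if_neg hc0, if_pos h2]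
        exact (h6 (by omega)).le
    · have hc1 : ¬ c + 1 = 0 := by omega
      by_cases hcd : c + 1 < d
      · simp only [if_neg hc1, if_pos hcd]
        exact h7 hcd
      · simp only [if_neg hc1, if_neg hcd]
        exact Nat.lt_succ_of_le h3
  · intro i _
    have hd0 : ¬ d = 0 := by omega
    simp only [if_neg hd0, lt_irrefl, if_false]
    exact le_rfl

end Pool.Agent.Helper28.GT
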