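import Pool.Agent.Helper28.GT.Defs

/-!
# GT-11: cutting a connected graph of maximum degree three

`cut`. Among all `A ⊆ W` with `Cn T A`, `W \ A` empty or connected, and at least `k` elements of `X` in `A` (e.g. `A = W`) choose one with `|A|` minimum. If `W \ A` is nonempty let `v ∈ A` be adjacent to some vertex of `W \ A` (exists since `W` is connected), otherwise let `v ∈ A` be arbitrary. For every
`T`-neighbour `u` of `v` in `A` (at most three) let `D u = {x | Jo T (A \ {v}) u x}`. It is connected, adjacent to `v`, and `W \ D u` is connected: it consists of `v`, of `W \ A` (if nonempty: connected and adjacent to `v`) and of the `D u'` different from `D u` (two of these sets are equal or disjoint; each is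
connected and adjacent to `v`). By minimality `D u` has fewer than `k` elements of `X`. Every `x ∈ A \ {v}` is in some `D u`: take a walk in `A` from `x` to `v` and stop before the first visit of `v`. So `|A ∩ X| ≤ 1 + 3 * (k - 1) ≤ 3 * k`.
`parts`: induction on `m`. Apply `cut`, put `A 0 = A`; `|(W \ A) ∩ X| ≥ 3 * k * m - 3 * k`; if `W \ A` is empty then `m = 1`; otherwise the induction hypothesis for `W \ A`.
-/

set_option autoImplicit false

namespace Pool.Agent.Helper28.GT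

private theorem jo_cross {T : SimpleGraph ℕ} {W A : Set ℕ} {a b : ℕ} (h : Jo T W a b) (ha : a ∈ A)
    (hb : b ∉ A) : ∃ x ∈ A, ∃ y ∈ W \ A, T.Adj x y := by
  induction h with
  | refl _ => exact absurd ha hb
  | @step c d h1 hadj hd ih =>
    by_cases hc : c ∈ A
    · exact ⟨c, hc, d, ⟨hd, hb⟩, hadj⟩
    · exact ih hc

private theorem jo_first {T : SimpleGraph ℕ} {A : Set ℕ} {x v y : ℕ} (h : Jo T A x y) (hx : x ≠ v) :
    (∃ u, Jo T (A \ {v}) x u ∧ T.Adj u v) ∨ (Jo T (A \ {v}) x y ∧ y ≠ v) := by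
  induction h with
  | refl hxA => exact Or.inr ⟨Jo.refl ⟨hxA, hx⟩, hx⟩
  | @step c d h1 hadj hd ih =>
    rcases ih with h | ⟨h, hc⟩
    · exact Or.inl h
    · by_cases hdv : d = v
      · subst hdv
        exact Or.inl ⟨c, h, hadj⟩
      · exact Or.inr ⟨Jo.step h hadj ⟨hd, hdv⟩, hdv⟩

private theorem jo_restrict {T : SimpleGraph ℕ} {S : Set ℕ} {u x : ℕ} (h : Jo T S u x) :
    Jo T {y | Jo T S u y} u x := by
  induction h with
  | refl hu => exact Jo.refl (Jo.refl hu)
  | step h1 hadj hw ih => exact Jo.step ih hadj (Jo.step h1 hadj hw)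

private theorem jo_avoid {T : SimpleGraph ℕ} {S D W : Set ℕ} {x y : ℕ} (h : Jo T S x y) (hSW : S ⊆ W)
    (hD : ∀ z, Jo T S x z → z ∉ D) : Jo T (W \ D) x y := by
  induction h with
  | refl hx => exact Jo.refl ⟨hSW hx, hD _ (Jo.refl hx)⟩
  | step h1 hadj hw ih => exact Jo.step ih hadj ⟨hSW hw, hD _ (Jo.step h1 hadj hw)⟩

theorem cut {T : SimpleGraph ℕ} {W : Set ℕ} (hW : W.Finite) (hT : Cn T W)
    (h3 : ∀ v ∈ W, (T.neighborSet v).Finite ∧ (T.neighborSet v).ncard ≤ 3) {X : Set ℕ} {k : ℕ}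
    (hk : 1 ≤ k) (hX : k ≤ (W ∩ X).ncard) :
    ∃ A ⊆ W, Cn T A ∧ (W \ A = ∅ ∨ Cn T (W \ A)) ∧ k ≤ (A ∩ X).ncard ∧
      (A ∩ X).ncard ≤ 3 * k := by
  classical
  obtain ⟨P, hP⟩ : ∃ P : Set ℕ → Prop, ∀ A, P A ↔
      (A ⊆ W ∧ Cn T A ∧ (W \ A = ∅ ∨ Cn T (W \ A)) ∧ k ≤ (A ∩ X).ncard) := ⟨_, fun A => Iff.rfl⟩
  have hPW : P W := by
    rw [hP]
    exact ⟨subset_rfl, hT, Or.inl (Set.sdiff_self), hX⟩
  obtain ⟨A, hPA, hmin⟩ : ∃ A, P A ∧ ∀ B, P B → A.ncard ≤ B.ncard := by
    have hex : ∃ n, ∃ A, P A ∧ A.ncard = n := ⟨_, W, hPW, rfl⟩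
    obtain ⟨A, hA, hn⟩ := Nat.find_spec hex
    refine ⟨A, hA, fun B hB => ?_⟩
    rw [hn]
    exact Nat.find_min' hex ⟨B, hB, rfl⟩
  obtain ⟨hAW, hAc, hWA, hAk⟩ := (hP A).1 hPA
  refine ⟨A, hAW, hAc, hWA, hAk, ?_⟩
  have hAfin : A.Finite := hW.subset hAW
  obtain ⟨v, hvA, hv⟩ : ∃ v ∈ A, W \ A = ∅ ∨ ∃ w ∈ W \ A, T.Adj v w := by
    obtain ⟨a, ha⟩ := hAc.1
    rcases hWA with h | h
    · exact ⟨a, ha, Or.inl h⟩
    · obtain ⟨b, hb⟩ := h.1
      obtain ⟨x, hx, y, hy, hxy⟩ := jo_cross (hT.2 a (hAW ha) b hb.1) ha hb.2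
      exact ⟨x, hx, Or.inr ⟨y, hy, hxy⟩⟩
  obtain ⟨D, hDdef⟩ : ∃ D : ℕ → Set ℕ, ∀ u x, x ∈ D u ↔ Jo T (A \ {v}) u x :=
    ⟨fun u => {x | Jo T (A \ {v}) u x}, fun u x => Iff.rfl⟩
  have hDA : ∀ u, D u ⊆ A \ {v} := fun u x hx => ((hDdef u x).1 hx).right_mem
  have hDW : ∀ u, D u ⊆ W := fun u x hx => hAW (hDA u hx).1
  have hDcard : ∀ u, (D u ∩ X).ncard ≤ k - 1 := by
    intro u
    by_cases hu : u ∈ A \ {v}
    · by_contra hcon
      push Not at hcon
      have hDc : Cn T (D u) := by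
        have hDe : D u = {y | Jo T (A \ {v}) u y} := Set.ext fun x => hDdef u x
        refine ⟨⟨u, (hDdef u u).2 (Jo.refl hu)⟩, fun x hx y hy => ?_⟩
        have h1 := jo_restrict ((hDdef u x).1 hx)
        have h2 := jo_restrict ((hDdef u y).1 hy)
        rw [← hDe] at h1 h2
        exact h1.symm.trans h2
      have hvD : v ∉ D u := fun h => (hDA u h).2 rfl
      have hkey : ∀ x ∈ W \ D u, Jo T (W \ D u) x v := by
        intro x hx
        by_cases hxv : x = v
        · rw [hxv]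
          exact Jo.refl ⟨hAW hvA, hvD⟩
        · by_cases hxA : x ∈ A
          · rcases jo_first (hAc.2 x hxA v hvA) hxv with ⟨u', hu', hadj⟩ | ⟨_, h⟩
            · refine Jo.step (jo_avoid hu' (fun z hz => hAW hz.1) ?_) hadj ⟨hAW hvA, hvD⟩
              intro z hz hzD
              exact hx.2 ((hDdef u x).2 (((hDdef u z).1 hzD).trans hz.symm))
            · exact absurd rfl h
          · have hxWA : x ∈ W \ A := ⟨hx.1, hxA⟩
            rcases hWA with h | h
            · rw [h] at hxWA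
              exact absurd hxWA (Set.notMem_empty x)
            · rcases hv with h' | ⟨w, hw, hvw⟩
              · rw [h'] at hxWA
                exact absurd hxWA (Set.notMem_empty x)
              · refine Jo.step ((h.2 x hxWA w hw).mono ?_ le_rfl) hvw.symm ⟨hAW hvA, hvD⟩
                intro z hz
                exact ⟨hz.1, fun hzD => hz.2 (hDA u hzD).1⟩
      have hPD : P (D u) := by
        rw [hP]
        refine ⟨hDW u, hDc, Or.inr ⟨⟨v, hAW hvA, hvD⟩, fun x hx y hy => ?_⟩, by omega⟩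
        exact (hkey x hx).trans (hkey y hy).symm
      have h1 := hmin _ hPD
      have h2 : (D u).ncard < A.ncard := by
        refine Set.ncard_lt_ncard ⟨fun x hx => (hDA u hx).1, fun h => hvD (h hvA)⟩ hAfin
      omega
    · have hE : D u = ∅ := by
        rw [Set.eq_empty_iff_forall_notMem]
        intro x hx
        exact hu ((hDdef u x).1 hx).left_mem
      rw [hE, Set.empty_inter, Set.ncard_empty]
      exact Nat.zero_le _
  obtain ⟨hNf, hN3⟩ := h3 v (hAW hvA)
  have hcov : A ∩ X ⊆ {v} ∪ ⋃ u ∈ hNf.toFinset, (D u ∩ X) := by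
    rintro x ⟨hxA, hxX⟩
    by_cases hxv : x = v
    · exact Or.inl hxv
    · rcases jo_first (hAc.2 x hxA v hvA) hxv with ⟨u', hu', hadj⟩ | ⟨_, h⟩
      · refine Or.inr (Set.mem_iUnion₂.2 ⟨u', ?_, (hDdef u' x).2 hu'.symm, hxX⟩)
        rw [Set.Finite.mem_toFinset]
        exact hadj.symm
      · exact absurd rfl h
  have hfin : ({v} ∪ ⋃ u ∈ hNf.toFinset, (D u ∩ X)).Finite := by
    refine (Set.finite_singleton v).union (Set.Finite.biUnion (Finset.finite_toSet _) fun u _ => ?_)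
    exact (hW.subset (hDW u)).subset Set.inter_subset_left
  have h1 := Set.ncard_le_ncard hcov hfin
  have h2 := Set.ncard_union_le {v} (⋃ u ∈ hNf.toFinset, (D u ∩ X))
  have h4 := Finset.set_ncard_biUnion_le hNf.toFinset (fun u => D u ∩ X)
  have h5 : ∑ u ∈ hNf.toFinset, (D u ∩ X).ncard ≤ hNf.toFinset.card * (k - 1) := by
    rw [← smul_eq_mul]
    exact Finset.sum_le_card_nsmul _ _ _ fun u _ => hDcard u
  have h6 : hNf.toFinset.card ≤ 3 := by
    rw [← Set.ncard_eq_toFinset_card _ hNf]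
    exact hN3
  have h7 : hNf.toFinset.card * (k - 1) ≤ 3 * (k - 1) := Nat.mul_le_mul_right _ h6
  rw [Set.ncard_singleton] at h2
  omega

theorem parts {T : SimpleGraph ℕ} {W : Set ℕ} (hW : W.Finite) (hT : Cn T W)
    (h3 : ∀ v ∈ W, (T.neighborSet v).Finite ∧ (T.neighborSet v).ncard ≤ 3) {X : Set ℕ} {k : ℕ}
    (hk : 1 ≤ k) (m : ℕ) (hX : 3 * k * m ≤ (W ∩ X).ncard) :
    ∃ A : ℕ → Set ℕ, (∀ i, i < m → A i ⊆ W ∧ Cn T (A i) ∧ k ≤ (A i ∩ X).ncard) ∧
      ∀ i j, i < m → j < m → i ≠ j → Disjoint (A i) (A j) := by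
  classical
  induction m generalizing W with
  | zero => exact ⟨fun _ => ∅, fun i hi => absurd hi (Nat.not_lt_zero i), fun i _ hi => absurd hi (Nat.not_lt_zero i)⟩
  | succ m ih =>
    have hkW : k ≤ (W ∩ X).ncard := by
      refine le_trans ?_ hX
      calc k ≤ 3 * k := by omega
        _ = 3 * k * 1 := (mul_one _).symm
        _ ≤ 3 * k * (m + 1) := Nat.mul_le_mul_left _ (by omega)
    obtain ⟨A, hAW, hAc, hWA, hAk, hA3⟩ := cut hW hT h3 hk hkW
    by_cases hne : W \ A = ∅
    · have h1 : (W ∩ X).ncard ≤ (A ∩ X).ncard := by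
        refine Set.ncard_le_ncard ?_ ((hW.subset hAW).subset Set.inter_subset_left)
        rintro x ⟨hx, hxX⟩
        refine ⟨?_, hxX⟩
        by_contra hcon
        have : x ∈ W \ A := ⟨hx, hcon⟩
        rw [hne] at this
        exact this
      have hm : m = 0 := by
        by_contra hm
        have h2 : 3 * k * 2 ≤ 3 * k * (m + 1) := Nat.mul_le_mul_left _ (by omega)
        omega
      subst hm
      refine ⟨fun _ => A, fun i _ => ⟨hAW, hAc, hAk⟩, fun i j hi hj hij => ?_⟩
      omega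
    · have hc : Cn T (W \ A) := hWA.resolve_left hne
      have h1 : (W ∩ X).ncard ≤ (A ∩ X).ncard + ((W \ A) ∩ X).ncard := by
        refine le_trans (Set.ncard_le_ncard ?_ ?_) (Set.ncard_union_le _ _)
        · rintro x ⟨hx, hxX⟩
          by_cases hxA : x ∈ A
          · exact Or.inl ⟨hxA, hxX⟩
          · exact Or.inr ⟨⟨hx, hxA⟩, hxX⟩
        · exact ((hW.subset hAW).subset Set.inter_subset_left).union
            ((hW.subset Set.sdiff_subset).subset Set.inter_subset_left)
      have h2 : 3 * k * m ≤ ((W \ A) ∩ X).ncard := by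
        have : 3 * k * (m + 1) = 3 * k * m + 3 * k := by ring
        omega
      obtain ⟨B, hB1, hB2⟩ := ih (hW.subset Set.sdiff_subset) hc (fun v hv => h3 v hv.1) h2
      refine ⟨fun i => if i = 0 then A else B (i - 1), fun i hi => ?_, fun i j hi hj hij => ?_⟩
      · by_cases h0 : i = 0
        · simp only [h0, if_true]
          exact ⟨hAW, hAc, hAk⟩
        · simp only [h0, if_false]
          obtain ⟨g1, g2, g3⟩ := hB1 (i - 1) (by omega)
          exact ⟨g1.trans Set.sdiff_subset, g2, g3⟩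
      · by_cases h0 : i = 0
        · have hj0 : j ≠ 0 := by omega
          simp only [h0, hj0, if_true, if_false]
          refine Set.disjoint_left.2 fun x hx hxB => ((hB1 (j - 1) (by omega)).1 hxB).2 hx
        · by_cases hj0 : j = 0
          · simp only [h0, hj0, if_true, if_false]
            refine Set.disjoint_left.2 fun x hx hxA => ((hB1 (i - 1) (by omega)).1 hx).2 hxA
          · simp only [h0, hj0, if_false]
            exact hB2 (i - 1) (j - 1) (by omega) (by omega) (by omega)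

end Pool.Agent.Helper28.GT
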