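import Pool.Agent.Helper28.GT.Mesh
import Pool.Agent.Helper28.BW.Dec
import Pool.Agent.Helper28.BW.MengerE

/-!
# GT-14: decompositions from components

`sg G E`: the simple graph of the gain graph `G` on the edge set `E`. `eC G E C`: the edges of `E` with an end in `C`.
`dec_union`: induction on the nonempty finset `I` (`Finset.Nonempty.cons_induction`), `Dec.node`.
`bd_sub`: if every vertex `z ∉ B` that is an end of an edge of `Y` has all its edges of `E` in `Y`, then `bd G E Y ⊆ B`: immediate.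
`dec_comp`: let `S ⊆ C`, and `S ∪ nb C ⊆ B`, `|B| ≤ w`. If `eC G E C'` has a decomposition of width `w` (for `|bd|`) for every component `C'` of `C \ S`, and `eC G E C` is nonempty, then it has one. Proof. `eC G E C` is the disjoint union of the sets `eC G E C'`, `C'` a component (there are finitely many, the sets
`{v | Jo Γ (C \ S) u v}`, `cp_of`), and of single edges: the edges with an end in `C` but no end in `C \ S`; their ends are in `S ∪ nb C ⊆ B` (or both in `S`). (An edge with ends in two components `C'`, `C''` does not exist, by `closed`.) `dec_union`: for a subfamily with union `Y` and a vertex `z ∉ B` of an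
edge `e ∈ Y`: `e` is in some `eC G E C'` of the subfamily; if `z ∈ C'` all edges at `z` are in `eC G E C'`; otherwise the other end `z'` is in `C'`, `z` is adjacent to it, so `z ∈ C'` by `closed` if `z ∈ C \ S`, `z ∈ S` or `z ∈ nb C`, contradiction. So `bd G E Y ⊆ B` by `bd_sub`, size at most `w`. The single
edges: `bd G E {e} ⊆ B`.
-/

set_option autoImplicit false

namespace Pool.Agent.Helper28.GT

open Pool.Agent.Helper28.BW

variable {H : Type} [Group H]

/-- the simple graph of `G` on the edge set `E` -/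
def sg (G : GG H) (E : Finset ℕ) : SimpleGraph ℕ where
  Adj u v := u ≠ v ∧ ∃ e ∈ E, Jn G e u v
  symm := ⟨fun _ _ h => ⟨h.1.symm, by
    obtain ⟨e, he, hj⟩ := h.2
    exact ⟨e, he, hj.symm⟩⟩⟩
  loopless := ⟨fun _ h => h.1 rfl⟩

open Classical in
/-- the edges of `E` with an end in `C` -/
noncomputable def eC (G : GG H) (E : Finset ℕ) (C : Set ℕ) : Finset ℕ :=
  E.filter fun e => (G e).1 ∈ C ∨ (G e).2.1 ∈ C

theorem dec_union {l : Finset ℕ → ℕ} {k : ℕ} {ι : Type} [DecidableEq ι] (I : Finset ι)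
    (hI : I.Nonempty) (X : ι → Finset ℕ)
    (hd : ∀ i ∈ I, ∀ j ∈ I, i ≠ j → Disjoint (X i) (X j)) (hX : ∀ i ∈ I, Dec l k (X i))
    (hl : ∀ J ⊆ I, J.Nonempty → l (J.biUnion X) ≤ k) : Dec l k (I.biUnion X) := by
  induction I using Finset.induction_on with
  | empty => exact absurd hI Finset.not_nonempty_empty
  | insert i J hiJ ih =>
    rcases J.eq_empty_or_nonempty with rfl | hJ
    · have h1 : (insert i (∅ : Finset ι)).biUnion X = X i := by simp
      rw [h1]
      exact hX i (Finset.mem_insert_self i _)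
    · have h1 := ih hJ
        (fun a ha b hb hab => hd a (Finset.mem_insert_of_mem ha) b (Finset.mem_insert_of_mem hb) hab)
        (fun a ha => hX a (Finset.mem_insert_of_mem ha))
        (fun K hK hKn => hl K (hK.trans (Finset.subset_insert i J)) hKn)
      have h2 := hl (insert i J) subset_rfl (Finset.insert_nonempty i J)
      rw [Finset.biUnion_insert] at h2 ⊢
      refine Dec.node (X i) (J.biUnion X) ?_ (hX i (Finset.mem_insert_self i _)) h1 h2
      rw [Finset.disjoint_biUnion_right]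
      intro j hj
      exact hd i (Finset.mem_insert_self i _) j (Finset.mem_insert_of_mem hj)
        (fun h => hiJ (h ▸ hj))

omit [Group H] in
private theorem mem_vs' {G : GG H} {X : Finset ℕ} {v : ℕ} :
    v ∈ vs G X ↔ ∃ e ∈ X, v = (G e).1 ∨ v = (G e).2.1 := by
  constructor
  · rintro ⟨t, ⟨e, he, rfl⟩, h⟩
    exact ⟨e, he, h⟩
  · rintro ⟨e, he, h⟩
    exact ⟨G e, ⟨e, he, rfl⟩, h⟩

theorem bd_sub {G : GG H} {E Y : Finset ℕ} {B : Set ℕ}
    (h : ∀ z, z ∉ B → z ∈ vs G Y → ∀ e ∈ E, ((G e).1 = z ∨ (G e).2.1 = z) → e ∈ Y) :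
    bd G E Y ⊆ B := by
  rintro z ⟨hz1, hz2⟩
  by_contra hzB
  obtain ⟨e, he, hze⟩ := mem_vs'.1 hz2
  rw [Finset.mem_sdiff] at he
  exact he.2 (h z hzB hz1 e he.1 (hze.imp Eq.symm Eq.symm))

omit [Group H] in
private theorem adj_of_ends {G : GG H} {E : Finset ℕ} {e u v : ℕ} (he : e ∈ E) (hne : u ≠ v)
    (hu : u = (G e).1 ∨ u = (G e).2.1) (hv : v = (G e).1 ∨ v = (G e).2.1) :
    (sg G E).Adj u v := by
  refine ⟨hne, e, he, ?_⟩
  rcases hu with hu | hu <;> rcases hv with hv | hv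
  · exact absurd (hu.trans hv.symm) hne
  · exact Or.inl ⟨(G e).2.2, by rw [hu, hv]⟩
  · exact Or.inr ⟨(G e).2.2, by rw [hu, hv]⟩
  · exact absurd (hu.trans hv.symm) hne

omit [Group H] in
private theorem mem_eC {G : GG H} {E : Finset ℕ} {C : Set ℕ} {e : ℕ} :
    e ∈ eC G E C ↔ e ∈ E ∧ ∃ u, (u = (G e).1 ∨ u = (G e).2.1) ∧ u ∈ C := by
  classical
  unfold eC
  rw [Finset.mem_filter]
  constructor
  · rintro ⟨he, h | h⟩
    · exact ⟨he, _, Or.inl rfl, h⟩
    · exact ⟨he, _, Or.inr rfl, h⟩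
  · rintro ⟨he, u, rfl | rfl, h⟩
    · exact ⟨he, Or.inl h⟩
    · exact ⟨he, Or.inr h⟩

private theorem cp_eq {Γ : SimpleGraph ℕ} {C S C1 C2 : Set ℕ} (h1 : Cp Γ C S C1)
    (h2 : Cp Γ C S C2) {x : ℕ} (hx1 : x ∈ C1) (hx2 : x ∈ C2) : C1 = C2 := by
  have key : ∀ D1 D2 : Set ℕ, Cp Γ C S D1 → Cp Γ C S D2 → x ∈ D1 → x ∈ D2 → D1 ⊆ D2 := by
    intro D1 D2 k1 k2 y1 y2 y hy
    have h3 := k1.con.2 x y1 y hy
    induction h3 with
    | refl _ => exact y2
    | step h4 hadj hw ih => exact k2.closed _ (ih h4.right_mem) _ (k1.sub hw) hadj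
  exact (key C1 C2 h1 h2 hx1 hx2).antisymm (key C2 C1 h2 h1 hx2 hx1)

theorem dec_comp {G : GG H} {E : Finset ℕ} {w : ℕ} {C S B : Set ℕ} (hC : C.Finite)
    (hS : S ⊆ C) (hB : S ∪ nb (sg G E) C ⊆ B) (hBf : B.Finite) (hw : B.ncard ≤ w)
    (hne : (eC G E C).Nonempty)
    (hdec : ∀ C', Cp (sg G E) C S C' → Dec (fun X => (bd G E X).ncard) w (eC G E C')) :
    Dec (fun X => (bd G E X).ncard) w (eC G E C) := by
  classical
  have _hC := hC
  have _hS := hS
  obtain ⟨P, hP⟩ : ∃ P : Finset ℕ → Prop, P = fun Y => (∃ C', Cp (sg G E) C S C' ∧ Y = eC G E C') ∨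
      ∃ e ∈ eC G E C, (∀ u, (u = (G e).1 ∨ u = (G e).2.1) → u ∉ C \ S) ∧ Y = {e} := ⟨_, rfl⟩
  obtain ⟨I, hI⟩ : ∃ I : Finset (Finset ℕ), I = E.powerset.filter P := ⟨_, rfl⟩
  have hmemI : ∀ Y, Y ∈ I ↔ P Y := by
    intro Y
    rw [hI, Finset.mem_filter, Finset.mem_powerset]
    refine ⟨fun h => h.2, fun h => ⟨?_, h⟩⟩
    rw [hP] at h
    rcases h with ⟨C', -, rfl⟩ | ⟨e, he, -, rfl⟩
    · intro e he
      exact (mem_eC.1 he).1
    · intro f hf
      rw [Finset.mem_singleton] at hf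
      rw [hf]
      exact (mem_eC.1 he).1
  have hcov : I.biUnion id = eC G E C := by
    ext e
    rw [Finset.mem_biUnion]
    constructor
    · rintro ⟨Y, hY, heY⟩
      rw [hmemI, hP] at hY
      change e ∈ Y at heY
      rcases hY with ⟨C', hC', rfl⟩ | ⟨f, hf, -, rfl⟩
      · obtain ⟨he, u, hu, huC⟩ := mem_eC.1 heY
        exact mem_eC.2 ⟨he, u, hu, (hC'.sub huC).1⟩
      · rw [Finset.mem_singleton] at heY
        rw [heY]
        exact hf
    · intro he
      by_cases hex : ∃ u, (u = (G e).1 ∨ u = (G e).2.1) ∧ u ∈ C \ S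
      · obtain ⟨u, hu, huC⟩ := hex
        refine ⟨eC G E {v | Jo (sg G E) (C \ S) u v}, ?_, ?_⟩
        · rw [hmemI, hP]
          exact Or.inl ⟨_, cp_of huC, rfl⟩
        · exact mem_eC.2 ⟨(mem_eC.1 he).1, u, hu, Jo.refl huC⟩
      · refine ⟨{e}, ?_, Finset.mem_singleton_self e⟩
        rw [hmemI, hP]
        exact Or.inr ⟨e, he, fun u hu huC => hex ⟨u, hu, huC⟩, rfl⟩
  have hIn : I.Nonempty := by
    by_contra hcon
    rw [Finset.not_nonempty_iff_eq_empty] at hcon
    rw [hcon, Finset.biUnion_empty] at hcov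
    rw [← hcov] at hne
    exact Finset.not_nonempty_empty hne
  have hdisj : ∀ Y ∈ I, ∀ Z ∈ I, Y ≠ Z → Disjoint (id Y) (id Z) := by
    intro Y hY Z hZ hYZ
    rw [hmemI, hP] at hY hZ
    change Disjoint Y Z
    rw [Finset.disjoint_left]
    intro e heY heZ
    rcases hY with ⟨C1, h1, rfl⟩ | ⟨f, hf, hf2, rfl⟩
    · rcases hZ with ⟨C2, h2, rfl⟩ | ⟨g, hg, hg2, rfl⟩
      · obtain ⟨he, a, ha, haC⟩ := mem_eC.1 heY
        obtain ⟨-, b, hb, hbC⟩ := mem_eC.1 heZ
        apply hYZ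
        by_cases hab : a = b
        · subst hab
          rw [cp_eq h1 h2 haC hbC]
        · have h3 := h1.closed a haC b (h2.sub hbC) (adj_of_ends he hab ha hb)
          rw [cp_eq h1 h2 h3 hbC]
      · rw [Finset.mem_singleton] at heZ
        subst heZ
        obtain ⟨he, a, ha, haC⟩ := mem_eC.1 heY
        exact hg2 a ha (h1.sub haC)
    · rw [Finset.mem_singleton] at heY
      subst heY
      rcases hZ with ⟨C2, h2, rfl⟩ | ⟨g, hg, hg2, rfl⟩
      · obtain ⟨he, a, ha, haC⟩ := mem_eC.1 heZ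
        exact hf2 a ha (h2.sub haC)
      · rw [Finset.mem_singleton] at heZ
        exact hYZ (by rw [heZ])
  have hbd : ∀ J ⊆ I, bd G E (J.biUnion id) ⊆ B := by
    intro J hJ
    apply bd_sub
    intro z hzB hz e he hze
    obtain ⟨f, hf, hzf⟩ := mem_vs'.1 hz
    obtain ⟨Q, hQ, hfQ⟩ := Finset.mem_biUnion.1 hf
    change f ∈ Q at hfQ
    have hQI := hJ hQ
    rw [hmemI, hP] at hQI
    have hzS : z ∉ S := fun h => hzB (hB (Or.inl h))
    have hzn : z ∉ nb (sg G E) C := fun h => hzB (hB (Or.inr h))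
    rcases hQI with ⟨C', hC', rfl⟩ | ⟨g, hg, hg2, rfl⟩
    · obtain ⟨hfE, a, ha, haC⟩ := mem_eC.1 hfQ
      have hzC' : z ∈ C' := by
        by_cases haz : a = z
        · rw [← haz]
          exact haC
        · have hadj := adj_of_ends hfE haz ha hzf
          by_cases hzC : z ∈ C
          · exact hC'.closed a haC z ⟨hzC, hzS⟩ hadj
          · exact absurd (⟨hzC, a, (hC'.sub haC).1, hadj⟩ : z ∈ nb (sg G E) C) hzn
      refine Finset.mem_biUnion.2 ⟨_, hQ, ?_⟩
      exact mem_eC.2 ⟨he, z, hze.imp Eq.symm Eq.symm, hzC'⟩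
    · exfalso
      rw [Finset.mem_singleton] at hfQ
      subst hfQ
      have hzC : z ∉ C := fun h => hg2 z hzf ⟨h, hzS⟩
      obtain ⟨hfE, a, ha, haC⟩ := mem_eC.1 hg
      have haz : a ≠ z := fun h => hzC (h ▸ haC)
      exact hzn ⟨hzC, a, haC, adj_of_ends hfE haz ha hzf⟩
  have hcard : ∀ J ⊆ I, (bd G E (J.biUnion id)).ncard ≤ w := fun J hJ =>
    (Set.ncard_le_ncard (hbd J hJ) hBf).trans hw
  rw [← hcov]
  refine dec_union I hIn id hdisj ?_ (fun J hJ _ => hcard J hJ)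
  intro Y hY
  have hY' := hY
  rw [hmemI, hP] at hY'
  rcases hY' with ⟨C', hC', rfl⟩ | ⟨g, hg, hg2, rfl⟩
  · exact hdec C' hC'
  · apply Dec.leaf
    have h1 := hcard {{g}} (Finset.singleton_subset_iff.2 hY)
    rw [Finset.singleton_biUnion] at h1
    exact h1

end Pool.Agent.Helper28.GT
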