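import Mathlib

/-!
# GT-01: connected sets, grids, families of disjoint paths. Definitions and basic facts

All graphs are simple graphs on the vertex set `ℕ`. `Jo Γ A u v`: walk from `u` to `v` inside `A`. `Cn Γ A`: `A` is nonempty and connected. `Ad Γ A B`: an edge between `A` and `B`.
`GridM Γ m n B`: the sets `B i j` (`i < m`, `j < n`) are the branch sets of an `m × n` grid minor of `Γ`. `LK J a b n l x`: `n` disjoint paths from `a` to `b`, path number `i` has the vertices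
`x i 0, ..., x i (l i)`. `ed l x`: the edges of these paths. `rs Γ F`: the edges of `Γ` inside `F`. `Fg J F`: `F` is finite and contains the ends of all edges of `J`.
All facts are immediate: inductions on `Jo`; `Cn.union`: two connected sets that meet or are adjacent have connected union; `LK.take`: subfamilies (reindex by an injection).
`jo_path`: walk along a path.
-/

set_option autoImplicit false

namespace Pool.Agent.Helper28.GT

/-- `u` and `v` are joined by a walk of `Γ` inside `A` -/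
inductive Jo (Γ : SimpleGraph ℕ) (A : Set ℕ) (u : ℕ) : ℕ → Prop
  | refl : u ∈ A → Jo Γ A u u
  | step {v w : ℕ} : Jo Γ A u v → Γ.Adj v w → w ∈ A → Jo Γ A u w

/-- `A` is nonempty and connected in `Γ` -/
def Cn (Γ : SimpleGraph ℕ) (A : Set ℕ) : Prop := A.Nonempty ∧ ∀ u ∈ A, ∀ v ∈ A, Jo Γ A u v

/-- there is an edge between `A` and `B` -/
def Ad (Γ : SimpleGraph ℕ) (A B : Set ℕ) : Prop := ∃ a ∈ A, ∃ b ∈ B, Γ.Adj a b

/-- branch sets of an `m × n` grid minor -/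
structure GridM (Γ : SimpleGraph ℕ) (m n : ℕ) (B : ℕ → ℕ → Set ℕ) : Prop where
  cn : ∀ i j, i < m → j < n → Cn Γ (B i j)
  dj : ∀ i j i' j', i < m → j < n → i' < m → j' < n → (i ≠ i' ∨ j ≠ j') →
    Disjoint (B i j) (B i' j')
  hor : ∀ i j, i < m → j + 1 < n → Ad Γ (B i j) (B i (j + 1))
  ver : ∀ i j, i + 1 < m → j < n → Ad Γ (B i j) (B (i + 1) j)

/-- `n` disjoint paths from `a` to `b` in `J` -/
structure LK (J : SimpleGraph ℕ) (a b : Set ℕ) (n : ℕ) (l : Fin n → ℕ) (x : Fin n → ℕ → ℕ) :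
    Prop where
  st : ∀ i, x i 0 ∈ a
  en : ∀ i, x i (l i) ∈ b
  adj : ∀ i j, j < l i → J.Adj (x i j) (x i (j + 1))
  inj : ∀ i j i' j', j ≤ l i → j' ≤ l i' → x i j = x i' j' → i = i' ∧ j = j'

/-- the edges of a family of paths -/
def ed {n : ℕ} (l : Fin n → ℕ) (x : Fin n → ℕ → ℕ) : Set (Sym2 ℕ) :=
  {e | ∃ i j, j < l i ∧ e = s(x i j, x i (j + 1))}

/-- the edges of `Γ` inside `F` -/
def rs (Γ : SimpleGraph ℕ) (F : Set ℕ) : SimpleGraph ℕ where
  Adj u v := Γ.Adj u v ∧ u ∈ F ∧ v ∈ F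
  symm := ⟨fun _ _ h => ⟨h.1.symm, h.2.2, h.2.1⟩⟩
  loopless := ⟨fun _ h => h.1.ne rfl⟩

/-- `F` is finite and contains all ends of edges -/
structure Fg (J : SimpleGraph ℕ) (F : Set ℕ) : Prop where
  fin : F.Finite
  adj : ∀ u v, J.Adj u v → u ∈ F ∧ v ∈ F

variable {Γ Γ' J : SimpleGraph ℕ} {A B F : Set ℕ} {u v w : ℕ}

theorem Jo.left_mem (h : Jo Γ A u v) : u ∈ A := by
  induction h with
  | refl hu => exact hu
  | step _ _ _ ih => exact ih

theorem Jo.right_mem (h : Jo Γ A u v) : v ∈ A := by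
  cases h with
  | refl hu => exact hu
  | step _ _ hw => exact hw

theorem Jo.trans (h1 : Jo Γ A u v) (h2 : Jo Γ A v w) : Jo Γ A u w := by
  induction h2 with
  | refl _ => exact h1
  | step _ hadj hw ih => exact Jo.step ih hadj hw

theorem Jo.symm (h : Jo Γ A u v) : Jo Γ A v u := by
  induction h with
  | refl hu => exact Jo.refl hu
  | step h1 hadj hw ih =>
    exact (Jo.step (Jo.refl hw) hadj.symm h1.right_mem).trans ih

theorem Jo.mono (h : Jo Γ A u v) (h1 : A ⊆ B) (h2 : Γ ≤ Γ') : Jo Γ' B u v := by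
  induction h with
  | refl hu => exact Jo.refl (h1 hu)
  | step _ hadj hw ih => exact Jo.step ih (h2 hadj) (h1 hw)

theorem Jo.edge (hu : u ∈ A) (hv : v ∈ A) (h : Γ.Adj u v) : Jo Γ A u v :=
  Jo.step (Jo.refl hu) h hv

theorem Cn.singleton (u : ℕ) : Cn Γ {u} := by
  refine ⟨⟨u, rfl⟩, ?_⟩
  rintro a rfl b rfl
  exact Jo.refl rfl

theorem Cn.mono_graph (h : Cn Γ A) (h2 : Γ ≤ Γ') : Cn Γ' A :=
  ⟨h.1, fun u hu v hv => (h.2 u hu v hv).mono subset_rfl h2⟩

theorem Ad.symm (h : Ad Γ A B) : Ad Γ B A := by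
  obtain ⟨a, ha, b, hb, hab⟩ := h
  exact ⟨b, hb, a, ha, hab.symm⟩

theorem Ad.mono {A' B' : Set ℕ} (h : Ad Γ A B) (hA : A ⊆ A') (hB : B ⊆ B') (h2 : Γ ≤ Γ') :
    Ad Γ' A' B' := by
  obtain ⟨a, ha, b, hb, hab⟩ := h
  exact ⟨a, hA ha, b, hB hb, h2 hab⟩

/-- adjacent connected sets have a connected union -/
theorem Cn.union_ad (h1 : Cn Γ A) (h2 : Cn Γ B) (h : Ad Γ A B) : Cn Γ (A ∪ B) := by
  obtain ⟨a, ha, b, hb, hab⟩ := h
  have hbr : Jo Γ (A ∪ B) a b := Jo.edge (Or.inl ha) (Or.inr hb) hab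
  refine ⟨⟨a, Or.inl ha⟩, ?_⟩
  have key : ∀ u ∈ A ∪ B, Jo Γ (A ∪ B) a u := by
    rintro u (hu | hu)
    · exact (h1.2 a ha u hu).mono Set.subset_union_left le_rfl
    · exact hbr.trans ((h2.2 b hb u hu).mono Set.subset_union_right le_rfl)
  exact fun u hu v hv => (key u hu).symm.trans (key v hv)

/-- meeting connected sets have a connected union -/
theorem Cn.union_meet (h1 : Cn Γ A) (h2 : Cn Γ B) (h : (A ∩ B).Nonempty) : Cn Γ (A ∪ B) := by
  obtain ⟨a, ha, hb⟩ := h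
  refine ⟨⟨a, Or.inl ha⟩, ?_⟩
  have key : ∀ u ∈ A ∪ B, Jo Γ (A ∪ B) a u := by
    rintro u (hu | hu)
    · exact (h1.2 a ha u hu).mono Set.subset_union_left le_rfl
    · exact (h2.2 a hb u hu).mono Set.subset_union_right le_rfl
  exact fun u hu v hv => (key u hu).symm.trans (key v hv)

theorem rs_le : rs Γ F ≤ Γ := fun _ _ h => h.1

theorem rs_fg (hF : F.Finite) : Fg (rs Γ F) F := ⟨hF, fun _ _ h => h.2⟩

theorem GridM.mono {m n : ℕ} {B : ℕ → ℕ → Set ℕ} (h : GridM Γ m n B) (h2 : Γ ≤ Γ') :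
    GridM Γ' m n B :=
  ⟨fun i j hi hj => (h.cn i j hi hj).mono_graph h2, h.dj,
    fun i j hi hj => (h.hor i j hi hj).mono subset_rfl subset_rfl h2,
    fun i j hi hj => (h.ver i j hi hj).mono subset_rfl subset_rfl h2⟩

theorem LK.mono {a b : Set ℕ} {n : ℕ} {l : Fin n → ℕ} {x : Fin n → ℕ → ℕ} (h : LK J a b n l x)
    {J' : SimpleGraph ℕ} (h2 : J ≤ J') : LK J' a b n l x :=
  ⟨h.st, h.en, fun i j hj => h2 (h.adj i j hj), h.inj⟩

/-- subfamilies -/
theorem LK.take {a b : Set ℕ} {n m : ℕ} {l : Fin n → ℕ} {x : Fin n → ℕ → ℕ} (h : LK J a b n l x)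
    (f : Fin m → Fin n) (hf : Function.Injective f) :
    LK J a b m (fun i => l (f i)) (fun i => x (f i)) :=
  ⟨fun i => h.st (f i), fun i => h.en (f i), fun i j hj => h.adj (f i) j hj,
    fun i j i' j' hj hj' he => by
      obtain ⟨h1, h2⟩ := h.inj (f i) j (f i') j' hj hj' he
      exact ⟨hf h1, h2⟩⟩

/-- walking along a path -/
theorem jo_path {y : ℕ → ℕ} {s t : ℕ} (hst : s ≤ t) (hA : ∀ j, s ≤ j → j ≤ t → y j ∈ A)
    (hadj : ∀ j, s ≤ j → j < t → Γ.Adj (y j) (y (j + 1))) : Jo Γ A (y s) (y t) := by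
  induction t, hst using Nat.le_induction with
  | base => exact Jo.refl (hA s le_rfl le_rfl)
  | succ t hst ih =>
    exact Jo.step (ih (fun j h1 h2 => hA j h1 (by omega)) (fun j h1 h2 => hadj j h1 (by omega)))
      (hadj t hst (by omega)) (hA (t + 1) (by omega) le_rfl)

theorem ed_finite {n : ℕ} (l : Fin n → ℕ) (x : Fin n → ℕ → ℕ) : (ed l x).Finite := by
  have : ed l x ⊆ ⋃ i : Fin n, (fun j => s(x i j, x i (j + 1))) '' Set.Iio (l i) := by
    rintro e ⟨i, j, hj, rfl⟩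
    exact Set.mem_iUnion.2 ⟨i, j, hj, rfl⟩
  exact (Set.finite_iUnion fun i => (Set.finite_Iio (l i)).image _).subset this

/-- edges of a path family are edges of the graph -/
theorem ed_adj {a b : Set ℕ} {n : ℕ} {l : Fin n → ℕ} {x : Fin n → ℕ → ℕ} (h : LK J a b n l x)
    (huv : s(u, v) ∈ ed l x) : J.Adj u v := by
  obtain ⟨i, j, hj, he⟩ := huv
  rw [Sym2.eq_iff] at he
  rcases he with ⟨rfl, rfl⟩ | ⟨rfl, rfl⟩
  · exact h.adj i j hj
  · exact (h.adj i j hj).symm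

/-- an edge of the family at position `j` of path `i` -/
theorem ed_of {a b : Set ℕ} {n : ℕ} {l : Fin n → ℕ} {x : Fin n → ℕ → ℕ} (h : LK J a b n l x)
    {i : Fin n} {j : ℕ} (hj : j ≤ l i) (huv : s(x i j, v) ∈ ed l x) :
    (j < l i ∧ v = x i (j + 1)) ∨ (1 ≤ j ∧ v = x i (j - 1)) := by
  obtain ⟨i', j', hj', he⟩ := huv
  rw [Sym2.eq_iff] at he
  rcases he with ⟨h1, h2⟩ | ⟨h1, h2⟩
  · obtain ⟨rfl, rfl⟩ := h.inj i j i' j' hj hj'.le h1
    exact Or.inl ⟨hj', h2⟩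
  · obtain ⟨rfl, rfl⟩ := h.inj i j i' (j' + 1) hj hj' h1
    exact Or.inr ⟨by omega, by simpa using h2⟩

end Pool.Agent.Helper28.GT
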