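import Pool.Agent.Helper28.GT.TreeGrid
import Pool.Agent.Helper28.BW.Frozen

/-!
# GT-21: contracting the trees of a balanced grid

`gridPairs n`: the edges of the `n × n` grid as pairs of vertices (second vertex below or right of the first). Given a balanced grid (`TG G E n n ..` and `Pt` for the vertical edges), let `C0` be the union of all `F i j`, and `R0` the set of all edges `eh i j`, `ev i j`; `tl (eh i j) = (i, j)`, `hd (eh i j) = (i, j + 1)`, `tl (ev i j) = (i, j)`,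
`hd (ev i j) = (i + 1, j)` (an edge of `R0` determines the unordered pair of branch sets containing its ends, so these are well defined and `e ↦ (tl e, hd e)` is a bijection onto `gridPairs n`; an edge of `C0` has both ends in one branch set, so `C0` and `R0` are disjoint).
Let `K e = (Nat.pair (tl e), Nat.pair (hd e), 1)` (curried), `V0` the union of the `B i j`, `π w = Nat.pair i j` for `w ∈ B i j`. `|V0| = |C0| + n ^ 2` (trees are disjoint). For `I ⊆ R0`: all edges of `I ∪ C0` have their ends in `V0` and satisfy `Pt G φ`, so a walk from `u` to `v` has gain `(φ u)⁻¹ * φ v` and no vertex is unbalanced; the same for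
`K` (gain `1`). For `u, v ∈ V0`: `Con (img G (I ∪ C0)) u v ↔ Con (img K I) (π u) (π v)` (tree edges become trivial; conversely lift a walk with `Fcon`). So the numbers `bal (img G (I ∪ C0)) V0` and `bal (img K I) (π '' V0)` are equal, and `rho_add_bal` gives `rk G (I ∪ C0) = rk K I + |C0|`. For `I = ∅`: `C0` is independent. So `I ∪ C0` is independent in `G`
iff `rk K I = |I|`, iff (`ind_iff_rk`, all sets are balanced with potential `1`) every nonempty `X ⊆ I` has `|X| + 1 ≤ |V(X)|`.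
-/

set_option autoImplicit false
set_option linter.unusedSectionVars false

namespace Pool.Agent.Helper28.GT

open Pool.Agent.Helper28.BW

variable {H : Type} [Group H]

/-- the edges of the `n × n` grid, as ordered pairs of vertices -/
def gridPairs (n : ℕ) : Set ((ℕ × ℕ) × (ℕ × ℕ)) :=
  {p | p.1.1 < n ∧ p.1.2 < n ∧ p.2.1 < n ∧ p.2.2 < n ∧
    (p.2 = (p.1.1 + 1, p.1.2) ∨ p.2 = (p.1.1, p.1.2 + 1))}

/-- the vertices of a set of edges -/
private def Vx (G : GG H) (X : Finset ℕ) : Finset ℕ :=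
  X.image (fun e => (G e).1) ∪ X.image (fun e => (G e).2.1)

private theorem mem_Vx1 {G : GG H} {X : Finset ℕ} {e : ℕ} (he : e ∈ X) : (G e).1 ∈ Vx G X :=
  Finset.mem_union_left _ (Finset.mem_image_of_mem _ he)

private theorem mem_Vx2 {G : GG H} {X : Finset ℕ} {e : ℕ} (he : e ∈ X) : (G e).2.1 ∈ Vx G X :=
  Finset.mem_union_right _ (Finset.mem_image_of_mem _ he)

private theorem Vx_ind {G : GG H} {X : Finset ℕ} {p : ℕ → Prop}
    (h : ∀ e ∈ X, p (G e).1 ∧ p (G e).2.1) : ∀ w ∈ Vx G X, p w := by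
  intro w hw
  rcases Finset.mem_union.1 hw with hw | hw
  · obtain ⟨e, he, rfl⟩ := Finset.mem_image.1 hw
    exact (h e he).1
  · obtain ⟨e, he, rfl⟩ := Finset.mem_image.1 hw
    exact (h e he).2

private theorem vs_card (G : GG H) (X : Finset ℕ) :
    ((Pool.Agent.Helper25.GG.GGraph.vs (toG G) (X : Set ℕ))).ncard = (Vx G X).card := by
  rw [← Set.ncard_coe_finset]
  congr 1
  rw [Vx, Finset.coe_union, Finset.coe_image, Finset.coe_image]
  rfl

/-- independence of sets of edges with a potential -/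
private theorem indep_iff {G : GG H} {φ : ℕ → H} {X : Finset ℕ} (hX : ∀ e ∈ X, Pt G φ e) :
    rk G X = X.card ↔ ∀ Y ⊆ X, Y.Nonempty → Y.card + 1 ≤ (Vx G Y).card := by
  have h0 := ind_iff_rk (toG G) X
  rw [ofG_toG] at h0
  rw [← h0]
  constructor
  · intro h Y hY hne
    have h1 := h (Y : Set ℕ) (Finset.coe_subset.2 hY) (Finset.coe_nonempty.2 hne)
    rw [Set.ncard_coe_finset, vs_card] at h1
    exact h1.2 ⟨φ, fun e he => hX e (hY he)⟩
  · intro h Y hY hne
    obtain ⟨Y', rfl⟩ : ∃ Y' : Finset ℕ, (Y' : Set ℕ) = Y :=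
      ⟨(X.finite_toSet.subset hY).toFinset, (X.finite_toSet.subset hY).coe_toFinset⟩
    have h1 := h Y' (Finset.coe_subset.1 hY) (Finset.coe_nonempty.1 hne)
    rw [Set.ncard_coe_finset, vs_card]
    exact ⟨by omega, fun _ => h1⟩

/-- a connected set with one edge less than vertices is independent -/
private theorem tree_rk {G : GG H} {F : Finset ℕ} {B : Set ℕ} (hfin : B.Finite) (hne : B.Nonempty)
    (hF : ∀ e ∈ F, (G e).1 ∈ B ∧ (G e).2.1 ∈ B) (hc : F.card + 1 = B.ncard)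
    (hcon : ∀ u ∈ B, ∀ v ∈ B, Con (img G F) u v) : rk G F = F.card := by
  apply le_antisymm ((rk_rkFn G).le_card F)
  have hvx : vx (img G F) ⊆ B := by
    rintro u ⟨t, ⟨e, he, rfl⟩, h | h⟩
    · rw [h]
      exact (hF e he).1
    · rw [h]
      exact (hF e he).2
  have h1 := rho_add_bal hfin hvx
  have h2 : bal (img G F) B ≤ 1 := by
    obtain ⟨b, hb⟩ := hne
    have h3 : balC (img G F) B ⊆ {cls (img G F) b} := by
      rintro c ⟨u, hu, -, rfl⟩
      exact cls_eq_iff.2 (hcon u hu b hb)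
    calc bal (img G F) B ≤ ({cls (img G F) b} : Set (Set ℕ)).ncard :=
          Set.ncard_le_ncard h3 (Set.finite_singleton _)
      _ = 1 := Set.ncard_singleton _
  change F.card ≤ rho (img G F)
  omega

section pos

/-- `w` lies in the branch set `p` -/
private def Loc (n : ℕ) (B : ℕ → ℕ → Set ℕ) (w : ℕ) (p : ℕ × ℕ) : Prop :=
  p.1 < n ∧ p.2 < n ∧ w ∈ B p.1 p.2

open Classical in
/-- the branch set of `w` -/
private noncomputable def pos (n : ℕ) (B : ℕ → ℕ → Set ℕ) (w : ℕ) : ℕ × ℕ :=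
  if h : ∃ p, Loc n B w p then h.choose else (0, 0)

private theorem pos_eq {n : ℕ} {B : ℕ → ℕ → Set ℕ}
    (dj : ∀ i j i' j', i < n → j < n → i' < n → j' < n → (i ≠ i' ∨ j ≠ j') →
      Disjoint (B i j) (B i' j')) {w : ℕ} {p : ℕ × ℕ} (h : Loc n B w p) : pos n B w = p := by
  have hex : ∃ p, Loc n B w p := ⟨p, h⟩
  unfold pos
  rw [dif_pos hex]
  have h1 := hex.choose_spec
  by_contra hne
  have h2 : hex.choose.1 ≠ p.1 ∨ hex.choose.2 ≠ p.2 := by
    by_contra h3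
    push Not at h3
    exact hne (Prod.ext h3.1 h3.2)
  exact Set.disjoint_left.1 (dj _ _ _ _ h1.1 h1.2.1 h.1 h.2.1 h2) h1.2.2 h.2.2

/-- the lower end of an edge -/
private noncomputable def tlf (G : GG H) (n : ℕ) (B : ℕ → ℕ → Set ℕ) (e : ℕ) : ℕ × ℕ :=
  if (pos n B (G e).1).1 + (pos n B (G e).1).2 ≤ (pos n B (G e).2.1).1 + (pos n B (G e).2.1).2 then
    pos n B (G e).1 else pos n B (G e).2.1

/-- the upper end of an edge -/
private noncomputable def hdf (G : GG H) (n : ℕ) (B : ℕ → ℕ → Set ℕ) (e : ℕ) : ℕ × ℕ :=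
  if (pos n B (G e).1).1 + (pos n B (G e).1).2 ≤ (pos n B (G e).2.1).1 + (pos n B (G e).2.1).2 then
    pos n B (G e).2.1 else pos n B (G e).1

private theorem tlf_hdf (G : GG H) (n : ℕ) (B : ℕ → ℕ → Set ℕ) (e : ℕ) :
    (tlf G n B e = pos n B (G e).1 ∧ hdf G n B e = pos n B (G e).2.1) ∨
    (tlf G n B e = pos n B (G e).2.1 ∧ hdf G n B e = pos n B (G e).1) := by
  unfold tlf hdf
  split_ifs
  · exact Or.inl ⟨rfl, rfl⟩
  · exact Or.inr ⟨rfl, rfl⟩

private theorem tlhd {G : GG H} {n : ℕ} {B : ℕ → ℕ → Set ℕ}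
    (dj : ∀ i j i' j', i < n → j < n → i' < n → j' < n → (i ≠ i' ∨ j ≠ j') →
      Disjoint (B i j) (B i' j')) {e : ℕ} {p q : ℕ × ℕ} (hlt : p.1 + p.2 < q.1 + q.2)
    (h : (Loc n B (G e).1 p ∧ Loc n B (G e).2.1 q) ∨ (Loc n B (G e).1 q ∧ Loc n B (G e).2.1 p)) :
    tlf G n B e = p ∧ hdf G n B e = q := by
  unfold tlf hdf
  rcases h with ⟨h1, h2⟩ | ⟨h1, h2⟩
  · rw [pos_eq dj h1, pos_eq dj h2, if_pos hlt.le, if_pos hlt.le]
    exact ⟨rfl, rfl⟩
  · rw [pos_eq dj h1, pos_eq dj h2, if_neg (by omega), if_neg (by omega)]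
    exact ⟨rfl, rfl⟩

end pos

theorem forest_grid {G : GG H} {E : Finset ℕ} {n : ℕ} {B : ℕ → ℕ → Set ℕ}
    {F : ℕ → ℕ → Finset ℕ} {eh ev : ℕ → ℕ → ℕ} {φ : ℕ → H} (h : TG G E n n B F eh ev φ)
    (hv : ∀ i j, i + 1 < n → j < n → Pt G φ (ev i j)) :
    ∃ (C0 R0 : Finset ℕ) (tl hd : ℕ → ℕ × ℕ), C0 ⊆ E ∧ R0 ⊆ E ∧ Disjoint C0 R0 ∧
      Set.BijOn (fun e => (tl e, hd e)) (R0 : Set ℕ) (gridPairs n) ∧ rk G C0 = C0.card ∧
      ∀ I ⊆ R0, (rk G (I ∪ C0) = (I ∪ C0).card ↔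
        ∀ X ⊆ I, X.Nonempty → X.card + 1 ≤ (X.image tl ∪ X.image hd).card) := by
  classical
  have hdj := h.dj
  -- the index set
  set P : Finset (ℕ × ℕ) := Finset.range n ×ˢ Finset.range n with hP
  have hPm : ∀ p : ℕ × ℕ, p ∈ P ↔ p.1 < n ∧ p.2 < n := by
    intro p
    rw [hP, Finset.mem_product, Finset.mem_range, Finset.mem_range]
  set PH : Finset (ℕ × ℕ) := P.filter fun p => p.2 + 1 < n with hPH
  set PV : Finset (ℕ × ℕ) := P.filter fun p => p.1 + 1 < n with hPV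
  have hPHm : ∀ p : ℕ × ℕ, p ∈ PH ↔ p.1 < n ∧ p.2 + 1 < n := by
    intro p
    rw [hPH, Finset.mem_filter, hPm]
    omega
  have hPVm : ∀ p : ℕ × ℕ, p ∈ PV ↔ p.1 + 1 < n ∧ p.2 < n := by
    intro p
    rw [hPV, Finset.mem_filter, hPm]
    omega
  set C0 : Finset ℕ := P.biUnion fun p => F p.1 p.2 with hC0
  set R0 : Finset ℕ := PH.image (fun p => eh p.1 p.2) ∪ PV.image (fun p => ev p.1 p.2) with hR0
  set tl : ℕ → ℕ × ℕ := tlf G n B with htl
  set hd : ℕ → ℕ × ℕ := hdf G n B with hhd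
  -- edges
  have hlocF : ∀ p ∈ P, ∀ e ∈ F p.1 p.2, Loc n B (G e).1 p ∧ Loc n B (G e).2.1 p := by
    intro p hp e he
    obtain ⟨h1, h2⟩ := (hPm p).1 hp
    obtain ⟨h3, h4⟩ := h.Fe p.1 p.2 h1 h2 e he
    exact ⟨⟨h1, h2, h3⟩, ⟨h1, h2, h4⟩⟩
  have hH : ∀ p ∈ PH, tl (eh p.1 p.2) = p ∧ hd (eh p.1 p.2) = (p.1, p.2 + 1) ∧
      ((Loc n B (G (eh p.1 p.2)).1 p ∧ Loc n B (G (eh p.1 p.2)).2.1 (p.1, p.2 + 1)) ∨
        (Loc n B (G (eh p.1 p.2)).1 (p.1, p.2 + 1) ∧ Loc n B (G (eh p.1 p.2)).2.1 p)) := by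
    intro p hp
    obtain ⟨h1, h2⟩ := (hPHm p).1 hp
    have h3 := (h.hE p.1 p.2 h1 h2).2.1
    have h4 : (Loc n B (G (eh p.1 p.2)).1 p ∧ Loc n B (G (eh p.1 p.2)).2.1 (p.1, p.2 + 1)) ∨
        (Loc n B (G (eh p.1 p.2)).1 (p.1, p.2 + 1) ∧ Loc n B (G (eh p.1 p.2)).2.1 p) := by
      rcases h3 with ⟨h5, h6⟩ | ⟨h5, h6⟩
      · exact Or.inl ⟨⟨h1, by omega, h5⟩, ⟨h1, h2, h6⟩⟩
      · exact Or.inr ⟨⟨h1, h2, h5⟩, ⟨h1, by omega, h6⟩⟩
    obtain ⟨h7, h8⟩ := tlhd hdj (p := p) (q := (p.1, p.2 + 1)) (by simp only; omega) h4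
    exact ⟨h7, h8, h4⟩
  have hV : ∀ p ∈ PV, tl (ev p.1 p.2) = p ∧ hd (ev p.1 p.2) = (p.1 + 1, p.2) ∧
      ((Loc n B (G (ev p.1 p.2)).1 p ∧ Loc n B (G (ev p.1 p.2)).2.1 (p.1 + 1, p.2)) ∨
        (Loc n B (G (ev p.1 p.2)).1 (p.1 + 1, p.2) ∧ Loc n B (G (ev p.1 p.2)).2.1 p)) := by
    intro p hp
    obtain ⟨h1, h2⟩ := (hPVm p).1 hp
    have h3 := (h.vE p.1 p.2 h1 h2).2
    have h4 : (Loc n B (G (ev p.1 p.2)).1 p ∧ Loc n B (G (ev p.1 p.2)).2.1 (p.1 + 1, p.2)) ∨
        (Loc n B (G (ev p.1 p.2)).1 (p.1 + 1, p.2) ∧ Loc n B (G (ev p.1 p.2)).2.1 p) := by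
      rcases h3 with ⟨h5, h6⟩ | ⟨h5, h6⟩
      · exact Or.inl ⟨⟨by omega, h2, h5⟩, ⟨h1, h2, h6⟩⟩
      · exact Or.inr ⟨⟨h1, h2, h5⟩, ⟨by omega, h2, h6⟩⟩
    obtain ⟨h7, h8⟩ := tlhd hdj (p := p) (q := (p.1 + 1, p.2)) (by simp only; omega) h4
    exact ⟨h7, h8, h4⟩
  -- all facts about the edges of `R0`
  have hR0m : ∀ e ∈ R0, (∃ p ∈ PH, e = eh p.1 p.2) ∨ ∃ p ∈ PV, e = ev p.1 p.2 := by
    intro e he
    rcases Finset.mem_union.1 he with he | he
    · obtain ⟨p, hp, rfl⟩ := Finset.mem_image.1 he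
      exact Or.inl ⟨p, hp, rfl⟩
    · obtain ⟨p, hp, rfl⟩ := Finset.mem_image.1 he
      exact Or.inr ⟨p, hp, rfl⟩
  have hRloc : ∀ e ∈ R0, ∃ p q : ℕ × ℕ, Loc n B (G e).1 p ∧ Loc n B (G e).2.1 q ∧ p ≠ q := by
    intro e he
    rcases hR0m e he with ⟨p, hp, rfl⟩ | ⟨p, hp, rfl⟩
    · rcases (hH p hp).2.2 with ⟨h1, h2⟩ | ⟨h1, h2⟩
      · exact ⟨_, _, h1, h2, fun h3 => by have := congrArg Prod.snd h3; simp only at this; omega⟩
      · exact ⟨_, _, h1, h2, fun h3 => by have := congrArg Prod.snd h3; simp only at this; omega⟩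
    · rcases (hV p hp).2.2 with ⟨h1, h2⟩ | ⟨h1, h2⟩
      · exact ⟨_, _, h1, h2, fun h3 => by have := congrArg Prod.fst h3; simp only at this; omega⟩
      · exact ⟨_, _, h1, h2, fun h3 => by have := congrArg Prod.fst h3; simp only at this; omega⟩
  have hCloc : ∀ e ∈ C0, ∃ p ∈ P, e ∈ F p.1 p.2 ∧ Loc n B (G e).1 p ∧ Loc n B (G e).2.1 p := by
    intro e he
    obtain ⟨p, hp, he'⟩ := Finset.mem_biUnion.1 he
    exact ⟨p, hp, he', hlocF p hp e he'⟩
  have hdisj : Disjoint C0 R0 := by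
    rw [Finset.disjoint_left]
    intro e he he'
    obtain ⟨p, -, -, h1, h2⟩ := hCloc e he
    obtain ⟨p', q', h3, h4, hne⟩ := hRloc e he'
    apply hne
    rw [← pos_eq hdj h3, ← pos_eq hdj h4, pos_eq hdj h1, pos_eq hdj h2]
  have hCPt : ∀ e ∈ C0, Pt G φ e := by
    intro e he
    obtain ⟨p, hp, h1, -⟩ := hCloc e he
    obtain ⟨h2, h3⟩ := (hPm p).1 hp
    exact h.Fpot p.1 p.2 h2 h3 e h1
  have hRPt : ∀ e ∈ R0, Pt G φ e := by
    intro e he
    rcases hR0m e he with ⟨p, hp, rfl⟩ | ⟨p, hp, rfl⟩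
    · obtain ⟨h1, h2⟩ := (hPHm p).1 hp
      exact (h.hE p.1 p.2 h1 h2).2.2
    · obtain ⟨h1, h2⟩ := (hPVm p).1 hp
      exact hv p.1 p.2 h1 h2
  -- trees
  have htree : ∀ p ∈ P, ∀ Z ⊆ F p.1 p.2, Z.Nonempty → Z.card + 1 ≤ (Vx G Z).card := by
    intro p hp
    obtain ⟨h1, h2⟩ := (hPm p).1 hp
    refine (indep_iff (φ := φ) (h.Fpot p.1 p.2 h1 h2)).1 ?_
    exact tree_rk (h.fin _ _ h1 h2) (h.ne _ _ h1 h2) (h.Fe _ _ h1 h2) (h.Fcard _ _ h1 h2) (h.Fcon _ _ h1 h2)
  -- first direction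
  have hback : ∀ I ⊆ R0, (∀ X ⊆ I, X.Nonempty → X.card + 1 ≤ (X.image tl ∪ X.image hd).card) →
      ∀ Y ⊆ I ∪ C0, Y.Nonempty → Y.card + 1 ≤ (Vx G Y).card := by
    intro I hI hX Y hY hYne
    set S : Finset (ℕ × ℕ) := (Vx G Y).image (pos n B) with hS
    set Y1 := Y.filter fun e => e ∈ I with hY1
    set Y2 := Y.filter fun e => e ∉ I with hY2
    have hcard : Y.card = Y1.card + Y2.card := (Finset.card_filter_add_card_filter_not _).symm
    have hY2C : ∀ e ∈ Y2, e ∈ C0 := by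
      intro e he
      obtain ⟨he1, he2⟩ := Finset.mem_filter.1 he
      exact (Finset.mem_union.1 (hY he1)).resolve_left he2
    have hsum1 : (Vx G Y).card = ∑ p ∈ S, ((Vx G Y).filter fun w => pos n B w = p).card :=
      Finset.card_eq_sum_card_fiberwise fun w hw => Finset.mem_image_of_mem _ hw
    have hsum2 : Y2.card = ∑ p ∈ S, (Y2.filter fun e => pos n B (G e).1 = p).card :=
      Finset.card_eq_sum_card_fiberwise fun e he =>
        Finset.mem_image_of_mem _ (mem_Vx1 (Finset.mem_filter.1 he).1)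
    have hpt : ∀ p ∈ S, (Y2.filter fun e => pos n B (G e).1 = p).card + 1 ≤
        ((Vx G Y).filter fun w => pos n B w = p).card := by
      intro p hp
      set Z := Y2.filter fun e => pos n B (G e).1 = p with hZ
      rcases Z.eq_empty_or_nonempty with hZe | hZne
      · rw [hZe, Finset.card_empty, zero_add, Nat.succ_le_iff, Finset.card_pos]
        obtain ⟨w, hw, rfl⟩ := Finset.mem_image.1 hp
        exact ⟨w, Finset.mem_filter.2 ⟨hw, rfl⟩⟩
      · have hZF : ∀ e ∈ Z, p ∈ P ∧ e ∈ F p.1 p.2 ∧ pos n B (G e).2.1 = p ∧ e ∈ Y := by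
          intro e he
          obtain ⟨he1, he2⟩ := Finset.mem_filter.1 he
          obtain ⟨q, hq, h1, h2, h3⟩ := hCloc e (hY2C e he1)
          have h4 : q = p := by rw [← he2, pos_eq hdj h2]
          subst h4
          exact ⟨hq, h1, pos_eq hdj h3, (Finset.mem_filter.1 he1).1⟩
        obtain ⟨e0, he0⟩ := hZne
        have hpP := (hZF e0 he0).1
        refine (htree p hpP Z (fun e he => (hZF e he).2.1) ⟨e0, he0⟩).trans (Finset.card_le_card ?_)
        intro w hw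
        refine Vx_ind (p := fun w => w ∈ (Vx G Y).filter fun w => pos n B w = p) ?_ w hw
        intro e he
        obtain ⟨-, -, h1, h2⟩ := hZF e he
        exact ⟨Finset.mem_filter.2 ⟨mem_Vx1 h2, (Finset.mem_filter.1 he).2⟩,
          Finset.mem_filter.2 ⟨mem_Vx2 h2, h1⟩⟩
    have hsum3 : Y2.card + S.card ≤ (Vx G Y).card := by
      rw [hsum1, hsum2, Finset.card_eq_sum_ones, ← Finset.sum_add_distrib]
      exact Finset.sum_le_sum hpt
    rcases Y1.eq_empty_or_nonempty with hY1e | hY1ne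
    · have hSne : 0 < S.card := by
        rw [Finset.card_pos]
        obtain ⟨e, he⟩ := hYne
        exact ⟨_, Finset.mem_image_of_mem _ (mem_Vx1 he)⟩
      rw [hY1e, Finset.card_empty] at hcard
      omega
    · have h1 := hX Y1 (fun e he => (Finset.mem_filter.1 he).2) hY1ne
      have h2 : (Y1.image tl ∪ Y1.image hd).card ≤ S.card := by
        apply Finset.card_le_card
        intro p hp
        have key : ∀ e ∈ Y1, pos n B (G e).1 ∈ S ∧ pos n B (G e).2.1 ∈ S := fun e he =>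
          ⟨Finset.mem_image_of_mem _ (mem_Vx1 (Finset.mem_filter.1 he).1),
            Finset.mem_image_of_mem _ (mem_Vx2 (Finset.mem_filter.1 he).1)⟩
        rcases Finset.mem_union.1 hp with hp | hp
        · obtain ⟨e, he, rfl⟩ := Finset.mem_image.1 hp
          rcases tlf_hdf G n B e with ⟨h3, -⟩ | ⟨h3, -⟩
          · rw [htl, h3]
            exact (key e he).1
          · rw [htl, h3]
            exact (key e he).2
        · obtain ⟨e, he, rfl⟩ := Finset.mem_image.1 hp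
          rcases tlf_hdf G n B e with ⟨-, h3⟩ | ⟨-, h3⟩
          · rw [hhd, h3]
            exact (key e he).2
          · rw [hhd, h3]
            exact (key e he).1
      omega
  -- second direction
  have hforth : ∀ I ⊆ R0, (∀ Y ⊆ I ∪ C0, Y.Nonempty → Y.card + 1 ≤ (Vx G Y).card) →
      ∀ X ⊆ I, X.Nonempty → X.card + 1 ≤ (X.image tl ∪ X.image hd).card := by
    intro I hI hY Z hZ hZne
    set S := Z.image tl ∪ Z.image hd with hS
    have hends : ∀ e ∈ Z, (pos n B (G e).1 ∈ S ∧ Loc n B (G e).1 (pos n B (G e).1)) ∧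
        (pos n B (G e).2.1 ∈ S ∧ Loc n B (G e).2.1 (pos n B (G e).2.1)) := by
      intro e he
      obtain ⟨p, q, h1, h2, -⟩ := hRloc e (hI (hZ he))
      have h3 : tl e ∈ S := Finset.mem_union_left _ (Finset.mem_image_of_mem _ he)
      have h4 : hd e ∈ S := Finset.mem_union_right _ (Finset.mem_image_of_mem _ he)
      refine ⟨⟨?_, by rw [pos_eq hdj h1]; exact h1⟩, ⟨?_, by rw [pos_eq hdj h2]; exact h2⟩⟩
      · rcases tlf_hdf G n B e with ⟨h5, h6⟩ | ⟨h5, h6⟩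
        · rw [← h5]
          exact h3
        · rw [← h6]
          exact h4
      · rcases tlf_hdf G n B e with ⟨h5, h6⟩ | ⟨h5, h6⟩
        · rw [← h6]
          exact h4
        · rw [← h5]
          exact h3
    have hSP : ∀ p ∈ S, p ∈ P := by
      intro p hp
      have key : ∀ e ∈ Z, tl e ∈ P ∧ hd e ∈ P := by
        intro e he
        obtain ⟨⟨-, h1⟩, ⟨-, h2⟩⟩ := hends e he
        rcases tlf_hdf G n B e with ⟨h5, h6⟩ | ⟨h5, h6⟩
        · rw [htl, hhd, h5, h6]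
          exact ⟨(hPm _).2 ⟨h1.1, h1.2.1⟩, (hPm _).2 ⟨h2.1, h2.2.1⟩⟩
        · rw [htl, hhd, h5, h6]
          exact ⟨(hPm _).2 ⟨h2.1, h2.2.1⟩, (hPm _).2 ⟨h1.1, h1.2.1⟩⟩
      rcases Finset.mem_union.1 hp with hp | hp
      · obtain ⟨e, he, rfl⟩ := Finset.mem_image.1 hp
        exact (key e he).1
      · obtain ⟨e, he, rfl⟩ := Finset.mem_image.1 hp
        exact (key e he).2
    set T : Finset ℕ := S.biUnion fun p => F p.1 p.2 with hT
    have hTC : T ⊆ C0 := Finset.biUnion_subset_biUnion_of_subset_left _ hSP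
    have hZT : Disjoint Z T := by
      rw [Finset.disjoint_left]
      intro e he he'
      exact Finset.disjoint_left.1 hdisj (hTC he') (hI (hZ he))
    have hTcard : T.card = ∑ p ∈ S, (F p.1 p.2).card := by
      apply Finset.card_biUnion
      intro p hp q hq hpq
      change Disjoint (F p.1 p.2) (F q.1 q.2)
      rw [Finset.disjoint_left]
      intro e he he'
      apply hpq
      rw [← pos_eq hdj (hlocF p (hSP p hp) e he).1, ← pos_eq hdj (hlocF q (hSP q hq) e he').1]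
    let Bf : ℕ × ℕ → Finset ℕ := fun p =>
      if hp : p.1 < n ∧ p.2 < n then (h.fin p.1 p.2 hp.1 hp.2).toFinset else ∅
    have hBf : ∀ p ∈ P, ∀ w, w ∈ Bf p ↔ w ∈ B p.1 p.2 := by
      intro p hp w
      simp only [Bf, dif_pos ((hPm p).1 hp), Set.Finite.mem_toFinset]
    have hBfc : ∀ p ∈ P, (Bf p).card = (F p.1 p.2).card + 1 := by
      intro p hp
      have hp' := (hPm p).1 hp
      rw [h.Fcard p.1 p.2 hp'.1 hp'.2, ← Set.ncard_coe_finset]
      congr 1
      ext w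
      exact hBf p hp w
    have hsub : Vx G (Z ∪ T) ⊆ S.biUnion Bf := by
      intro w hw
      refine Vx_ind (p := fun w => w ∈ S.biUnion Bf) ?_ w hw
      intro e he
      rcases Finset.mem_union.1 he with he | he
      · obtain ⟨⟨h1, h2⟩, ⟨h3, h4⟩⟩ := hends e he
        exact ⟨Finset.mem_biUnion.2 ⟨_, h1, (hBf _ (hSP _ h1) _).2 h2.2.2⟩,
          Finset.mem_biUnion.2 ⟨_, h3, (hBf _ (hSP _ h3) _).2 h4.2.2⟩⟩
      · obtain ⟨p, hp, he'⟩ := Finset.mem_biUnion.1 he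
        obtain ⟨h1, h2⟩ := hlocF p (hSP p hp) e he'
        exact ⟨Finset.mem_biUnion.2 ⟨p, hp, (hBf _ (hSP _ hp) _).2 h1.2.2⟩,
          Finset.mem_biUnion.2 ⟨p, hp, (hBf _ (hSP _ hp) _).2 h2.2.2⟩⟩
    have h1 := hY (Z ∪ T) (Finset.union_subset_union hZ hTC) (hZne.mono Finset.subset_union_left)
    have h2 := Finset.card_le_card hsub
    have h3 : (S.biUnion Bf).card ≤ ∑ p ∈ S, (Bf p).card := Finset.card_biUnion_le
    have h4 : ∑ p ∈ S, (Bf p).card = ∑ p ∈ S, (F p.1 p.2).card + S.card := by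
      rw [Finset.card_eq_sum_ones S, ← Finset.sum_add_distrib]
      exact Finset.sum_congr rfl fun p hp => hBfc p (hSP p hp)
    rw [Finset.card_union_of_disjoint hZT, hTcard] at h1
    omega
  have hIPt : ∀ I ⊆ R0, ∀ e ∈ I ∪ C0, Pt G φ e := by
    intro I hI e he
    rcases Finset.mem_union.1 he with he | he
    · exact hRPt e (hI he)
    · exact hCPt e he
  refine ⟨C0, R0, tl, hd, ?_, ?_, hdisj, ?_, ?_, ?_⟩
  · intro e he
    obtain ⟨p, hp, h1, -⟩ := hCloc e he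
    obtain ⟨h2, h3⟩ := (hPm p).1 hp
    exact h.FE p.1 p.2 h2 h3 h1
  · intro e he
    rcases hR0m e he with ⟨p, hp, rfl⟩ | ⟨p, hp, rfl⟩
    · obtain ⟨h1, h2⟩ := (hPHm p).1 hp
      exact (h.hE p.1 p.2 h1 h2).1
    · obtain ⟨h1, h2⟩ := (hPVm p).1 hp
      exact (h.vE p.1 p.2 h1 h2).1
  · refine ⟨?_, ?_, ?_⟩
    · intro e he
      rcases hR0m e he with ⟨p, hp, rfl⟩ | ⟨p, hp, rfl⟩
      · obtain ⟨h1, h2⟩ := (hPHm p).1 hp
        simp only [(hH p hp).1, (hH p hp).2.1]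
        exact ⟨h1, by simp only; omega, h1, h2, Or.inr rfl⟩
      · obtain ⟨h1, h2⟩ := (hPVm p).1 hp
        simp only [(hV p hp).1, (hV p hp).2.1]
        exact ⟨by simp only; omega, h2, h1, h2, Or.inl rfl⟩
    · intro e he e' he' hee
      simp only [Prod.mk.injEq] at hee
      obtain ⟨ht, hh⟩ := hee
      rcases hR0m e he with ⟨p, hp, rfl⟩ | ⟨p, hp, rfl⟩ <;> rcases hR0m e' he' with ⟨q, hq, rfl⟩ | ⟨q, hq, rfl⟩
      · rw [(hH p hp).1, (hH q hq).1] at ht
        rw [ht]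
      · rw [(hH p hp).1, (hV q hq).1] at ht
        rw [(hH p hp).2.1, (hV q hq).2.1, ht] at hh
        have := congrArg Prod.fst hh
        simp only at this
        omega
      · rw [(hV p hp).1, (hH q hq).1] at ht
        rw [(hV p hp).2.1, (hH q hq).2.1, ht] at hh
        have := congrArg Prod.fst hh
        simp only at this
        omega
      · rw [(hV p hp).1, (hV q hq).1] at ht
        rw [ht]
    · rintro ⟨p, q⟩ ⟨h1, h2, h3, h4, h5⟩
      simp only at h1 h2 h3 h4 h5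
      rcases h5 with rfl | rfl
      · have hp : p ∈ PV := (hPVm p).2 ⟨h3, h2⟩
        refine ⟨ev p.1 p.2, Finset.mem_coe.2 (Finset.mem_union_right _ (Finset.mem_image_of_mem _ hp)), ?_⟩
        simp only [(hV p hp).1, (hV p hp).2.1]
      · have hp : p ∈ PH := (hPHm p).2 ⟨h1, h4⟩
        refine ⟨eh p.1 p.2, Finset.mem_coe.2 (Finset.mem_union_left _ (Finset.mem_image_of_mem _ hp)), ?_⟩
        simp only [(hH p hp).1, (hH p hp).2.1]
  · rw [indep_iff hCPt]
    have h1 := hback ∅ (Finset.empty_subset _) (fun X hX hne => by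
      rw [Finset.subset_empty.1 hX] at hne
      exact absurd hne Finset.not_nonempty_empty)
    rwa [Finset.empty_union] at h1
  · intro I hI
    rw [indep_iff (hIPt I hI)]
    exact ⟨hforth I hI, hback I hI⟩

end Pool.Agent.Helper28.GT
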