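import Mathlib

/-!
# Cycle matroids of grids: definition
-/

set_option autoImplicit false

namespace Pool.Agent.Helper28.GT

/-- `N` is the cycle matroid of the `n × n` grid; the edge `e` joins `tl e` and `hd e` -/
def IsGrid (n : ℕ) (N : Matroid ℕ) : Prop :=
  ∃ tl hd : ℕ → ℕ × ℕ,
    Set.BijOn (fun e => (tl e, hd e)) N.E {p | p.1.1 < n ∧ p.1.2 < n ∧ p.2.1 < n ∧ p.2.2 < n ∧
      (p.2 = (p.1.1 + 1, p.1.2) ∨ p.2 = (p.1.1, p.1.2 + 1))} ∧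
    ∀ I ⊆ N.E, (N.Indep I ↔ ∀ X ⊆ I, X.Nonempty → X.ncard + 1 ≤ (tl '' X ∪ hd '' X).ncard)

end Pool.Agent.Helper28.GT
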