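import Pool.Agent.Helper28.GT.MeshStep
import Pool.Agent.Helper28.GT.DecComp

/-!
# GT-15: a mesh or a decomposition

`mesh_dec`: strong induction on `C.ncard`. As there is no mesh, `mesh_step` applies to the premesh of `C` and gives `S`. Every component `C'` of `C \ S` has fewer elements and a premesh, so `eC G E C'` has a decomposition. `dec_comp` with `B = S ∪ nb C` (`|B| ≤ k + h`); `eC G E C` is nonempty as `C` has a neighbour (`leaf`).
`dec_all`: `Γ = sg G E`. Let `D` be a component of `vs G E` (a `Cp Γ (vs G E) ∅ D`), `v ∈ D`. If `C'` is a component of `D \ {v}` then `PM Γ C' h {v} ⊥`: `nb Γ C' = {v}` (`cp_nb`, `cp_adj`; `nb Γ D = ∅` as `D` is closed and all ends of edges are in `vs G E`), all degrees are `0`. `mesh_dec` gives a decomposition of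
`eC G E C'`. `dec_comp` for `D`, `S = {v}`, `B = {v}` (`nb Γ D = ∅`; `v ∈ vs G E` is an end of an edge so `eC G E D` is nonempty). Then `dec_comp` for `C = vs G E`, `S = ∅`, `B = ∅`, and `eC G E (vs G E) = E`.
-/

set_option autoImplicit false

namespace Pool.Agent.Helper28.GT

open Pool.Agent.Helper28.BW

variable {H : Type} [Group H]

omit [Group H] in
private theorem eC_ne {G : GG H} {E : Finset ℕ} {C : Set ℕ} {e : ℕ} (he : e ∈ E)
    (h : (G e).1 ∈ C ∨ (G e).2.1 ∈ C) : (eC G E C).Nonempty := by
  classical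
  exact ⟨e, Finset.mem_filter.2 ⟨he, h⟩⟩

omit [Group H] in
private theorem end_vs {G : GG H} {E : Finset ℕ} {u v : ℕ} (h : (sg G E).Adj u v) :
    v ∈ vs G E := by
  obtain ⟨-, e, he, hj⟩ := h
  rcases hj with ⟨g, hg⟩ | ⟨g, hg⟩
  · exact ⟨G e, ⟨e, he, rfl⟩, Or.inr (by rw [hg])⟩
  · exact ⟨G e, ⟨e, he, rfl⟩, Or.inl (by rw [hg])⟩

theorem mesh_dec {G : GG H} {E : Finset ℕ} {h k : ℕ} (hk : 1 ≤ k)
    (hno : ¬ HasMesh (sg G E) h k) : ∀ (C W : Set ℕ) (T : SimpleGraph ℕ),
    PM (sg G E) C h W T → Dec (fun X => (bd G E X).ncard) (h + k) (eC G E C) := by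
  have key : ∀ (n : ℕ) (C W : Set ℕ) (T : SimpleGraph ℕ), C.ncard = n →
      PM (sg G E) C h W T → Dec (fun X => (bd G E X).ncard) (h + k) (eC G E C) := by
    intro n
    induction n using Nat.strong_induction_on with
    | _ n ih =>
      intro C W T hn hPM
      have hno' : (nb (sg G E) C).ncard < h ∨ ¬ Kc (sg G E) C k := by
        by_contra hcon
        rw [not_or, not_not, not_lt] at hcon
        exact hno ⟨C, W, T, hPM, le_antisymm hPM.card hcon.1, hcon.2⟩
      obtain ⟨S, hSC, hSn, hSk, hS⟩ := mesh_step hPM hk hno'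
      have hCf := hPM.fin
      have hnbf : (nb (sg G E) C).Finite := hPM.Wfin.subset hPM.nW
      obtain ⟨v, ⟨hvC, u, hu, hadj⟩, -⟩ := hPM.leaf
      obtain ⟨-, e, he, hj⟩ := hadj
      have hne : (eC G E C).Nonempty := by
        apply eC_ne he
        rcases hj with ⟨g, hg⟩ | ⟨g, hg⟩
        · left
          rw [hg]
          exact hu
        · right
          rw [hg]
          exact hu
      refine dec_comp hCf hSC (subset_refl _) ((hCf.subset hSC).union hnbf) ?_ hne ?_
      · have h1 := Set.ncard_union_le S (nb (sg G E) C)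
        have h2 := hPM.card
        omega
      · intro C' hC'
        obtain ⟨W', T', hPM'⟩ := hS C' hC'
        have hlt : C'.ncard < n := by
          rw [← hn]
          apply Set.ncard_lt_ncard _ hCf
          refine ⟨fun x hx => (hC'.sub hx).1, fun hsub => ?_⟩
          obtain ⟨s, hs⟩ := hSn
          exact (hC'.sub (hsub (hSC hs))).2 hs
        exact ih _ hlt C' W' T' rfl hPM'
  exact fun C W T hPM => key _ C W T rfl hPM

theorem dec_all {G : GG H} {E : Finset ℕ} {h k : ℕ} (hh : 1 ≤ h) (hk : 1 ≤ k)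
    (hE : E.Nonempty) (hno : ¬ HasMesh (sg G E) h k) :
    Dec (fun X => (bd G E X).ncard) (h + k) E := by
  classical
  have hEe : eC G E (vs G E) = E := by
    rw [eC, Finset.filter_true_of_mem]
    intro e he
    exact Or.inl ⟨G e, ⟨e, he, rfl⟩, Or.inl rfl⟩
  have hvf : (vs G E).Finite := vs_finite G E
  have hnb0 : nb (sg G E) (vs G E) = ∅ := by
    rw [Set.eq_empty_iff_forall_notMem]
    rintro v ⟨hv, u, -, hadj⟩
    exact hv (end_vs hadj)
  suffices main : Dec (fun X => (bd G E X).ncard) (h + k) (eC G E (vs G E)) by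
    rwa [hEe] at main
  refine dec_comp (G := G) (S := ∅) (B := ∅) hvf (Set.empty_subset _) ?_ Set.finite_empty ?_ ?_ ?_
  · rw [hnb0, Set.union_empty]
  · rw [Set.ncard_empty]
    exact Nat.zero_le _
  · rw [hEe]
    exact hE
  · intro D hD
    obtain ⟨v, hv⟩ := hD.con.1
    have hDsub : D ⊆ vs G E := fun x hx => (hD.sub hx).1
    have hDf : D.Finite := hvf.subset hDsub
    have hnbD : nb (sg G E) D = ∅ := by
      rw [Set.eq_empty_iff_forall_notMem]
      rintro w ⟨hw, u, hu, hadj⟩
      exact hw (hD.closed u hu w ⟨end_vs hadj, fun h => h⟩ hadj)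
    refine dec_comp (G := G) (S := {v}) (B := {v}) hDf (Set.singleton_subset_iff.2 hv) ?_
      (Set.finite_singleton v) ?_ ?_ ?_
    · rw [hnbD, Set.union_empty]
    · rw [Set.ncard_singleton]
      omega
    · obtain ⟨t, ⟨e, he, rfl⟩, ht⟩ := hDsub hv
      apply eC_ne he
      rcases ht with ht | ht
      · left
        rw [← ht]
        exact hv
      · right
        rw [← ht]
        exact hv
    · intro C' hC'
      have hsub : C' ⊆ D := fun x hx => (hC'.sub hx).1
      have hnbC : nb (sg G E) C' ⊆ {v} := by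
        have h1 := cp_nb hC'
        rwa [hnbD, Set.empty_union] at h1
      have hbot : ∀ w : ℕ, ((⊥ : SimpleGraph ℕ).neighborSet w).ncard = 0 := by
        intro w
        have : (⊥ : SimpleGraph ℕ).neighborSet w = ∅ := by
          rw [Set.eq_empty_iff_forall_notMem]
          intro x hx
          exact hx
        rw [this, Set.ncard_empty]
      refine mesh_dec hk hno C' {v} ⊥ ⟨hDf.subset hsub, hC'.con, ?_, Set.finite_singleton v,
        bot_le, ?_, Cn.singleton v, ?_, hnbC, ?_, ?_, ?_⟩
      · have h1 := Set.ncard_le_ncard hnbC (Set.finite_singleton v)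
        rw [Set.ncard_singleton] at h1
        omega
      · intro a b hab
        exact absurd hab (by simp)
      · rw [Set.disjoint_singleton_left]
        exact fun hvC => (hC'.sub hvC).2 rfl
      · intro w _
        rw [hbot]
        omega
      · intro w _
        rw [hbot]
        omega
      · obtain ⟨s, -, hs⟩ := cp_adj hD.con (Set.singleton_subset_iff.2 hv)
          (Set.singleton_nonempty v) hC'
        exact ⟨s, hs, by rw [hbot]; omega⟩

end Pool.Agent.Helper28.GT
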