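import Pool.Agent.Helper28.GT.CrossGrid

/-!
# GT-10: disjoint routing or a grid

For all `r`, `t` there is `N` such that: if for each of `t` pairs `(a ρ, b ρ)` there are `N` disjoint paths from `a ρ` to `b ρ` in `J`, then `J` has an `r × r` grid minor or there are disjoint paths, one for each pair. Induction on `t`; `t = 0` is trivial. Step: let `N'` be the number for
`t`, `R`, `d` from `cross_grid`, `n = (R + 1) * N'`, `K = t * N' * (d * (d * n)) + 1`, `N = max K n` (or `K + n`). Let `P` be a family of `K` paths for the last pair (`LK.take`). For every other pair `ρ` choose a family `Q ρ` of `n` disjoint paths from `a ρ` to `b ρ` with `(ed (Q ρ) \ ed P).ncard` minimum. Case 1: some path `p` of `P` is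
such that for every `ρ` at least `N'` paths of `Q ρ` avoid `p`. Let `J'` be `J` restricted (`rs`) to the complement of the vertices of `p`, and remove the vertices of `p` from `F`, `a ρ`, `b ρ`. The induction hypothesis applies (`LK.take`), and a grid of `J'` is a grid of `J`; disjoint paths of `J'` avoid `p` (first vertex in the new `a ρ`, the others are ends of edges of `J'`), together
with `p` (path of the last pair). Case 2: for every `p` there is `ρ` such that fewer than `N'` paths of `Q ρ` avoid `p`. Divide the paths of `Q ρ` into `N'` groups of `R + 1`: some group has all its paths met by `p`. By the pigeonhole principle (`t * N'` possibilities for `(ρ, group)`, `K` paths) the same `(ρ, group)`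
works for at least `d * (d * n)` paths `p`. `cross_grid`.
-/

set_option autoImplicit false

namespace Pool.Agent.Helper28.GT

theorem route (r t : ℕ) : ∃ N : ℕ, ∀ (J : SimpleGraph ℕ) (F : Set ℕ), Fg J F →
    ∀ a b : Fin t → Set ℕ, (∀ ρ, a ρ ⊆ F) → (∀ ρ, b ρ ⊆ F) →
    (∀ ρ, ∃ l x, LK J (a ρ) (b ρ) N l x) →
    (∃ B, GridM J r r B) ∨ ∃ (l : Fin t → ℕ) (x : Fin t → ℕ → ℕ),
      (∀ ρ, x ρ 0 ∈ a ρ ∧ x ρ (l ρ) ∈ b ρ ∧ ∀ j, j < l ρ → J.Adj (x ρ j) (x ρ (j + 1))) ∧
      ∀ ρ ρ' j j', ρ ≠ ρ' → j ≤ l ρ → j' ≤ l ρ' → x ρ j ≠ x ρ' j' := by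
  classical
  induction t with
  | zero =>
    exact ⟨0, fun J F _ a b _ _ _ => Or.inr ⟨fun ρ => ρ.elim0, fun ρ => ρ.elim0,
      fun ρ => ρ.elim0, fun ρ => ρ.elim0⟩⟩
  | succ t ih =>
    obtain ⟨N', ih⟩ := ih
    obtain ⟨R, d, hR, hd, hcross⟩ := cross_grid r
    obtain ⟨n, hn⟩ : ∃ n, n = (R + 1) * N' := ⟨_, rfl⟩
    obtain ⟨K, hK⟩ : ∃ K, K = t * N' * (d * (d * n)) + 1 := ⟨_, rfl⟩
    refine ⟨K + n, fun J F hJF a b ha hb hlk => ?_⟩
    obtain ⟨lP, xP, hP⟩ : ∃ lP xP, LK J (a (Fin.last t)) (b (Fin.last t)) K lP xP := by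
      obtain ⟨l, x, h⟩ := hlk (Fin.last t)
      exact ⟨_, _, h.take (Fin.castLE (by omega)) (Fin.castLE_injective _)⟩
    have hQ : ∀ ρ : Fin t, ∃ l x, LK J (a ρ.castSucc) (b ρ.castSucc) n l x ∧
        ∀ l' x', LK J (a ρ.castSucc) (b ρ.castSucc) n l' x' →
          (ed l x \ ed lP xP).ncard ≤ (ed l' x' \ ed lP xP).ncard := by
      intro ρ
      obtain ⟨l, x, h⟩ := hlk ρ.castSucc
      have h' := h.take (Fin.castLE (by omega : n ≤ K + n)) (Fin.castLE_injective _)
      have hex : ∃ k, ∃ l x, LK J (a ρ.castSucc) (b ρ.castSucc) n l x ∧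
          (ed l x \ ed lP xP).ncard = k := ⟨_, _, _, h', rfl⟩
      obtain ⟨l0, x0, h0, h1⟩ := Nat.find_spec hex
      refine ⟨l0, x0, h0, fun l' x' h2 => ?_⟩
      rw [h1]
      exact Nat.find_min' hex ⟨l', x', h2, rfl⟩
    choose lQ xQ hQ hmin using hQ
    by_cases hcase : ∃ p : Fin K, ∀ ρ : Fin t, N' ≤ (Finset.univ.filter (fun i : Fin n =>
        ∀ j ≤ lP p, ∀ j' ≤ lQ ρ i, xP p j ≠ xQ ρ i j')).card
    · obtain ⟨p, hp⟩ := hcase
      obtain ⟨V, hV⟩ : ∃ V : Set ℕ, V = {z | ∃ j ≤ lP p, xP p j = z} := ⟨_, rfl⟩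
      have hfg : Fg (rs J Vᶜ) (F \ V) := by
        refine ⟨hJF.fin.subset Set.sdiff_subset, fun u v huv => ?_⟩
        obtain ⟨h1, h2, h3⟩ := huv
        exact ⟨⟨(hJF.adj u v h1).1, h2⟩, ⟨(hJF.adj u v h1).2, h3⟩⟩
      have hlk' : ∀ ρ : Fin t, ∃ l x, LK (rs J Vᶜ) (a ρ.castSucc \ V) (b ρ.castSucc \ V)
          N' l x := by
        intro ρ
        obtain ⟨s, hs1, hs2⟩ := Finset.exists_subset_card_eq (hp ρ)
        let f : Fin N' → Fin n := fun i => (s.orderIsoOfFin hs2 i).1
        have hf : Function.Injective f := fun i i' h =>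
          (s.orderIsoOfFin hs2).injective (Subtype.ext h)
        have hav : ∀ i, ∀ j' ≤ lQ ρ (f i), xQ ρ (f i) j' ∉ V := by
          intro i j' hj' hmem
          rw [hV] at hmem
          obtain ⟨j, hj, he⟩ := hmem
          have h1 := hs1 (s.orderIsoOfFin hs2 i).2
          rw [Finset.mem_filter] at h1
          exact h1.2 j hj j' hj' he
        have ht := (hQ ρ).take f hf
        refine ⟨_, _, ⟨fun i => ⟨ht.st i, hav i 0 (Nat.zero_le _)⟩,
          fun i => ⟨ht.en i, hav i _ le_rfl⟩,
          fun i j hj => ⟨ht.adj i j hj, hav i j (le_of_lt hj), hav i (j + 1) hj⟩, ht.inj⟩⟩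
      rcases ih (rs J Vᶜ) (F \ V) hfg (fun ρ => a ρ.castSucc \ V) (fun ρ => b ρ.castSucc \ V)
        (fun ρ => Set.sdiff_subset_sdiff_left (ha ρ.castSucc))
        (fun ρ => Set.sdiff_subset_sdiff_left (hb ρ.castSucc)) hlk' with ⟨B, hB⟩ | ⟨l, x, h1, h2⟩
      · exact Or.inl ⟨B, hB.mono rs_le⟩
      · right
        have hout : ∀ ρ : Fin t, ∀ j ≤ l ρ, x ρ j ∉ V := by
          intro ρ j hj
          rcases j with _ | j
          · exact (h1 ρ).1.2
          · exact ((h1 ρ).2.2 j hj).2.2
        refine ⟨Fin.snoc (α := fun _ => ℕ) l (lP p), Fin.snoc (α := fun _ => ℕ → ℕ) x (xP p),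
          ?_, ?_⟩
        · intro ρ
          refine Fin.lastCases ?_ (fun ρ => ?_) ρ
          · simp only [Fin.snoc_last]
            exact ⟨hP.st p, hP.en p, hP.adj p⟩
          · simp only [Fin.snoc_castSucc]
            exact ⟨(h1 ρ).1.1, (h1 ρ).2.1.1, fun j hj => ((h1 ρ).2.2 j hj).1⟩
        · intro ρ ρ' j j'
          refine Fin.lastCases ?_ (fun ρ => ?_) ρ
          · refine Fin.lastCases ?_ (fun ρ' => ?_) ρ'
            · intro h
              exact absurd rfl h
            · simp only [Fin.snoc_last, Fin.snoc_castSucc]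
              intro _ hj hj' he
              exact hout ρ' j' hj' (by rw [hV]; exact ⟨j, hj, he⟩)
          · refine Fin.lastCases ?_ (fun ρ' => ?_) ρ'
            · simp only [Fin.snoc_last, Fin.snoc_castSucc]
              intro _ hj hj' he
              exact hout ρ j hj (by rw [hV]; exact ⟨j', hj', he.symm⟩)
            · simp only [Fin.snoc_castSucc]
              intro hne hj hj'
              exact h2 ρ ρ' j j' (fun h => hne (by rw [h])) hj hj'
    · left
      push Not at hcase
      have hgrp : ∀ p : Fin K, ∃ q : Fin t × Fin N', ∀ (i : ℕ) (_ : i ≤ R) (u : Fin n),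
          u.val = (R + 1) * q.2.val + i →
          ∃ b s, b ≤ lP p ∧ s ≤ lQ q.1 u ∧ xP p b = xQ q.1 u s := by
        intro p
        obtain ⟨ρ, hρ⟩ := hcase p
        by_contra hcon
        push Not at hcon
        have h1 : ∀ c : Fin N', ∃ i, i ≤ R ∧ ∃ u : Fin n, u.val = (R + 1) * c.val + i ∧
            ∀ j j', j ≤ lP p → j' ≤ lQ ρ u → xP p j ≠ xQ ρ u j' := by
          intro c
          obtain ⟨i, hi, u, hu, h⟩ := hcon (ρ, c)
          exact ⟨i, hi, u, hu, h⟩
        choose i hi u hu hav using h1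
        have hinj : Function.Injective u := by
          intro c c' hcc
          have e1 := hu c
          have e2 := hu c'
          rw [hcc, e2] at e1
          have b1 := hi c
          have b2 := hi c'
          apply Fin.ext
          by_contra hne
          rcases Nat.lt_or_gt_of_ne hne with h | h
          · have : (R + 1) * (c.val + 1) ≤ (R + 1) * c'.val := Nat.mul_le_mul_left _ h
            rw [Nat.mul_add, Nat.mul_one] at this
            omega
          · have : (R + 1) * (c'.val + 1) ≤ (R + 1) * c.val := Nat.mul_le_mul_left _ h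
            rw [Nat.mul_add, Nat.mul_one] at this
            omega
        have hle : N' ≤ (Finset.univ.filter (fun i : Fin n =>
            ∀ j ≤ lP p, ∀ j' ≤ lQ ρ i, xP p j ≠ xQ ρ i j')).card := by
          have := Finset.card_le_card_of_injOn (s := (Finset.univ : Finset (Fin N')))
            (t := Finset.univ.filter (fun i : Fin n =>
              ∀ j ≤ lP p, ∀ j' ≤ lQ ρ i, xP p j ≠ xQ ρ i j')) u
            (fun c _ => by
              rw [Finset.mem_coe, Finset.mem_filter]
              exact ⟨Finset.mem_univ _, fun j hj j' hj' => hav c j j' hj hj'⟩)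
            (hinj.injOn)
          simpa using this
        omega
      choose q hq using hgrp
      obtain ⟨y, hy⟩ := Fintype.exists_lt_card_fiber_of_mul_lt_card (n := d * (d * n)) q (by
        simp only [Fintype.card_prod, Fintype.card_fin]
        omega)
      have hlt : ∀ i, (R + 1) * y.2.val + min i R < n := by
        intro i
        have h1 : (R + 1) * (y.2.val + 1) ≤ (R + 1) * N' := Nat.mul_le_mul_left _ y.2.isLt
        rw [Nat.mul_add, Nat.mul_one] at h1
        have h2 := Nat.min_le_right i R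
        omega
      refine hcross J F (a (Fin.last t)) (b (Fin.last t)) (a y.1.castSucc) (b y.1.castSucc) hJF
        (ha _) (hb _) K n lP xP (lQ y.1) (xQ y.1) hP (hQ y.1) (hmin y.1)
        (Finset.univ.filter (fun p => q p = y)) hy.le
        (fun i => ⟨(R + 1) * y.2.val + min i R, hlt i⟩) ?_ ?_
      · intro i i' hi hi' he
        have := congrArg Fin.val he
        simp only [Nat.min_eq_left hi, Nat.min_eq_left hi'] at this
        omega
      · intro p hp i hi
        rw [Finset.mem_filter] at hp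
        have := hq p i hi ⟨(R + 1) * y.2.val + min i R, hlt i⟩ (by
          rw [hp.2]
          show (R + 1) * y.2.val + min i R = (R + 1) * y.2.val + i
          rw [Nat.min_eq_left hi])
        rw [hp.2] at this
        exact this

end Pool.Agent.Helper28.GT
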