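import Pool.Agent.Helper28.GT.MeshUse
import Pool.Agent.Helper28.GT.MeshDec
import Pool.Agent.Helper28.GT.Route

/-!
# GT-17: the excluded grid theorem

`grid_of_terminals`: let `m = r * r` and let `N` be the number of `route` for `r` and `t =` the number of pairs `i < j < m` (fix a bijection of `Fin t` with these pairs, `Fintype.equivFin`). Suppose `C`, `A i` as in `mesh_use` with `k = N` (`max N 1`). `route` for `J = rs Γ C`, `F = C`, `a ρ = tm Γ (A i) C`, `b ρ = tm Γ (A j) C`, `ρ = (i, j)`,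
gives a grid in `rs Γ C ≤ Γ`, or disjoint paths `x ρ` in `C`. In the second case put `Bs i = A i ∪ {x ρ s : ρ = (i, j), i < j}`. These sets are connected (`jo_path`, `Cn.union_ad`), disjoint (the paths are in `C`, disjoint from all `A i`), and `Bs i` is adjacent to `Bs j` for `i < j` (last vertex of the path). The sets `B i j = Bs (i * r + j)`
form an `r × r` grid minor.
`grid_thm`: `w = 3 * k * m + k`, `k = max N 1`; if there is no mesh of order `3 * k * m` use `dec_all` (`r = 0` is trivial: an empty grid), otherwise `mesh_use`.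
-/

set_option autoImplicit false

namespace Pool.Agent.Helper28.GT

open Pool.Agent.Helper28.BW

theorem grid_of_terminals (r : ℕ) : ∃ k : ℕ, 1 ≤ k ∧ ∀ (Γ : SimpleGraph ℕ) (C : Set ℕ)
    (A : ℕ → Set ℕ), C.Finite → (∀ i, i < r * r → Cn Γ (A i) ∧ Disjoint (A i) C) →
    (∀ i j, i < r * r → j < r * r → i ≠ j → Disjoint (A i) (A j)) →
    (∀ i j, i < r * r → j < r * r → i ≠ j →
      ∃ l x, LK (rs Γ C) (tm Γ (A i) C) (tm Γ (A j) C) k l x) → ∃ B, GridM Γ r r B := by
  classical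
  obtain ⟨t, ht⟩ : ∃ t, t = Fintype.card {p : Fin (r * r) × Fin (r * r) // p.1 < p.2} :=
    ⟨_, rfl⟩
  let e : {p : Fin (r * r) × Fin (r * r) // p.1 < p.2} ≃ Fin t :=
    (Fintype.equivFin _).trans (finCongr ht.symm)
  obtain ⟨N, hN⟩ := route r t
  refine ⟨N + 1, by omega, fun Γ C A hC hA hAd hlk => ?_⟩
  have hroute := hN (rs Γ C) C (rs_fg hC)
    (fun ρ => tm Γ (A (e.symm ρ).1.1.val) C) (fun ρ => tm Γ (A (e.symm ρ).1.2.val) C)
    (fun ρ v hv => hv.1) (fun ρ v hv => hv.1) (fun ρ => by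
      have hlt : (e.symm ρ).1.1 < (e.symm ρ).1.2 := (e.symm ρ).2
      obtain ⟨l, x, h⟩ := hlk (e.symm ρ).1.1.val (e.symm ρ).1.2.val (e.symm ρ).1.1.isLt
        (e.symm ρ).1.2.isLt (by
          have := Fin.lt_def.1 hlt
          omega)
      exact ⟨_, _, h.take (Fin.castLE (by omega : N ≤ N + 1)) (Fin.castLE_injective _)⟩)
  rcases hroute with ⟨B, hB⟩ | ⟨l, x, h1, h2⟩
  · exact ⟨B, hB.mono rs_le⟩
  · have hinC : ∀ ρ : Fin t, ∀ j ≤ l ρ, x ρ j ∈ C := by
      intro ρ j hj
      rcases j with _ | j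
      · exact (h1 ρ).1.1
      · exact ((h1 ρ).2.2 j hj).2.2
    obtain ⟨Bs, hBs⟩ : ∃ Bs : ℕ → Set ℕ, ∀ i z, z ∈ Bs i ↔
        (z ∈ A i ∨ ∃ ρ : Fin t, (e.symm ρ).1.1.val = i ∧ ∃ j ≤ l ρ, z = x ρ j) :=
      ⟨fun i => {z | z ∈ A i ∨ ∃ ρ : Fin t, (e.symm ρ).1.1.val = i ∧ ∃ j ≤ l ρ, z = x ρ j},
        fun i z => Iff.rfl⟩
    have hsub : ∀ i, A i ⊆ Bs i := fun i z hz => (hBs i z).2 (Or.inl hz)
    have hcn : ∀ i, i < r * r → Cn Γ (Bs i) := by
      intro i hi
      obtain ⟨⟨⟨a, ha⟩, hc⟩, _⟩ := hA i hi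
      refine ⟨⟨a, hsub i ha⟩, ?_⟩
      have key : ∀ u ∈ Bs i, Jo Γ (Bs i) a u := by
        intro u hu
        rcases (hBs i u).1 hu with hu | ⟨ρ, hρ, j, hj, rfl⟩
        · exact (hc a ha u hu).mono (hsub i) le_rfl
        · obtain ⟨_, b, hb, hadj⟩ := (h1 ρ).1
          rw [hρ] at hb
          have hmem : ∀ s, s ≤ l ρ → x ρ s ∈ Bs i := fun s hs =>
            (hBs i _).2 (Or.inr ⟨ρ, hρ, s, hs, rfl⟩)
          have w1 : Jo Γ (Bs i) a b := (hc a ha b hb).mono (hsub i) le_rfl
          have w2 : Jo Γ (Bs i) b (x ρ 0) :=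
            Jo.edge (hsub i hb) (hmem 0 (Nat.zero_le _)) hadj
          have w3 : Jo Γ (Bs i) (x ρ 0) (x ρ j) :=
            jo_path (Nat.zero_le j) (fun s _ hs => hmem s (hs.trans hj))
              (fun s _ hs => ((h1 ρ).2.2 s (lt_of_lt_of_le hs hj)).1)
          exact (w1.trans w2).trans w3
      exact fun u hu v hv => (key u hu).symm.trans (key v hv)
    have hdj : ∀ i j, i < r * r → j < r * r → i ≠ j → Disjoint (Bs i) (Bs j) := by
      intro i j hi hj hij
      rw [Set.disjoint_left]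
      intro z hz hz'
      rcases (hBs i z).1 hz with hz | ⟨ρ, hρ, s, hs, rfl⟩
      · rcases (hBs j z).1 hz' with hz' | ⟨ρ', hρ', s', hs', rfl⟩
        · exact Set.disjoint_left.1 (hAd i j hi hj hij) hz hz'
        · exact Set.disjoint_left.1 (hA i hi).2 hz (hinC ρ' s' hs')
      · rcases (hBs j _).1 hz' with hz' | ⟨ρ', hρ', s', hs', he⟩
        · exact Set.disjoint_left.1 (hA j hj).2 hz' (hinC ρ s hs)
        · refine h2 ρ ρ' s s' ?_ hs hs' he
          rintro rfl
          exact hij (hρ.symm.trans hρ')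
    have had : ∀ i j, i < j → j < r * r → Ad Γ (Bs i) (Bs j) := by
      intro i j hij hj
      have hi : i < r * r := hij.trans hj
      let q : {p : Fin (r * r) × Fin (r * r) // p.1 < p.2} :=
        ⟨(⟨i, hi⟩, ⟨j, hj⟩), Fin.lt_def.2 hij⟩
      have hq : e.symm (e q) = q := e.symm_apply_apply q
      obtain ⟨_, b, hb, hadj⟩ := (h1 (e q)).2.1
      rw [hq] at hb
      refine ⟨x (e q) (l (e q)), (hBs i _).2 (Or.inr ⟨e q, by rw [hq], _, le_rfl, rfl⟩),
        b, hsub j hb, hadj.symm⟩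
    have hlt : ∀ i j, i < r → j < r → i * r + j < r * r := by
      intro i j hi hj
      have : (i + 1) * r ≤ r * r := Nat.mul_le_mul_right r hi
      rw [Nat.add_mul, Nat.one_mul] at this
      omega
    refine ⟨fun i j => Bs (i * r + j), ⟨fun i j hi hj => hcn _ (hlt i j hi hj), ?_, ?_, ?_⟩⟩
    · intro i j i' j' hi hj hi' hj' hne
      refine hdj _ _ (hlt i j hi hj) (hlt i' j' hi' hj') ?_
      intro he
      rcases Nat.lt_trichotomy i i' with h | h | h
      · have : (i + 1) * r ≤ i' * r := Nat.mul_le_mul_right r h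
        rw [Nat.add_mul, Nat.one_mul] at this
        omega
      · subst h
        rcases hne with h | h
        · exact h rfl
        · exact h (by omega)
      · have : (i' + 1) * r ≤ i * r := Nat.mul_le_mul_right r h
        rw [Nat.add_mul, Nat.one_mul] at this
        omega
    · intro i j hi hj
      exact had _ _ (by omega) (hlt i (j + 1) hi hj)
    · intro i j hi hj
      refine had _ _ ?_ (hlt (i + 1) j hi hj)
      rw [Nat.add_mul, Nat.one_mul]
      omega

theorem grid_thm (r : ℕ) : ∃ w : ℕ, ∀ (H : Type) [Group H] (G : GG H) (E : Finset ℕ),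
    E.Nonempty → Dec (fun X => (bd G E X).ncard) w E ∨ ∃ B, GridM (sg G E) r r B := by
  classical
  obtain ⟨k, hk, hgt⟩ := grid_of_terminals r
  refine ⟨3 * k * (r * r) + k, fun H _ G E hE => ?_⟩
  rcases Nat.eq_zero_or_pos r with hr | hr
  · subst hr
    right
    exact ⟨fun _ _ => ∅, fun i j hi => absurd hi (Nat.not_lt_zero _),
      fun i j i' j' hi => absurd hi (Nat.not_lt_zero _),
      fun i j hi => absurd hi (Nat.not_lt_zero _), fun i j hi => absurd hi (Nat.not_lt_zero _)⟩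
  · by_cases hm : HasMesh (sg G E) (3 * k * (r * r)) k
    · right
      obtain ⟨C, A, hC, hA, hAd, hlk⟩ := mesh_use hk hm
      exact hgt (sg G E) C A hC hA hAd hlk
    · left
      exact dec_all (Nat.mul_pos (by omega) (Nat.mul_pos hr hr)) hk hE hm

end Pool.Agent.Helper28.GT
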