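import Pool.Agent.Helper28.GT.GridBasic
import Pool.Agent.Helper28.GT.GridThm
import Pool.Agent.Helper28.GT.BalGrid
import Pool.Agent.Helper28.GT.Forest
import Pool.Agent.Helper28.BW.BwDefs
import Pool.Agent.Helper28.BW.TwoSided

/-!
# GT-22: branch-width or a grid matroid

`IsGrid n N`: `N` is the cycle matroid of the `n × n` grid (independent sets: forests, i.e. every nonempty `X ⊆ I` has `|X| + 1 ≤ |V(X)|`).
`bal_anti`: for `T ⊆ T'` and `S` finite, `bal T' S ≤ bal T S`: for every balanced component of `T'` meeting `S` choose a vertex `u ∈ S` in it; the components of `T` of these vertices are balanced and different.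
`lam_le_bd`: `lam_bd` and `bal_anti` (for `T' = img G E`). `Dec.mono'`: induction (subsets of `E`). `bwLe_of_dec`: induction, `connLe_iff` (converse of `Decomp.dec`).
`grid_minor`: `forest_grid` for `E = hN.toFinset`, `N' = (N.contract C0).restrict R0` (a minor). Independence of `I ⊆ R0` in `N'`: `I ∪ C0` independent in `N`, i.e. (`mrk_indep`, `Rep`) in `G`; `C0` independent.
`bw_or_grid`: let `R` be the number of `bal_grid` for `n`, `r = max n R`, `w` the number of `grid_thm` for `r`, `k = w`. Let `M` be gain-graphic, `G` a representation (`gainGraphic_iff_rep`), `E` nonempty (otherwise `BwLe`). If `E` has a decomposition with `|bd| ≤ w` then `lam ≤ w` for it (`lam_le_bd`) and `bwLe_of_dec`. Otherwise there is an `r × r` grid minor, restricted to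
`n` rows and `R` columns (a `GridM (sg G E) n R B`); `tree_grid`, `bal_grid`, `grid_minor`.
-/

set_option autoImplicit false

namespace Pool.Agent.Helper28.GT

open Pool.Agent.Helper28.BW Pool.Agent.Helper25.GG

variable {H : Type} [Group H]

theorem bal_anti {T T' : Set (Tri H)} (h : T ⊆ T') {S : Set ℕ} (hS : S.Finite) :
    bal T' S ≤ bal T S := by
  let F : Set ℕ → Set ℕ := fun c => {v | ∃ w ∈ c, Con T' w v}
  have h1 : balC T' S ⊆ F '' balC T S := by
    rintro c ⟨u, hu, hb, rfl⟩
    refine ⟨cls T u, ⟨u, hu, fun hb' => hb (hb'.mono h), rfl⟩, ?_⟩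
    ext v
    constructor
    · rintro ⟨w, hw, hwv⟩
      exact (Con.mono hw h).trans hwv
    · intro hv
      exact ⟨u, mem_cls_self T u, hv⟩
  have h2 : (balC T S).Finite := balC_finite T hS
  calc bal T' S ≤ (F '' balC T S).ncard := Set.ncard_le_ncard h1 (h2.image F)
    _ ≤ bal T S := Set.ncard_image_le h2

theorem lam_le_bd {r : Finset ℕ → ℕ} (hr : RkFn r) {G : GG H} {E A : Finset ℕ}
    (hG : Rep G r E) (hA : A ⊆ E) : lam r E A ≤ (bd G E A).ncard := by
  have h1 := lam_bd hr hG hA
  have h2 := bal_anti (img_mono G hA) (bd_finite G E A)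
  omega

theorem dec_mono {l l' : Finset ℕ → ℕ} {k : ℕ} {E A : Finset ℕ} (hl : ∀ X ⊆ E, l' X ≤ l X)
    (hA : A ⊆ E) (h : Dec l k A) : Dec l' k A := by
  induction h with
  | leaf e he => exact Dec.leaf e ((hl _ hA).trans he)
  | node A B hd _ _ hc ih1 ih2 =>
    exact Dec.node A B hd (ih1 (Finset.subset_union_left.trans hA))
      (ih2 (Finset.subset_union_right.trans hA)) ((hl _ hA).trans hc)

theorem bwLe_of_dec {N : Matroid ℕ} (hN : N.E.Finite) {k : ℕ}
    (h : Dec (lam (mrk N) hN.toFinset) k hN.toFinset) : BwLe N k := by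
  have key : ∀ A : Finset ℕ, Dec (lam (mrk N) hN.toFinset) k A → A ⊆ hN.toFinset →
      Decomp N k (A : Set ℕ) := by
    intro A hA
    induction hA with
    | leaf e he =>
      intro hs
      have h1 := (connLe_iff hN hs).2 he
      rw [Finset.coe_singleton] at h1 ⊢
      exact Decomp.leaf e h1
    | node A B hd _ _ hc ih1 ih2 =>
      intro hs
      have h1 := (connLe_iff hN hs).2 hc
      rw [Finset.coe_union] at h1 ⊢
      exact Decomp.node _ _ (Finset.disjoint_coe.2 hd) (ih1 (Finset.subset_union_left.trans hs))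
        (ih2 (Finset.subset_union_right.trans hs)) h1
  right
  have h1 := key _ h (Finset.Subset.refl _)
  rwa [Set.Finite.coe_toFinset] at h1

theorem grid_minor {N : Matroid ℕ} (hN : N.E.Finite) {G : GG H}
    (hG : Rep G (mrk N) hN.toFinset) {n : ℕ} {B : ℕ → ℕ → Set ℕ} {F : ℕ → ℕ → Finset ℕ}
    {eh ev : ℕ → ℕ → ℕ} {φ : ℕ → H} (h : TG G hN.toFinset n n B F eh ev φ)
    (hv : ∀ i j, i + 1 < n → j < n → Pt G φ (ev i j)) :
    ∃ N' : Matroid ℕ, Matroid.IsMinor N' N ∧ IsGrid n N' := by
  obtain ⟨C0, R0, tl, hd, hC, hR, hd0, hbij, hrk, hI⟩ := forest_grid h hv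
  have hCE : (C0 : Set ℕ) ⊆ N.E := by
    intro e he
    exact hN.mem_toFinset.1 (hC (Finset.mem_coe.1 he))
  have hRE : (R0 : Set ℕ) ⊆ N.E := by
    intro e he
    exact hN.mem_toFinset.1 (hR (Finset.mem_coe.1 he))
  have hE : ((N.contract (C0 : Set ℕ)).delete ((hN.toFinset \ (C0 ∪ R0) : Finset ℕ) : Set ℕ)).E =
      (R0 : Set ℕ) := by
    rw [Matroid.delete_ground, Matroid.contract_ground]
    ext e
    simp only [Set.mem_sdiff, Finset.coe_sdiff, Finset.coe_union, Set.mem_union,
      Set.Finite.coe_toFinset, Finset.mem_coe]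
    constructor
    · rintro ⟨⟨h1, h2⟩, h3⟩
      by_contra h4
      exact h3 ⟨h1, fun h5 => h5.elim h2 h4⟩
    · intro h1
      exact ⟨⟨hRE h1, fun h2 => Finset.disjoint_left.1 hd0 h2 h1⟩, fun h3 => h3.2 (Or.inr h1)⟩
  refine ⟨(N.contract (C0 : Set ℕ)).delete ((hN.toFinset \ (C0 ∪ R0) : Finset ℕ) : Set ℕ),
    ⟨(C0 : Set ℕ), ((hN.toFinset \ (C0 ∪ R0) : Finset ℕ) : Set ℕ), rfl⟩, tl, hd, ?_, ?_⟩
  · rw [hE]
    exact hbij
  · intro I hIE
    have hIE' : I ⊆ (R0 : Set ℕ) := by rwa [hE] at hIE
    obtain ⟨J, rfl⟩ := ((Finset.finite_toSet R0).subset hIE').exists_finset_coe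
    have hJ : J ⊆ R0 := Finset.coe_subset.1 hIE'
    have hJC : Disjoint J C0 := Finset.disjoint_of_subset_left hJ hd0.symm
    have hJD : Disjoint J (hN.toFinset \ (C0 ∪ R0)) := by
      rw [Finset.disjoint_left]
      intro e he hed
      rw [Finset.mem_sdiff] at hed
      exact hed.2 (Finset.mem_union_right _ (hJ he))
    have hm := mrk_minor N hJC hJD
    have h1 : mrk N (J ∪ C0) = rk G (J ∪ C0) :=
      (hG _ (Finset.union_subset (hJ.trans hR) hC)).symm
    have h2 : mrk N C0 = rk G C0 := (hG _ hC).symm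
    have h3 : rk G C0 ≤ rk G (J ∪ C0) := by
      rw [← h1, ← h2]
      exact (mrk_rkFn N).mono _ _ Finset.subset_union_right
    have h4 : (J ∪ C0).card = J.card + C0.card := Finset.card_union_of_disjoint hJC
    rw [← mrk_indep hIE, hm, contr, h1, h2]
    have h5 := hI J hJ
    have h6 : (rk G (J ∪ C0) - rk G C0 = J.card) ↔ rk G (J ∪ C0) = (J ∪ C0).card := by
      omega
    rw [h6, h5]
    have hcard : ∀ X : Finset ℕ, (tl '' (X : Set ℕ) ∪ hd '' (X : Set ℕ)).ncard =
        (X.image tl ∪ X.image hd).card := by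
      intro X
      rw [← Set.ncard_coe_finset, Finset.coe_union, Finset.coe_image, Finset.coe_image]
    constructor
    · intro h7 X hX hne
      obtain ⟨X', rfl⟩ := ((Finset.finite_toSet J).subset hX).exists_finset_coe
      rw [hcard, Set.ncard_coe_finset]
      exact h7 X' (Finset.coe_subset.1 hX) (Finset.coe_nonempty.1 hne)
    · intro h7 X hX hne
      have h8 := h7 (X : Set ℕ) (Finset.coe_subset.2 hX) (Finset.coe_nonempty.2 hne)
      rwa [hcard, Set.ncard_coe_finset] at h8

theorem bw_or_grid (H : Type) [Group H] [Finite H] (n : ℕ) : ∃ k : ℕ, ∀ M : Matroid ℕ,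
    GainGraphic H M → BwLe M k ∨ ∃ N' : Matroid ℕ, Matroid.IsMinor N' M ∧ IsGrid n N' := by
  obtain ⟨R, hR⟩ := bal_grid H n
  obtain ⟨w, hw⟩ := grid_thm (max n R)
  refine ⟨w, fun M hM => ?_⟩
  have hfin : M.E.Finite := by
    obtain ⟨G, hG, -⟩ := hM
    exact hG
  obtain ⟨G, hG⟩ := (gainGraphic_iff_rep hfin).1 hM
  by_cases hne : hfin.toFinset.Nonempty
  · rcases hw H G hfin.toFinset hne with hdec | ⟨B, hB⟩
    · left
      apply bwLe_of_dec hfin
      exact dec_mono (E := hfin.toFinset) (fun X hX => lam_le_bd (mrk_rkFn M) hG hX)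
        (Finset.Subset.refl _) hdec
    · right
      have hB' : GridM (sg G hfin.toFinset) n R B :=
        ⟨fun i j hi hj => hB.cn i j (by omega) (by omega),
          fun i j i' j' hi hj hi' hj' hne => hB.dj i j i' j' (by omega) (by omega) (by omega)
            (by omega) hne,
          fun i j hi hj => hB.hor i j (by omega) (by omega),
          fun i j hi hj => hB.ver i j (by omega) (by omega)⟩
      obtain ⟨F, eh, ev, φ, hT⟩ := tree_grid hB'
      obtain ⟨B', F', eh', ev', φ', hT', hP⟩ := hR G hfin.toFinset B F eh ev φ hT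
      exact grid_minor hfin hG hT' hP
  · left
    left
    rw [Finset.not_nonempty_iff_eq_empty, Set.Finite.toFinset_eq_empty] at hne
    exact hne

end Pool.Agent.Helper28.GT
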