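import Pool.Agent.Helper28.GT.Defs
import Pool.Agent.Helper57.TOK.Menger

/-!
# GT-02: Menger's theorem for families `LK`, and clean families

`menger_or`: apply `Pool.Agent.Helper57.TOK.menger` to the finite type `V = F` (subtype), the graph `J` restricted to it (`SimpleGraph.comap` of the coercion) and the sets of elements of `a`, `b`. If there are no `n` disjoint
paths then some `S` with fewer than `n` elements is a separator (`Sep`); a `Jo` walk from `u ∈ a` to `v ∈ b` avoiding the image of `S` stays in `F` (`Fg`, `a ⊆ F`) and gives a walk avoiding `S`. If there are `n` disjoint paths `P i`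
(`Linked`) put `l i =` length and `x i j = (P i).getVert j` (injective on positions `≤` length because `P i` is a path: `SimpleGraph.Walk.IsPath.getVert_injOn`; different paths are disjoint).
`lk_clean`: for every path `i` choose `s ≤ t ≤ l i` with `x i s ∈ a`, `x i t ∈ b` and `t - s` minimum, and take the part between. An inner vertex in `a` or `b` would give a smaller difference.
-/

set_option autoImplicit false

namespace Pool.Agent.Helper28.GT

theorem menger_or {J : SimpleGraph ℕ} {F a b : Set ℕ} (hJ : Fg J F) (ha : a ⊆ F) (hb : b ⊆ F)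
    (n : ℕ) : (∃ l x, LK J a b n l x) ∨
      ∃ S : Finset ℕ, S.card < n ∧ ∀ u ∈ a, ∀ v ∈ b, ¬ Jo J {z | z ∉ S} u v := by
  classical
  have hfin : Finite F := hJ.fin.to_subtype
  obtain ⟨G, hG⟩ : ∃ G : SimpleGraph F, G = J.comap (fun v : F => (v : ℕ)) := ⟨_, rfl⟩
  have hGadj : ∀ u v : F, G.Adj u v → J.Adj (u : ℕ) (v : ℕ) := by
    intro u v h
    rw [hG] at h
    exact h
  obtain ⟨A, hA⟩ : ∃ A : Set F, A = {v : F | (v : ℕ) ∈ a} := ⟨_, rfl⟩
  obtain ⟨B, hB⟩ : ∃ B : Set F, B = {v : F | (v : ℕ) ∈ b} := ⟨_, rfl⟩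
  by_cases h : ∀ S : Finset F, S.card < n → ¬ Pool.Agent.Helper57.TOK.Sep G A B S
  · left
    obtain ⟨a', b', P, h1, h2⟩ := Pool.Agent.Helper57.TOK.menger G A B n h
    refine ⟨fun i => (P i).length, fun i j => ((P i).getVert j : ℕ), ?_, ?_, ?_, ?_⟩
    · intro i
      have h3 := (h1 i).1
      rw [hA] at h3
      change (((P i).getVert 0 : F) : ℕ) ∈ a
      rw [SimpleGraph.Walk.getVert_zero]
      exact h3
    · intro i
      have h3 := (h1 i).2.1
      rw [hB] at h3
      change (((P i).getVert (P i).length : F) : ℕ) ∈ b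
      rw [SimpleGraph.Walk.getVert_length]
      exact h3
    · intro i j hj
      have h3 := (P i).adj_getVert_succ hj
      exact hGadj _ _ h3
    · intro i j i' j' hj hj' he
      have he' : (P i).getVert j = (P i').getVert j' := Subtype.ext he
      have hii : i = i' := by
        by_contra hne
        apply h2 i i' hne ((P i).getVert j) ((P i).getVert_mem_support j)
        rw [he']
        exact (P i').getVert_mem_support j'
      subst hii
      exact ⟨rfl, (h1 i).2.2.getVert_injOn hj hj' he'⟩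
  · right
    push Not at h
    obtain ⟨S, hS1, hS2⟩ := h
    refine ⟨S.image (fun v : F => (v : ℕ)), lt_of_le_of_lt Finset.card_image_le hS1, ?_⟩
    intro u hu v hv hJo
    rw [Pool.Agent.Helper57.TOK.sep_iff_reach] at hS2
    have hnot : ∀ w : F, (w : ℕ) ∈ {z | z ∉ S.image (fun v : F => (v : ℕ))} → w ∉ (S : Set F) := by
      intro w hw hwS
      exact hw (Finset.mem_image_of_mem _ (Finset.mem_coe.mp hwS))
    have key : ∀ v, Jo J {z | z ∉ S.image (fun v : F => (v : ℕ))} u v →
        ∃ hv : v ∈ F, (⟨v, hv⟩ : F) ∈ Pool.Agent.Helper57.TOK.Reach G A (S : Set F) := by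
      intro v hv
      induction hv with
      | refl hu' =>
        refine ⟨ha hu, Pool.Agent.Helper57.TOK.reach_of_mem ?_ (hnot ⟨u, ha hu⟩ hu')⟩
        rw [hA]
        exact hu
      | @step v w _ hadj hw ih =>
        obtain ⟨hv, h3⟩ := ih
        refine ⟨(hJ.adj _ _ hadj).2,
          Pool.Agent.Helper57.TOK.reach_adj h3 ?_ (hnot ⟨w, (hJ.adj _ _ hadj).2⟩ hw)⟩
        rw [hG, SimpleGraph.comap_adj]
        exact hadj
    obtain ⟨hvF, h3⟩ := key v hJo
    refine hS2 _ h3 (Pool.Agent.Helper57.TOK.reach_of_mem ?_ (hnot ⟨v, hvF⟩ hJo.right_mem))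
    rw [hB]
    exact hv

theorem lk_clean {J : SimpleGraph ℕ} {a b : Set ℕ} {n : ℕ} {l : Fin n → ℕ}
    {x : Fin n → ℕ → ℕ} (h : LK J a b n l x) :
    ∃ l' x', LK J a b n l' x' ∧ ∀ i j, 0 < j → j < l' i → x' i j ∉ a ∧ x' i j ∉ b := by
  classical
  have hex : ∀ i, ∃ m, ∃ s, s + m ≤ l i ∧ x i s ∈ a ∧ x i (s + m) ∈ b := fun i =>
    ⟨l i, 0, by omega, h.st i, by rw [Nat.zero_add]; exact h.en i⟩
  have hspec := fun i => Nat.find_spec (hex i)
  have hmin : ∀ i m, m < Nat.find (hex i) → ¬ ∃ s, s + m ≤ l i ∧ x i s ∈ a ∧ x i (s + m) ∈ b :=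
    fun i m hm => Nat.find_min (hex i) hm
  obtain ⟨D, hD⟩ : ∃ D : Fin n → ℕ, ∀ i, D i = Nat.find (hex i) := ⟨_, fun _ => rfl⟩
  have hspec' : ∀ i, ∃ s, s + D i ≤ l i ∧ x i s ∈ a ∧ x i (s + D i) ∈ b := by
    intro i
    rw [hD i]
    exact hspec i
  choose s hs1 hs2 hs3 using hspec'
  refine ⟨D, fun i j => x i (s i + j), ⟨?_, ?_, ?_, ?_⟩, ?_⟩
  · intro i
    exact hs2 i
  · intro i
    exact hs3 i
  · intro i j hj
    have h1 := hs1 i
    exact h.adj i (s i + j) (by omega)
  · intro i j i' j' hj hj' he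
    have h1 := hs1 i
    have h2 := hs1 i'
    obtain ⟨h3, h4⟩ := h.inj i (s i + j) i' (s i' + j') (by omega) (by omega) he
    subst h3
    exact ⟨rfl, by omega⟩
  · intro i j hj0 hj
    have h1 := hs1 i
    constructor
    · intro hxa
      apply hmin i (D i - j) (by rw [← hD i]; omega)
      refine ⟨s i + j, by omega, hxa, ?_⟩
      rw [show s i + j + (D i - j) = s i + D i by omega]
      exact hs3 i
    · intro hxb
      apply hmin i j (by rw [← hD i]; exact hj)
      exact ⟨s i, by omega, hs2 i, hxb⟩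

end Pool.Agent.Helper28.GT
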