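import Pool.Agent.Helper28.GT.Defs

/-!
# GT-12: premeshes

`nb Γ C`: the neighbours of `C`. `PM Γ C h W T`: `C` is finite and connected, has at most `h` neighbours, and `T` is a finite connected subgraph of `Γ` with vertex set `W`, disjoint from `C`, containing the neighbours of `C`, of maximum degree at most `3`, of degree at most `2` at the neighbours of `C` and at most
`1` at one of them. `rg Γ C X`: the edges with at least one end in `C` and both ends in `C ∪ X`. `Kc Γ C k`: the neighbours of `C` are linked through `C` (disjoint subsets `Y`, `Z` of equal size at most `k` are joined by `|Y|` disjoint paths). `Cp Γ C S C'`: `C'` is a component of `C \ S`.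
`cp_adj`: take `u ∈ C'`, `s ∈ S` and a walk in `C` from `u` to `s` (induction on `Jo`): the first vertex outside `C'` is in `S` by `closed`, and it is a neighbour of `C'`. `cp_nb`: from `closed`. `cp_of`: the set of vertices joined to `u` inside `C \ S` is a component.
`attach`. Given a premesh for `C`, a component `C'` of `C \ S`, and for every `s ∈ S` a leg: a path `y s 0, ..., y s (m s) = s` in `Γ` with `1 ≤ m s`, `y s 0` a neighbour of `C`, inner vertices in `C \ S` and not in `C'`, legs disjoint; and `y s 0` is not a neighbour of `C'` or has `T`-degree at most `1`. Then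
`C'` has a premesh: `W' = W ∪ {y s j}`, `T'` = `T` and the edges of the legs. The vertices `y s j` with `j ≥ 1` are in `C`, so not in `W`, and have `T'`-degree at most `2`, and `1` for `j = m s`; the vertices `y s 0` get one more neighbour (legs are disjoint), so degree at most `3`; a neighbour of `C'`
is in `S` (degree `1`) or in `nb Γ C` (`cp_nb`), then its degree is the old one (`≤ 2`) unless it is some `y s 0`, and then the old degree was at most `1`. `leaf`: `cp_adj`. `T'` is connected on `W'`: `T` is, and every leg is joined to `y s 0 ∈ W` (`jo_path`).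
-/

set_option autoImplicit false

namespace Pool.Agent.Helper28.GT

/-- the neighbours of `C` -/
def nb (Γ : SimpleGraph ℕ) (C : Set ℕ) : Set ℕ := {v | v ∉ C ∧ ∃ u ∈ C, Γ.Adj u v}

/-- premesh -/
structure PM (Γ : SimpleGraph ℕ) (C : Set ℕ) (h : ℕ) (W : Set ℕ) (T : SimpleGraph ℕ) : Prop where
  fin : C.Finite
  con : Cn Γ C
  card : (nb Γ C).ncard ≤ h
  Wfin : W.Finite
  le : T ≤ Γ
  inW : ∀ u v, T.Adj u v → u ∈ W ∧ v ∈ W
  conW : Cn T W
  dis : Disjoint W C
  nW : nb Γ C ⊆ W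
  deg3 : ∀ v ∈ W, (T.neighborSet v).ncard ≤ 3
  deg2 : ∀ v ∈ nb Γ C, (T.neighborSet v).ncard ≤ 2
  leaf : ∃ v ∈ nb Γ C, (T.neighborSet v).ncard ≤ 1

/-- edges with an end in `C` and both ends in `C ∪ X` -/
def rg (Γ : SimpleGraph ℕ) (C X : Set ℕ) : SimpleGraph ℕ where
  Adj u v := Γ.Adj u v ∧ (u ∈ C ∨ v ∈ C) ∧ u ∈ C ∪ X ∧ v ∈ C ∪ X
  symm := ⟨fun _ _ h => ⟨h.1.symm, h.2.1.symm, h.2.2.2, h.2.2.1⟩⟩
  loopless := ⟨fun _ h => h.1.ne rfl⟩

/-- the neighbours of `C` are linked through `C` -/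
def Kc (Γ : SimpleGraph ℕ) (C : Set ℕ) (k : ℕ) : Prop :=
  ∀ Y Z : Set ℕ, Y ⊆ nb Γ C → Z ⊆ nb Γ C → Disjoint Y Z → Y.ncard = Z.ncard → Y.ncard ≤ k →
    ∃ l x, LK (rg Γ C (Y ∪ Z)) Y Z Y.ncard l x

/-- `C'` is a component of `C \ S` -/
structure Cp (Γ : SimpleGraph ℕ) (C S C' : Set ℕ) : Prop where
  con : Cn Γ C'
  sub : C' ⊆ C \ S
  closed : ∀ u ∈ C', ∀ v ∈ C \ S, Γ.Adj u v → v ∈ C'

/-- there is a mesh -/
def HasMesh (Γ : SimpleGraph ℕ) (h k : ℕ) : Prop :=
  ∃ C W T, PM Γ C h W T ∧ (nb Γ C).ncard = h ∧ Kc Γ C k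

variable {Γ T : SimpleGraph ℕ} {C S C' W : Set ℕ} {h : ℕ}

theorem cp_adj (hC : Cn Γ C) (hS : S ⊆ C) (hSn : S.Nonempty) (hc : Cp Γ C S C') :
    ∃ s ∈ S, s ∈ nb Γ C' := by
  obtain ⟨u, hu⟩ := hc.con.1
  obtain ⟨s, hs⟩ := hSn
  have key : ∀ x, Jo Γ C u x → x ∈ C' ∨ ∃ s ∈ S, s ∈ nb Γ C' := by
    intro x hx
    induction hx with
    | refl _ => exact Or.inl hu
    | @step v w h1 hadj hw ih =>
      rcases ih with ih | ih
      · by_cases hwS : w ∈ S
        · exact Or.inr ⟨w, hwS, fun h => (hc.sub h).2 hwS, v, ih, hadj⟩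
        · exact Or.inl (hc.closed v ih w ⟨hw, hwS⟩ hadj)
      · exact Or.inr ih
  rcases key s (hC.2 u (hc.sub hu).1 s (hS hs)) with h | h
  · exact absurd hs (hc.sub h).2
  · exact h

theorem cp_nb (hc : Cp Γ C S C') : nb Γ C' ⊆ nb Γ C ∪ S := by
  rintro x ⟨hx, u, hu, hadj⟩
  by_cases hxC : x ∈ C
  · by_cases hxS : x ∈ S
    · exact Or.inr hxS
    · exact absurd (hc.closed u hu x ⟨hxC, hxS⟩ hadj) hx
  · exact Or.inl ⟨hxC, u, (hc.sub hu).1, hadj⟩

private theorem jo_restrict {T : SimpleGraph ℕ} {S : Set ℕ} {u x : ℕ} (h : Jo T S u x) :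
    Jo T {y | Jo T S u y} u x := by
  induction h with
  | refl hu => exact Jo.refl (Jo.refl hu)
  | step h1 hadj hw ih => exact Jo.step ih hadj (Jo.step h1 hadj hw)

theorem cp_of {u : ℕ} (hu : u ∈ C \ S) : Cp Γ C S {v | Jo Γ (C \ S) u v} := by
  refine ⟨⟨⟨u, Jo.refl hu⟩, fun a ha b hb => (jo_restrict ha).symm.trans (jo_restrict hb)⟩,
    fun v hv => hv.right_mem, fun a ha v hv hadj => Jo.step ha hadj hv⟩

theorem attach (hPM : PM Γ C h W T) (hSC : S ⊆ C) (hSn : S.Nonempty) (hC' : Cp Γ C S C')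
    (hcard : (nb Γ C').ncard ≤ h) (m : ℕ → ℕ) (y : ℕ → ℕ → ℕ) (hm : ∀ s ∈ S, 1 ≤ m s)
    (h0 : ∀ s ∈ S, y s 0 ∈ nb Γ C ∧ (y s 0 ∉ nb Γ C' ∨ (T.neighborSet (y s 0)).ncard ≤ 1))
    (hin : ∀ s ∈ S, ∀ j, 0 < j → j < m s → y s j ∈ C \ S ∧ y s j ∉ C')
    (hend : ∀ s ∈ S, y s (m s) = s)
    (hadj : ∀ s ∈ S, ∀ j, j < m s → Γ.Adj (y s j) (y s (j + 1)))
    (hinj : ∀ s ∈ S, ∀ s' ∈ S, ∀ j j', j ≤ m s → j' ≤ m s' → y s j = y s' j' →
      s = s' ∧ j = j') : ∃ W' T', PM Γ C' h W' T' := by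
  classical
  have hyC : ∀ s ∈ S, ∀ j, 1 ≤ j → j ≤ m s → y s j ∈ C := by
    intro s hs j h1 h2
    rcases h2.lt_or_eq with h3 | h3
    · exact (hin s hs j h1 h3).1.1
    · rw [h3, hend s hs]
      exact hSC hs
  have hWC : ∀ x, x ∈ W → x ∉ C := fun x hx hc => Set.disjoint_left.1 hPM.dis hx hc
  have hy0W : ∀ s ∈ S, y s 0 ∈ W := fun s hs => hPM.nW (h0 s hs).1
  obtain ⟨W', hW'⟩ : ∃ W' : Set ℕ, W' = W ∪ {x | ∃ s ∈ S, ∃ j, 1 ≤ j ∧ j ≤ m s ∧ x = y s j} :=
    ⟨_, rfl⟩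
  let T' : SimpleGraph ℕ :=
    { Adj := fun u v => T.Adj u v ∨ ∃ s ∈ S, ∃ j, j < m s ∧
        ((u = y s j ∧ v = y s (j + 1)) ∨ (v = y s j ∧ u = y s (j + 1)))
      symm := ⟨by
        rintro u v (h | ⟨s, hs, j, hj, h⟩)
        · exact Or.inl h.symm
        · exact Or.inr ⟨s, hs, j, hj, h.symm⟩⟩
      loopless := ⟨by
        rintro u (h | ⟨s, hs, j, hj, ⟨h1, h2⟩ | ⟨h1, h2⟩⟩)
        · exact h.ne rfl
        · exact (hadj s hs j hj).ne (h1.symm.trans h2)
        · exact (hadj s hs j hj).ne (h1.symm.trans h2)⟩ }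
  have hT' : ∀ u v, T'.Adj u v ↔ (T.Adj u v ∨ ∃ s ∈ S, ∃ j, j < m s ∧
        ((u = y s j ∧ v = y s (j + 1)) ∨ (v = y s j ∧ u = y s (j + 1)))) := fun u v => Iff.rfl
  have hWW' : W ⊆ W' := by rw [hW']; exact Set.subset_union_left
  have hyW' : ∀ s ∈ S, ∀ j, j ≤ m s → y s j ∈ W' := by
    intro s hs j hj
    rcases Nat.eq_zero_or_pos j with h | h
    · rw [h]
      exact hWW' (hy0W s hs)
    · rw [hW']
      exact Or.inr ⟨s, hs, j, h, hj, rfl⟩
  have hWfin : W'.Finite := by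
    refine (hPM.Wfin.union hPM.fin).subset ?_
    rw [hW']
    rintro x (hx | ⟨s, hs, j, h1, h2, rfl⟩)
    · exact Or.inl hx
    · exact Or.inr (hyC s hs j h1 h2)
  have hinW : ∀ u v, T'.Adj u v → u ∈ W' ∧ v ∈ W' := by
    intro u v huv
    rcases (hT' u v).1 huv with h | ⟨s, hs, j, hj, ⟨rfl, rfl⟩ | ⟨rfl, rfl⟩⟩
    · exact ⟨hWW' (hPM.inW u v h).1, hWW' (hPM.inW u v h).2⟩
    · exact ⟨hyW' s hs j hj.le, hyW' s hs (j + 1) hj⟩
    · exact ⟨hyW' s hs (j + 1) hj, hyW' s hs j hj.le⟩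
  have hTfin : ∀ v, (T.neighborSet v).Finite := fun v =>
    hPM.Wfin.subset fun w hw => (hPM.inW v w hw).2
  -- vertices of `W`
  have hdW : ∀ v ∈ W, (∀ s ∈ S, v ≠ y s 0) → T'.neighborSet v ⊆ T.neighborSet v := by
    intro v hv hne w hw
    rcases (hT' v w).1 hw with h | ⟨s, hs, j, hj, ⟨h1, h2⟩ | ⟨h1, h2⟩⟩
    · exact h
    · exfalso
      rcases Nat.eq_zero_or_pos j with h3 | h3
      · rw [h3] at h1
        exact hne s hs h1
      · exact hWC v hv (by rw [h1]; exact hyC s hs j h3 hj.le)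
    · exact absurd (by rw [h2]; exact hyC s hs (j + 1) (by omega) hj) (hWC v hv)
  have hdW0 : ∀ s ∈ S, T'.neighborSet (y s 0) ⊆ T.neighborSet (y s 0) ∪ {y s 1} := by
    intro s hs w hw
    rcases (hT' (y s 0) w).1 hw with h | ⟨s', hs', j, hj, ⟨h1, h2⟩ | ⟨h1, h2⟩⟩
    · exact Or.inl h
    · obtain ⟨rfl, rfl⟩ := hinj s hs s' hs' 0 j (Nat.zero_le _) hj.le h1
      exact Or.inr h2
    · have := (hinj s hs s' hs' 0 (j + 1) (Nat.zero_le _) hj h2).2
      omega
  have hcard0 : ∀ s ∈ S, (T'.neighborSet (y s 0)).ncard ≤ (T.neighborSet (y s 0)).ncard + 1 := by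
    intro s hs
    refine (Set.ncard_le_ncard (hdW0 s hs) ((hTfin _).union (Set.finite_singleton _))).trans ?_
    refine (Set.ncard_union_le _ _).trans ?_
    rw [Set.ncard_singleton]
  have hcardW : ∀ v ∈ W, (∀ s ∈ S, v ≠ y s 0) →
      (T'.neighborSet v).ncard ≤ (T.neighborSet v).ncard := by
    intro v hv hne
    exact Set.ncard_le_ncard (hdW v hv hne) (hTfin _)
  -- new vertices
  have hTe : ∀ v, v ∈ C → ∀ w, ¬ T.Adj v w := fun v hv w hw => hWC v (hPM.inW v w hw).1 hv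
  have hcardy : ∀ s ∈ S, ∀ j, 1 ≤ j → j ≤ m s → (T'.neighborSet (y s j)).ncard ≤ 2 := by
    intro s hs j h1 h2
    have hsub : T'.neighborSet (y s j) ⊆ {y s (j - 1)} ∪ {y s (j + 1)} := by
      intro w hw
      rcases (hT' (y s j) w).1 hw with h | ⟨s', hs', j', hj', ⟨h3, h4⟩ | ⟨h3, h4⟩⟩
      · exact absurd h (hTe _ (hyC s hs j h1 h2) w)
      · obtain ⟨rfl, rfl⟩ := hinj s hs s' hs' j j' h2 hj'.le h3
        exact Or.inr h4
      · obtain ⟨rfl, rfl⟩ := hinj s hs s' hs' j (j' + 1) h2 hj' h4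
        exact Or.inl (by simpa using h3)
    refine (Set.ncard_le_ncard hsub ((Set.finite_singleton _).union (Set.finite_singleton _))).trans ?_
    refine (Set.ncard_union_le _ _).trans ?_
    rw [Set.ncard_singleton, Set.ncard_singleton]
  have hcards : ∀ s ∈ S, (T'.neighborSet s).ncard ≤ 1 := by
    intro s hs
    have hsub : T'.neighborSet s ⊆ {y s (m s - 1)} := by
      intro w hw
      have hse := hend s hs
      rcases (hT' s w).1 hw with h | ⟨s', hs', j', hj', ⟨h3, h4⟩ | ⟨h3, h4⟩⟩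
      · exact absurd h (hTe _ (hSC hs) w)
      · have := hinj s hs s' hs' (m s) j' le_rfl hj'.le (hse.trans h3)
        obtain ⟨rfl, h5⟩ := this
        omega
      · have := hinj s hs s' hs' (m s) (j' + 1) le_rfl hj' (hse.trans h4)
        obtain ⟨rfl, h5⟩ := this
        have h6 : m s - 1 = j' := by omega
        rw [h6]
        exact h3
    refine (Set.ncard_le_ncard hsub (Set.finite_singleton _)).trans ?_
    rw [Set.ncard_singleton]
  refine ⟨W', T', hPM.fin.subset fun x hx => (hC'.sub hx).1, hC'.con, hcard, hWfin, ?_, hinW, ?_, ?_,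
    ?_, ?_, ?_, ?_⟩
  · intro u v huv
    rcases (hT' u v).1 huv with h | ⟨s, hs, j, hj, ⟨rfl, rfl⟩ | ⟨rfl, rfl⟩⟩
    · exact hPM.le h
    · exact hadj s hs j hj
    · exact (hadj s hs j hj).symm
  · obtain ⟨w0, hw0⟩ := hPM.conW.1
    have hTT' : T ≤ T' := fun u v huv => (hT' u v).2 (Or.inl huv)
    have key : ∀ x ∈ W', Jo T' W' w0 x := by
      intro x hx
      rw [hW'] at hx
      rcases hx with hx | ⟨s, hs, j, h1, h2, rfl⟩
      · exact (hPM.conW.2 w0 hw0 x hx).mono hWW' hTT'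
      · refine ((hPM.conW.2 w0 hw0 _ (hy0W s hs)).mono hWW' hTT').trans ?_
        refine jo_path (Nat.zero_le j) (fun i _ hi => hyW' s hs i (hi.trans h2)) fun i _ hi => ?_
        exact (hT' _ _).2 (Or.inr ⟨s, hs, i, lt_of_lt_of_le hi h2, Or.inl ⟨rfl, rfl⟩⟩)
    exact ⟨⟨w0, hWW' hw0⟩, fun u hu v hv => (key u hu).symm.trans (key v hv)⟩
  · rw [Set.disjoint_left]
    intro x hx hxC'
    rw [hW'] at hx
    rcases hx with hx | ⟨s, hs, j, h1, h2, rfl⟩
    · exact hWC x hx (hC'.sub hxC').1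
    · rcases h2.lt_or_eq with h3 | h3
      · exact (hin s hs j h1 h3).2 hxC'
      · rw [h3, hend s hs] at hxC'
        exact (hC'.sub hxC').2 hs
  · intro x hx
    rcases cp_nb hC' hx with h | h
    · exact hWW' (hPM.nW h)
    · have := hyW' x h (m x) le_rfl
      rwa [hend x h] at this
  · intro v hv
    rw [hW'] at hv
    rcases hv with hv | ⟨s, hs, j, h1, h2, rfl⟩
    · by_cases hne : ∀ s ∈ S, v ≠ y s 0
      · exact (hcardW v hv hne).trans (hPM.deg3 v hv)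
      · push Not at hne
        obtain ⟨s, hs, rfl⟩ := hne
        have g1 := hcard0 s hs
        have g2 := hPM.deg2 _ (h0 s hs).1
        omega
    · have := hcardy s hs j h1 h2
      omega
  · intro v hv
    rcases cp_nb hC' hv with h | h
    · by_cases hne : ∀ s ∈ S, v ≠ y s 0
      · exact (hcardW v (hPM.nW h) hne).trans (hPM.deg2 v h)
      · push Not at hne
        obtain ⟨s, hs, rfl⟩ := hne
        have g1 := hcard0 s hs
        rcases (h0 s hs).2 with g2 | g2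
        · exact absurd hv g2
        · omega
    · have := hcards v h
      omega
  · obtain ⟨s, hs, hs2⟩ := cp_adj hPM.con hSC hSn hC'
    exact ⟨s, hs2, hcards s hs⟩

end Pool.Agent.Helper28.GT
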