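import Pool.Agent.Helper28.GT.Mesh
import Pool.Agent.Helper28.GT.MengerOr

/-!
# GT-13: one step towards a decomposition

Let `C` have a premesh and suppose it has fewer than `h` neighbours or its neighbours are not `k`-linked through `C`. Then there is a nonempty `S ⊆ C` with at most `k` elements such that every component of `C \ S` has a premesh.
Case 1: fewer than `h` neighbours. Let `v` be the neighbour of `T`-degree at most `1`, `u ∈ C` adjacent to `v`, `S = {u}`. For a component `C'` of `C \ {u}`: `nb Γ C' ⊆ nb Γ C ∪ {u}` has at most `h` elements; `attach` with the leg `v, u` (`m u = 1`).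
Case 2 (`mesh_step2`): `Kc` fails: `Y`, `Z ⊆ nb Γ C` disjoint, `|Y| = |Z| = n ≤ k`, and there is no family of `n` disjoint paths from `Y` to `Z` in `J = rg Γ C (Y ∪ Z)` (finite, `Fg J (C ∪ Y ∪ Z)`). Let `n'` be the largest number for which there is a family of `n'` disjoint paths (`LK.take`: `n' < n`). `menger_or` for `n' + 1` gives a separator `S0`,
`|S0| ≤ n'`. Take a family of `n'` paths, clean (`lk_clean`): inner vertices are in `C`. Every path contains an element of `S0`, so exactly one, at position `t i`, and `S0` is the set of these. `S = S0 ∩ C`, so `|S| ≤ n' < n ≤ k`. `S` is nonempty: there are `y ∈ Y \ S0`, `z ∈ Z \ S0` (as `|S0| < n`), both adjacent to the connected set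
`C`, so if `S0 ∩ C` were empty they would be joined in `J` avoiding `S0`. Let `C'` be a component of `C \ S`. It cannot have neighbours in both `Y \ S0` and `Z \ S0`. Suppose it has none in `Y \ S0`. Legs: for `s ∈ S` let `i` be the path with `x i (t i) = s`, `m s = t i ≥ 1` (as `x i 0 ∈ Y` is not in `C`), `y s j = x i j`. `y s 0 ∈ Y \ S0` (only one
element of `S0` on the path) is not a neighbour of `C'`. Inner vertices are in `C \ S`; they are not in `C'`: otherwise going back along the path (`closed`) `x i 1 ∈ C'` and `y s 0` is a neighbour of `C'`. `|nb Γ C'| ≤ |nb Γ C| - |Y \ S0| + |S|` and `|Y \ S0| ≥ n - |S0 ∩ Y|`, `|S0 ∩ Y| + |S| ≤ |S0| < n`, so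
it is at most `h`. `attach`. If `C'` has no neighbours in `Z \ S0` use the other ends of the paths: `y s j = x i (l i - j)`, `m s = l i - t i`.
-/

set_option autoImplicit false

namespace Pool.Agent.Helper28.GT

variable {Γ T : SimpleGraph ℕ} {C W : Set ℕ} {h k : ℕ}

private theorem nb_fin (hPM : PM Γ C h W T) : (nb Γ C).Finite := hPM.Wfin.subset hPM.nW

private theorem half (hPM : PM Γ C h W T) {C' S : Set ℕ} {Y : Set ℕ} (hY : Y ⊆ nb Γ C)
    {S0 : Finset ℕ} (hS : S = {z | z ∈ S0 ∧ z ∈ C}) (hSn : S.Nonempty) (hC' : Cp Γ C S C')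
    {n' : ℕ} {l : Fin n' → ℕ} {x : Fin n' → ℕ → ℕ} {t : Fin n' → ℕ}
    (hx0 : ∀ i, x i 0 ∈ Y) (ht : ∀ i, t i ≤ l i)
    (hxin : ∀ i j, 0 < j → j < l i → x i j ∈ C)
    (hadj : ∀ i j, j < l i → Γ.Adj (x i j) (x i (j + 1)))
    (hinj : ∀ i j i' j', j ≤ l i → j' ≤ l i' → x i j = x i' j' → i = i' ∧ j = j')
    (huniq : ∀ i j, j ≤ l i → (x i j ∈ S0 ↔ j = t i))
    (hsurj : ∀ s ∈ S0, ∃ i, x i (t i) = s) (hYcard : S0.card < Y.ncard)
    (hno : ∀ v ∈ Y, v ∉ S0 → v ∉ nb Γ C') : ∃ W' T', PM Γ C' h W' T' := by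
  classical
  have hSC : S ⊆ C := by
    rw [hS]
    exact fun z hz => hz.2
  have hch : ∀ s, ∃ (ms : ℕ) (ys : ℕ → ℕ), s ∈ S → ∃ i, x i (t i) = s ∧ ms = t i ∧ ys = x i := by
    intro s
    by_cases hs : s ∈ S
    · have hs' := hs
      rw [hS] at hs'
      obtain ⟨i, hi⟩ := hsurj s hs'.1
      exact ⟨t i, x i, fun _ => ⟨i, hi, rfl, rfl⟩⟩
    · exact ⟨0, fun _ => 0, fun h => absurd h hs⟩
  choose m y hmy using hch
  have hYC : ∀ v ∈ Y, v ∉ C := fun v hv => (hY hv).1
  have htpos : ∀ i, x i (t i) ∈ C → 1 ≤ t i := by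
    intro i hi
    by_contra hcon
    have h0 : t i = 0 := by omega
    rw [h0] at hi
    exact hYC _ (hx0 i) hi
  -- elements of `S` are not in `Y`
  have hnbfin := nb_fin hPM
  have hYfin : Y.Finite := hnbfin.subset hY
  have hSfin : S.Finite := hPM.fin.subset hSC
  have hcard : (nb Γ C').ncard ≤ h := by
    have h1 : nb Γ C' ⊆ (nb Γ C \ (Y \ (S0 : Set ℕ))) ∪ S := by
      intro v hv
      rcases cp_nb hC' hv with h | h
      · refine Or.inl ⟨h, ?_⟩
        rintro ⟨h2, h3⟩
        exact hno v h2 (fun h4 => h3 (Finset.mem_coe.2 h4)) hv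
      · exact Or.inr h
    have h2 := (Set.ncard_le_ncard h1 ((hnbfin.subset Set.sdiff_subset).union hSfin)).trans
      (Set.ncard_union_le _ _)
    have h3 : (nb Γ C \ (Y \ (S0 : Set ℕ))).ncard + (Y \ (S0 : Set ℕ)).ncard = (nb Γ C).ncard :=
      Set.ncard_sdiff_add_ncard_of_subset (Set.sdiff_subset.trans hY) hnbfin
    have h4 : (Y \ (S0 : Set ℕ)).ncard + (Y ∩ (S0 : Set ℕ)).ncard = Y.ncard := by
      rw [← Set.ncard_union_eq (Set.disjoint_sdiff_inter) (hYfin.subset Set.sdiff_subset)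
        (hYfin.subset Set.inter_subset_left), Set.sdiff_union_inter]
    have h5 : S.ncard + (Y ∩ (S0 : Set ℕ)).ncard ≤ S0.card := by
      have h6 : Disjoint S (Y ∩ (S0 : Set ℕ)) := by
        rw [Set.disjoint_left]
        rintro v hv ⟨h7, -⟩
        exact hYC v h7 (hSC hv)
      rw [← Set.ncard_union_eq h6 hSfin (hYfin.subset Set.inter_subset_left),
        ← Set.ncard_coe_finset S0]
      refine Set.ncard_le_ncard ?_ (Finset.finite_toSet S0)
      rintro v (hv | hv)
      · rw [hS] at hv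
        exact hv.1
      · exact hv.2
    have h6 := hPM.card
    omega
  refine attach hPM hSC hSn hC' hcard m y ?_ ?_ ?_ ?_ ?_ ?_
  · intro s hs
    obtain ⟨i, h1, h2, h3⟩ := hmy s hs
    rw [h2]
    exact htpos i (by rw [h1]; exact hSC hs)
  · intro s hs
    obtain ⟨i, h1, h2, h3⟩ := hmy s hs
    have h4 := htpos i (by rw [h1]; exact hSC hs)
    rw [h3]
    refine ⟨hY (hx0 i), Or.inl (hno _ (hx0 i) fun h5 => ?_)⟩
    have h6 := (huniq i 0 (Nat.zero_le _)).1 h5
    omega
  · intro s hs j hj0 hj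
    obtain ⟨i, h1, h2, h3⟩ := hmy s hs
    rw [h2] at hj
    rw [h3]
    have hti := ht i
    have hCS : ∀ q, 0 < q → q < t i → x i q ∈ C \ S := by
      intro q hq1 hq2
      refine ⟨hxin i q hq1 (by omega), fun h5 => ?_⟩
      rw [hS] at h5
      have h6 := (huniq i q (by omega)).1 h5.1
      omega
    refine ⟨hCS j hj0 hj, fun h5 => ?_⟩
    have key : ∀ q, q < j → x i (j - q) ∈ C' := by
      intro q
      induction q with
      | zero => intro _; exact h5
      | succ q ih =>
        intro hq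
        have h6 := ih (by omega)
        have h7 := hadj i (j - (q + 1)) (by omega)
        rw [show j - (q + 1) + 1 = j - q by omega] at h7
        exact hC'.closed _ h6 _ (hCS (j - (q + 1)) (by omega) (by omega)) h7.symm
    have h6 := key (j - 1) (by omega)
    rw [show j - (j - 1) = 1 by omega] at h6
    have h7 := hadj i 0 (by omega)
    refine hno _ (hx0 i) (fun h8 => ?_) ⟨fun h8 => hYC _ (hx0 i) (hC'.sub h8).1, x i 1, h6, h7.symm⟩
    have h9 := (huniq i 0 (Nat.zero_le _)).1 h8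
    omega
  · intro s hs
    obtain ⟨i, h1, h2, h3⟩ := hmy s hs
    rw [h2, h3, h1]
  · intro s hs j hj
    obtain ⟨i, h1, h2, h3⟩ := hmy s hs
    rw [h2] at hj
    rw [h3]
    exact hadj i j (lt_of_lt_of_le hj (ht i))
  · intro s hs s' hs' j j' hj hj' he
    obtain ⟨i, h1, h2, h3⟩ := hmy s hs
    obtain ⟨i', h1', h2', h3'⟩ := hmy s' hs'
    rw [h2] at hj
    rw [h2'] at hj'
    rw [h3, h3'] at he
    obtain ⟨h4, h5⟩ := hinj i j i' j' (hj.trans (ht i)) (hj'.trans (ht i')) he
    refine ⟨?_, h5⟩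
    rw [← h1, ← h1', h4]

theorem mesh_step2 (hPM : PM Γ C h W T) (hno : ¬ Kc Γ C k) :
    ∃ S ⊆ C, S.Nonempty ∧ S.ncard ≤ k ∧ ∀ C', Cp Γ C S C' → ∃ W' T', PM Γ C' h W' T' := by
  classical
  unfold Kc at hno
  push Not at hno
  obtain ⟨Y, Z, hY, hZ, hYZ, hcard, hYk, hnoLK⟩ := hno
  obtain ⟨J, hJ⟩ : ∃ J, J = rg Γ C (Y ∪ Z) := ⟨_, rfl⟩
  rw [← hJ] at hnoLK
  have hJadj : ∀ u v, J.Adj u v ↔ (Γ.Adj u v ∧ (u ∈ C ∨ v ∈ C) ∧ u ∈ C ∪ (Y ∪ Z) ∧ v ∈ C ∪ (Y ∪ Z)) := by
    intro u v
    rw [hJ]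
    exact Iff.rfl
  have hnbfin := nb_fin hPM
  have hYfin : Y.Finite := hnbfin.subset hY
  have hZfin : Z.Finite := hnbfin.subset hZ
  have hFg : Fg J (C ∪ (Y ∪ Z)) :=
    ⟨hPM.fin.union (hYfin.union hZfin), fun u v huv => ⟨((hJadj u v).1 huv).2.2.1, ((hJadj u v).1 huv).2.2.2⟩⟩
  have hYF : Y ⊆ C ∪ (Y ∪ Z) := fun v hv => Or.inr (Or.inl hv)
  have hZF : Z ⊆ C ∪ (Y ∪ Z) := fun v hv => Or.inr (Or.inr hv)
  have hex : ∃ q, ¬ ∃ l x, LK J Y Z q l x := by
    refine ⟨Y.ncard, ?_⟩
    rintro ⟨l, x, hlx⟩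
    exact hnoLK l x hlx
  obtain ⟨n', hn'1, hn'2, hn'3⟩ : ∃ n', (∃ l x, LK J Y Z n' l x) ∧ (¬ ∃ l x, LK J Y Z (n' + 1) l x) ∧
      n' < Y.ncard := by
    have h1 := Nat.find_spec hex
    have h2 : Nat.find hex ≠ 0 := by
      intro h0
      rw [h0] at h1
      exact h1 ⟨fun _ => 0, fun _ _ => 0, ⟨fun i => i.elim0, fun i => i.elim0, fun i => i.elim0,
        fun i => i.elim0⟩⟩
    have h3 : Nat.find hex ≤ Y.ncard := by
      refine Nat.find_min' hex ?_
      rintro ⟨l, x, hlx⟩
      exact hnoLK l x hlx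
    refine ⟨Nat.find hex - 1, ?_, ?_, by omega⟩
    · have h4 := Nat.find_min hex (m := Nat.find hex - 1) (by omega)
      rwa [not_not] at h4
    · rw [show Nat.find hex - 1 + 1 = Nat.find hex by omega]
      exact h1
  obtain ⟨S0, hS0card, hS0⟩ := (menger_or hFg hYF hZF (n' + 1)).resolve_left hn'2
  obtain ⟨l₁, x₁, hLK₁⟩ := hn'1
  obtain ⟨l, x, hLK, hclean⟩ := lk_clean hLK₁
  have hlpos : ∀ i, 1 ≤ l i := by
    intro i
    by_contra hcon
    have h0 : l i = 0 := by omega
    have h1 := hLK.en i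
    rw [h0] at h1
    exact Set.disjoint_left.1 hYZ (hLK.st i) h1
  have hxin : ∀ i j, 0 < j → j < l i → x i j ∈ C := by
    intro i j h1 h2
    have h3 := ((hJadj _ _).1 (hLK.adj i j h2)).2.2.1
    obtain ⟨h4, h5⟩ := hclean i j h1 h2
    rcases h3 with h3 | h3 | h3
    · exact h3
    · exact absurd h3 h4
    · exact absurd h3 h5
  have hext : ∀ i, ∃ j, j ≤ l i ∧ x i j ∈ S0 := by
    intro i
    by_contra hcon
    push Not at hcon
    refine hS0 _ (hLK.st i) _ (hLK.en i) ?_
    exact jo_path (Nat.zero_le _) (fun j _ hj => hcon j hj) fun j _ hj => hLK.adj i j hj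
  choose t ht1 ht2 using hext
  have htinj : Function.Injective (fun i => x i (t i)) := by
    intro i i' he
    exact (hLK.inj i (t i) i' (t i') (ht1 i) (ht1 i') he).1
  have himg : Finset.univ.image (fun i => x i (t i)) = S0 := by
    apply Finset.eq_of_subset_of_card_le
    · intro s hs
      obtain ⟨i, -, rfl⟩ := Finset.mem_image.1 hs
      exact ht2 i
    · rw [Finset.card_image_of_injective _ htinj, Finset.card_univ, Fintype.card_fin]
      omega
  have hsurj : ∀ s ∈ S0, ∃ i, x i (t i) = s := by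
    intro s hs
    rw [← himg] at hs
    obtain ⟨i, -, hi⟩ := Finset.mem_image.1 hs
    exact ⟨i, hi⟩
  have huniq : ∀ i j, j ≤ l i → (x i j ∈ S0 ↔ j = t i) := by
    intro i j hj
    constructor
    · intro h1
      obtain ⟨i', h2⟩ := hsurj _ h1
      obtain ⟨h3, h4⟩ := hLK.inj i' (t i') i j (ht1 i') hj h2
      rw [← h4, h3]
    · rintro rfl
      exact ht2 i
  obtain ⟨S, hS⟩ : ∃ S : Set ℕ, S = {z | z ∈ S0 ∧ z ∈ C} := ⟨_, rfl⟩
  have hSC : S ⊆ C := by
    rw [hS]
    exact fun z hz => hz.2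
  -- walks inside `C`
  have hwalk : ∀ A : Set ℕ, A ⊆ C → (∀ z ∈ A, z ∉ S0) → ∀ u v, Jo Γ A u v → Jo J {z | z ∉ S0} u v := by
    intro A hA hAS u v huv
    induction huv with
    | refl hu => exact Jo.refl (hAS _ hu)
    | @step v w h1 hadj hw ih =>
      refine Jo.step ih ((hJadj v w).2 ⟨hadj, Or.inr (hA hw), Or.inl (hA h1.right_mem), Or.inl (hA hw)⟩)
        (hAS _ hw)
  have hbridge : ∀ A : Set ℕ, A ⊆ C → (∀ z ∈ A, z ∉ S0) → (∀ u ∈ A, ∀ v ∈ A, Jo Γ A u v) →
      ∀ a ∈ Y, ∀ b ∈ Z, a ∉ S0 → b ∉ S0 → (∃ u ∈ A, Γ.Adj u a) → (∃ v ∈ A, Γ.Adj v b) → False := by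
    intro A hA hAS hAc a ha b hb haS hbS hua hvb
    obtain ⟨u, hu, hua⟩ := hua
    obtain ⟨v, hv, hvb⟩ := hvb
    refine hS0 a ha b hb ?_
    have h1 : Jo J {z | z ∉ S0} a u :=
      Jo.edge haS (hAS u hu) ((hJadj a u).2 ⟨hua.symm, Or.inr (hA hu), hYF ha, Or.inl (hA hu)⟩)
    have h2 : Jo J {z | z ∉ S0} v b :=
      Jo.edge (hAS v hv) hbS ((hJadj v b).2 ⟨hvb, Or.inl (hA hv), Or.inl (hA hv), hZF hb⟩)
    exact (h1.trans (hwalk A hA hAS u v (hAc u hu v hv))).trans h2
  have hYne : ∃ a ∈ Y, a ∉ S0 := by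
    by_contra hcon
    push Not at hcon
    have h1 : Y.ncard ≤ S0.card := by
      rw [← Set.ncard_coe_finset S0]
      exact Set.ncard_le_ncard (fun v hv => hcon v hv) (Finset.finite_toSet S0)
    omega
  have hZne : ∃ b ∈ Z, b ∉ S0 := by
    by_contra hcon
    push Not at hcon
    have h1 : Z.ncard ≤ S0.card := by
      rw [← Set.ncard_coe_finset S0]
      exact Set.ncard_le_ncard (fun v hv => hcon v hv) (Finset.finite_toSet S0)
    omega
  have hSn : S.Nonempty := by
    by_contra hcon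
    rw [Set.not_nonempty_iff_eq_empty] at hcon
    obtain ⟨a, ha, haS⟩ := hYne
    obtain ⟨b, hb, hbS⟩ := hZne
    refine hbridge C subset_rfl ?_ hPM.con.2 a ha b hb haS hbS (hY ha).2 (hZ hb).2
    intro z hz hzS
    have : z ∈ S := by
      rw [hS]
      exact ⟨hzS, hz⟩
    rw [hcon] at this
    exact this
  refine ⟨S, hSC, hSn, ?_, fun C' hC' => ?_⟩
  · have h1 : S.ncard ≤ S0.card := by
      rw [← Set.ncard_coe_finset S0]
      refine Set.ncard_le_ncard ?_ (Finset.finite_toSet S0)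
      rw [hS]
      exact fun z hz => hz.1
    omega
  · have hor : (∀ v ∈ Y, v ∉ S0 → v ∉ nb Γ C') ∨ (∀ v ∈ Z, v ∉ S0 → v ∉ nb Γ C') := by
      by_contra hcon
      push Not at hcon
      obtain ⟨⟨a, ha, haS, hanb⟩, b, hb, hbS, hbnb⟩ := hcon
      refine hbridge C' (fun z hz => (hC'.sub hz).1) ?_ hC'.con.2 a ha b hb haS hbS hanb.2 hbnb.2
      intro z hz hzS
      refine (hC'.sub hz).2 ?_
      rw [hS]
      exact ⟨hzS, (hC'.sub hz).1⟩
    rcases hor with hor | hor
    · exact half hPM hY hS hSn hC' hLK.st ht1 hxin (fun i j hj => ((hJadj _ _).1 (hLK.adj i j hj)).1)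
        hLK.inj huniq hsurj (by omega) hor
    · refine half (l := l) (x := fun i j => x i (l i - j)) (t := fun i => l i - t i) hPM hZ hS hSn hC'
        ?_ ?_ ?_ ?_ ?_ ?_ ?_ (by omega) hor
      · intro i
        exact hLK.en i
      · intro i
        exact Nat.sub_le _ _
      · intro i j h1 h2
        exact hxin i (l i - j) (by omega) (by omega)
      · intro i j hj
        have h1 := ((hJadj _ _).1 (hLK.adj i (l i - (j + 1)) (by omega))).1
        rw [show l i - (j + 1) + 1 = l i - j by omega] at h1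
        exact h1.symm
      · intro i j i' j' hj hj' he
        obtain ⟨h1, h2⟩ := hLK.inj i (l i - j) i' (l i' - j') (Nat.sub_le _ _) (Nat.sub_le _ _) he
        subst h1
        exact ⟨rfl, by omega⟩
      · intro i j hj
        have h1 := huniq i (l i - j) (Nat.sub_le _ _)
        have h2 := ht1 i
        constructor
        · intro h3
          have h4 := h1.1 h3
          show j = l i - t i
          omega
        · intro h3
          have h3' : j = l i - t i := h3
          exact h1.2 (by omega)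
      · intro s hs
        obtain ⟨i, hi⟩ := hsurj s hs
        refine ⟨i, ?_⟩
        have h2 := ht1 i
        show x i (l i - (l i - t i)) = s
        rw [show l i - (l i - t i) = t i by omega]
        exact hi

theorem mesh_step (hPM : PM Γ C h W T) (hk : 1 ≤ k) (hno : (nb Γ C).ncard < h ∨ ¬ Kc Γ C k) :
    ∃ S ⊆ C, S.Nonempty ∧ S.ncard ≤ k ∧ ∀ C', Cp Γ C S C' → ∃ W' T', PM Γ C' h W' T' := by
  rcases hno with hno | hno
  · obtain ⟨v, hv, hvd⟩ := hPM.leaf
    obtain ⟨hvC, u, hu, hadj⟩ := hv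
    refine ⟨{u}, Set.singleton_subset_iff.2 hu, Set.singleton_nonempty u, ?_, fun C' hC' => ?_⟩
    · rw [Set.ncard_singleton]
      exact hk
    · have huv : v ≠ u := fun h => hvC (h ▸ hu)
      have hcard : (nb Γ C').ncard ≤ h := by
        have h1 := (Set.ncard_le_ncard (cp_nb hC') ((nb_fin hPM).union (Set.finite_singleton u))).trans
          (Set.ncard_union_le _ _)
        rw [Set.ncard_singleton] at h1
        omega
      refine attach hPM (Set.singleton_subset_iff.2 hu) (Set.singleton_nonempty u) hC' hcard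
        (fun _ => 1) (fun s j => if j = 0 then v else s) (fun _ _ => le_rfl) ?_ ?_ ?_ ?_ ?_
      · intro s _
        simp only [if_true]
        exact ⟨⟨hvC, u, hu, hadj⟩, Or.inr hvd⟩
      · intro s _ j h1 h2
        omega
      · intro s _
        simp only [one_ne_zero, if_false]
      · intro s hs j hj
        have h0 : j = 0 := by omega
        have hsu : s = u := hs
        subst h0
        simp only [if_true, zero_add, one_ne_zero, if_false]
        rw [hsu]
        exact hadj.symm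
      · intro s hs s' hs' j j' hj hj' he
        have hsu : s = u := hs
        have hsu' : s' = u := hs'
        rw [hsu, hsu'] at he ⊢
        refine ⟨rfl, ?_⟩
        by_cases h1 : j = 0
        · by_cases h2 : j' = 0
          · omega
          · simp only [h1, h2, if_true, if_false] at he
            exact absurd he huv
        · by_cases h2 : j' = 0
          · simp only [h1, h2, if_true, if_false] at he
            exact absurd he.symm huv
          · omega
  · exact mesh_step2 hPM hno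

end Pool.Agent.Helper28.GT
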