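import Pool.Agent.Helper28.GT.Mesh
import Pool.Agent.Helper28.GT.MengerOr
import Pool.Agent.Helper28.GT.Cut

/-!
# GT-16: terminals from a mesh

`tm Γ A C`: the vertices of `C` with a neighbour in `A`. From a mesh of order `3 * k * m` we get disjoint connected sets `A 0, ..., A (m-1)`, disjoint from `C`, such that any two of them are joined by `k` disjoint paths inside `C` from `tm Γ (A i) C` to `tm Γ (A j) C`.
Proof. `parts` for `T`, `W`, `X = nb Γ C` (`nb Γ C ⊆ W`, so `W ∩ X = nb Γ C`; neighbour sets of `T` are subsets of the finite `W`). `T ≤ Γ`, `W` is disjoint from `C`. For `i ≠ j` choose `Y ⊆ A i ∩ nb Γ C`, `Z ⊆ A j ∩ nb Γ C` with exactly `k` elements; `Kc` gives `k` disjoint paths in `rg Γ C (Y ∪ Z)`, made clean by `lk_clean`. A path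
has length at least `2`: `Y`, `Z` are disjoint and disjoint from `C`, and an edge of `rg` has an end in `C`. Drop both ends: `x' s = x (s + 1)`, `l' = l - 2`; the inner vertices are in `C ∪ Y ∪ Z` (ends of edges) and not in `Y ∪ Z`, so in `C`; the first is adjacent to `x 0 ∈ A i`.
-/

set_option autoImplicit false

namespace Pool.Agent.Helper28.GT

/-- the vertices of `C` with a neighbour in `A` -/
def tm (Γ : SimpleGraph ℕ) (A C : Set ℕ) : Set ℕ := {v | v ∈ C ∧ ∃ u ∈ A, Γ.Adj u v}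

theorem mesh_use {Γ : SimpleGraph ℕ} {k m : ℕ} (hk : 1 ≤ k) (h : HasMesh Γ (3 * k * m) k) :
    ∃ (C : Set ℕ) (A : ℕ → Set ℕ), C.Finite ∧ (∀ i, i < m → Cn Γ (A i) ∧ Disjoint (A i) C) ∧
      (∀ i j, i < m → j < m → i ≠ j → Disjoint (A i) (A j)) ∧
      ∀ i j, i < m → j < m → i ≠ j →
        ∃ l x, LK (rs Γ C) (tm Γ (A i) C) (tm Γ (A j) C) k l x := by
  obtain ⟨C, W, T, hPM, hcard, hK⟩ := h
  have h3 : ∀ v ∈ W, (T.neighborSet v).Finite ∧ (T.neighborSet v).ncard ≤ 3 := by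
    intro v hv
    refine ⟨hPM.Wfin.subset ?_, hPM.deg3 v hv⟩
    intro u hu
    exact (hPM.inW v u hu).2
  have hWX : W ∩ nb Γ C = nb Γ C := Set.inter_eq_self_of_subset_right hPM.nW
  obtain ⟨A, hA, hdis⟩ := parts hPM.Wfin hPM.conW h3 (X := nb Γ C) hk m (by rw [hWX, hcard])
  refine ⟨C, A, hPM.fin, ?_, hdis, ?_⟩
  · intro i hi
    exact ⟨(hA i hi).2.1.mono_graph hPM.le, hPM.dis.mono_left (hA i hi).1⟩
  intro i j hi hj hij
  obtain ⟨Y, hY, hYk⟩ := Set.exists_subset_card_eq (hA i hi).2.2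
  obtain ⟨Z, hZ, hZk⟩ := Set.exists_subset_card_eq (hA j hj).2.2
  have hYA : Y ⊆ A i := fun v hv => (hY hv).1
  have hZA : Z ⊆ A j := fun v hv => (hZ hv).1
  have hYn : Y ⊆ nb Γ C := fun v hv => (hY hv).2
  have hZn : Z ⊆ nb Γ C := fun v hv => (hZ hv).2
  have hYZ : Disjoint Y Z := (hdis i j hi hj hij).mono hYA hZA
  have hL := hK Y Z hYn hZn hYZ (hYk.trans hZk.symm) hYk.le
  rw [hYk] at hL
  obtain ⟨l0, x0, hl0⟩ := hL
  obtain ⟨l, x, hl, hcl⟩ := lk_clean hl0
  have hYC : ∀ v ∈ Y, v ∉ C := fun v hv => (hYn hv).1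
  have hZC : ∀ v ∈ Z, v ∉ C := fun v hv => (hZn hv).1
  have hlen : ∀ s, 2 ≤ l s := by
    intro s
    by_contra hcon
    have h5 : l s = 0 ∨ l s = 1 := by omega
    rcases h5 with h5 | h5
    · have h6 := hl.en s
      rw [h5] at h6
      exact Set.disjoint_left.1 hYZ (hl.st s) h6
    · have h6 := hl.en s
      rw [h5] at h6
      have h7 := hl.adj s 0 (by omega)
      rcases h7.2.1 with h8 | h8
      · exact hYC _ (hl.st s) h8
      · exact hZC _ h6 h8
  have hinC : ∀ s t, 0 < t → t < l s → x s t ∈ C := by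
    intro s t ht0 ht
    have h7 := hl.adj s t ht
    have h8 := hcl s t ht0 ht
    rcases h7.2.2.1 with h9 | h9 | h9
    · exact h9
    · exact absurd h9 h8.1
    · exact absurd h9 h8.2
  refine ⟨fun s => l s - 2, fun s t => x s (t + 1), ?_, ?_, ?_, ?_⟩
  · intro s
    have h1 := hlen s
    refine ⟨hinC s 1 (by omega) (by omega), x s 0, hYA (hl.st s), ?_⟩
    exact (hl.adj s 0 (by omega)).1
  · intro s
    have h1 := hlen s
    have h2 : l s - 2 + 1 + 1 = l s := by omega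
    refine ⟨hinC s (l s - 2 + 1) (by omega) (by omega), x s (l s), hZA (hl.en s), ?_⟩
    have h3 := (hl.adj s (l s - 2 + 1) (by omega)).1
    rw [h2] at h3
    exact h3.symm
  · intro s t ht
    have h1 := hlen s
    exact ⟨(hl.adj s (t + 1) (by omega)).1, hinC s (t + 1) (by omega) (by omega),
      hinC s (t + 1 + 1) (by omega) (by omega)⟩
  · intro s t s' t' ht ht' he
    have h1 := hlen s
    have h2 := hlen s'
    obtain ⟨h3, h4⟩ := hl.inj s (t + 1) s' (t' + 1) (by omega) (by omega) he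
    exact ⟨h3, by omega⟩

end Pool.Agent.Helper28.GT
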