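import Pool.Agent.Helper28.GT.Defs

/-!
# GT-06: rows and columns

`RC`: `R` disjoint rows `h i` (positions `0 .. lh i`), `d` disjoint columns `v c` (positions `0 .. lv c`), every column meets every row, and column `c` meets row `i` only in positions `s` with `w i c ≤ s < w i (c+1)`; `w i d ≤ lh i + 1`.
`Dr .. c i i'`: a part of column `c` runs from a vertex of row `i` to a vertex of row `i'` or the other way round, without vertices of rows in between.
`dr_conn`: for fixed `c` this relation is connected. Proof: it is enough that for positions `s ≤ t` on column `c` on rows `i`, `i'` the rows are connected (and symmetry of `Dr`); induction on `t - s`: let `u > s` be the next position after `s` on some row `i''`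
(`u ≤ t`); if `i'' ≠ i` then `Dr c i i''` (also if `i'' = i` the relation `Dr c i i` holds or we use the induction hypothesis directly), then use the induction hypothesis for `u`, `t`. The last position on row `i'` is `t`.
`w_lt`: the cut positions increase strictly, by `hit` and `seg`.
-/

set_option autoImplicit false

namespace Pool.Agent.Helper28.GT

/-- rows and columns -/
structure RC (J : SimpleGraph ℕ) (R d : ℕ) (lh : ℕ → ℕ) (h : ℕ → ℕ → ℕ) (lv : ℕ → ℕ)
    (v : ℕ → ℕ → ℕ) (w : ℕ → ℕ → ℕ) : Prop where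
  hadj : ∀ i j, i < R → j < lh i → J.Adj (h i j) (h i (j + 1))
  hinj : ∀ i j i' j', i < R → i' < R → j ≤ lh i → j' ≤ lh i' → h i j = h i' j' →
    i = i' ∧ j = j'
  vadj : ∀ c j, c < d → j < lv c → J.Adj (v c j) (v c (j + 1))
  vinj : ∀ c j c' j', c < d → c' < d → j ≤ lv c → j' ≤ lv c' → v c j = v c' j' →
    c = c' ∧ j = j'
  hit : ∀ i c, i < R → c < d → ∃ s t, s ≤ lh i ∧ t ≤ lv c ∧ h i s = v c t
  seg : ∀ i c s t, i < R → c < d → s ≤ lh i → t ≤ lv c → h i s = v c t →
    w i c ≤ s ∧ s < w i (c + 1)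
  wl : ∀ i, i < R → w i d ≤ lh i + 1

/-- `y` is on row `i` -/
def OnR (lh : ℕ → ℕ) (h : ℕ → ℕ → ℕ) (i y : ℕ) : Prop := ∃ j, j ≤ lh i ∧ y = h i j

/-- column `c` runs directly from row `i` to row `i'` or back -/
def Dr (R : ℕ) (lh : ℕ → ℕ) (h : ℕ → ℕ → ℕ) (lv : ℕ → ℕ) (v : ℕ → ℕ → ℕ) (c i i' : ℕ) : Prop :=
  ∃ s t, s < t ∧ t ≤ lv c ∧
    ((OnR lh h i (v c s) ∧ OnR lh h i' (v c t)) ∨ (OnR lh h i' (v c s) ∧ OnR lh h i (v c t))) ∧
    ∀ u, s < u → u < t → ∀ i'', i'' < R → ¬ OnR lh h i'' (v c u)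

variable {J : SimpleGraph ℕ} {R d : ℕ} {lh : ℕ → ℕ} {h : ℕ → ℕ → ℕ} {lv : ℕ → ℕ}
  {v : ℕ → ℕ → ℕ} {w : ℕ → ℕ → ℕ}

theorem dr_symm {c i i' : ℕ} (hd : Dr R lh h lv v c i i') : Dr R lh h lv v c i' i := by
  obtain ⟨s, t, hst, ht, h1, h2⟩ := hd
  exact ⟨s, t, hst, ht, h1.symm, h2⟩

private theorem dr_core (hrc : RC J R d lh h lv v w) {c : ℕ} :
    ∀ n s t i i' : ℕ, t - s ≤ n → s ≤ t → t ≤ lv c → i < R → i' < R →
      OnR lh h i (v c s) → OnR lh h i' (v c t) →
      Relation.ReflTransGen (fun a b => Dr R lh h lv v c a b ∧ a < R ∧ b < R) i i' := by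
  classical
  intro n
  induction n with
  | zero =>
    intro s t i i' hn hst ht hi hi' h1 h2
    have hst' : s = t := by omega
    subst hst'
    obtain ⟨j, hj, hj2⟩ := h1
    obtain ⟨j', hj', hj'2⟩ := h2
    have h3 := (hrc.hinj i j i' j' hi hi' hj hj' (hj2.symm.trans hj'2)).1
    rw [h3]
  | succ n ih =>
    intro s t i i' hn hst ht hi hi' h1 h2
    rcases hst.eq_or_lt with heq | hlt
    · exact ih s t i i' (by omega) hst ht hi hi' h1 h2
    · have hex : ∃ u, s < u ∧ ∃ i'', i'' < R ∧ OnR lh h i'' (v c u) := ⟨t, hlt, i', hi', h2⟩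
      obtain ⟨hu1, i'', hi'', hu2⟩ := Nat.find_spec hex
      have hut : Nat.find hex ≤ t := Nat.find_min' hex ⟨hlt, i', hi', h2⟩
      have hD : Dr R lh h lv v c i i'' := by
        refine ⟨s, Nat.find hex, hu1, hut.trans ht, Or.inl ⟨h1, hu2⟩, ?_⟩
        intro u hsu huf k hk hon
        exact Nat.find_min hex huf ⟨hsu, k, hk, hon⟩
      exact Relation.ReflTransGen.head ⟨hD, hi, hi''⟩
        (ih (Nat.find hex) t i'' i' (by omega) hut ht hi'' hi' hu2 h2)

theorem dr_conn (hrc : RC J R d lh h lv v w) {c : ℕ} (hc : c < d) {i i' : ℕ} (hi : i < R)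
    (hi' : i' < R) :
    Relation.ReflTransGen (fun a b => Dr R lh h lv v c a b ∧ a < R ∧ b < R) i i' := by
  obtain ⟨s, t, hs, ht, hst⟩ := hrc.hit i c hi hc
  obtain ⟨s', t', hs', ht', hst'⟩ := hrc.hit i' c hi' hc
  have h1 : OnR lh h i (v c t) := ⟨s, hs, hst.symm⟩
  have h2 : OnR lh h i' (v c t') := ⟨s', hs', hst'.symm⟩
  rcases le_total t t' with hle | hle
  · exact dr_core hrc (t' - t) t t' i i' le_rfl hle ht' hi hi' h1 h2
  · have h3 := dr_core hrc (t - t') t' t i' i le_rfl hle ht hi' hi h2 h1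
    have hgen : ∀ b, Relation.ReflTransGen (fun a b => Dr R lh h lv v c a b ∧ a < R ∧ b < R) i' b →
        Relation.ReflTransGen (fun a b => Dr R lh h lv v c a b ∧ a < R ∧ b < R) b i' := by
      intro b hb
      induction hb with
      | refl => exact Relation.ReflTransGen.refl
      | tail _ hab ih =>
        exact Relation.ReflTransGen.head ⟨dr_symm hab.1, hab.2.2, hab.2.1⟩ ih
    exact hgen i h3

theorem w_lt (hrc : RC J R d lh h lv v w) {i c : ℕ} (hi : i < R) (hc : c < d) :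
    w i c < w i (c + 1) := by
  obtain ⟨s, t, hs, ht, hst⟩ := hrc.hit i c hi hc
  obtain ⟨h1, h2⟩ := hrc.seg i c s t hi hc hs ht hst
  exact lt_of_le_of_lt h1 h2

theorem w_mono (hrc : RC J R d lh h lv v w) {i c c' : ℕ} (hi : i < R) (hcc : c ≤ c')
    (hc : c' ≤ d) : w i c ≤ w i c' := by
  induction c', hcc using Nat.le_induction with
  | base => exact le_rfl
  | succ c' hcc ih =>
    exact (ih (by omega)).trans (w_lt hrc hi (by omega)).le

end Pool.Agent.Helper28.GT
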