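import Pool.Agent.Helper28.GT.MengerOr

/-!
# GT-03: separators given by minimality

`Q` is a family of `n` disjoint paths from `ai` to `aj` in `J` which, among all such families, has the fewest edges outside the set `EP` of edges of `J`. Let `e` be the edge of path `q` between the positions `s` and `s + 1`, not in
`EP`. Let `J'` be the graph with edge set `(ed lq xq ∪ EP) \ {e}`. Then `J'` has no `n` disjoint paths from `ai` to `aj`: such a family would have its edges outside `EP` in `(ed lq xq \ EP) \ {e}`, fewer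
than `Q` (`ed_finite`), and it is a family in `J` (`ed_adj`, `LK.mono`). By `menger_or` there is `S` with fewer than `n` elements separating in `J'`. Every path `c ≠ q` of `Q` lies in `J'` (its edges are different from `e`, as the paths are
disjoint), so it contains an element of `S`, `xq c (z c)` (`jo_path`). These are `n - 1` different elements, so they are all elements of `S`.
-/

set_option autoImplicit false

namespace Pool.Agent.Helper28.GT

theorem sep_exists {J : SimpleGraph ℕ} {F ai aj : Set ℕ} (hJ : Fg J F) (hi : ai ⊆ F)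
    (hj : aj ⊆ F) {n : ℕ} {lq : Fin n → ℕ} {xq : Fin n → ℕ → ℕ} (hQ : LK J ai aj n lq xq)
    {EP : Set (Sym2 ℕ)} (hEP : EP ⊆ J.edgeSet)
    (hmin : ∀ l' x', LK J ai aj n l' x' → (ed lq xq \ EP).ncard ≤ (ed l' x' \ EP).ncard)
    {q : Fin n} {s : ℕ} (hs : s < lq q) (he : s(xq q s, xq q (s + 1)) ∉ EP) :
    ∃ z : Fin n → ℕ, (∀ c, c ≠ q → z c ≤ lq c) ∧ ∀ u ∈ ai, ∀ v ∈ aj,
      ¬ Jo (SimpleGraph.fromEdgeSet ((ed lq xq ∪ EP) \ {s(xq q s, xq q (s + 1))}))
        {w | ∀ c, c ≠ q → w ≠ xq c (z c)} u v := by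
  classical
  set e : Sym2 ℕ := s(xq q s, xq q (s + 1)) with hedef
  set J' := SimpleGraph.fromEdgeSet ((ed lq xq ∪ EP) \ {e}) with hJ'
  have hadj : ∀ u v, J'.Adj u v ↔ (s(u, v) ∈ (ed lq xq ∪ EP) \ {e}) ∧ u ≠ v := by
    intro u v
    exact SimpleGraph.fromEdgeSet_adj _
  have hle : J' ≤ J := by
    intro u v huv
    rcases ((hadj u v).1 huv).1.1 with h | h
    · exact ed_adj hQ h
    · exact hEP h
  have hFg : Fg J' F := ⟨hJ.fin, fun u v h => hJ.adj u v (hle h)⟩
  have he1 : e ∈ ed lq xq \ EP := ⟨⟨q, s, hs, rfl⟩, he⟩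
  rcases menger_or hFg hi hj n with ⟨l, x, hlx⟩ | ⟨S, hS, hsep⟩
  · exfalso
    have h1 := hmin l x (hlx.mono hle)
    have h2 : ed l x \ EP ⊆ (ed lq xq \ EP) \ {e} := by
      rintro f ⟨⟨i, j, hj', rfl⟩, hf⟩
      have h3 := ((hadj _ _).1 (hlx.adj i j hj')).1
      refine ⟨⟨?_, hf⟩, h3.2⟩
      rcases h3.1 with h | h
      · exact h
      · exact absurd h hf
    have hfin : (ed lq xq \ EP).Finite := (ed_finite lq xq).subset Set.sdiff_subset
    have h3 := Set.ncard_le_ncard h2 (hfin.subset Set.sdiff_subset)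
    have h4 := Set.ncard_sdiff_singleton_lt_of_mem he1 hfin
    omega
  · have hz : ∀ c : Fin n, ∃ z : ℕ, c ≠ q → z ≤ lq c ∧ xq c z ∈ S := by
      intro c
      by_cases hc : c = q
      · exact ⟨0, fun h => absurd hc h⟩
      · by_contra hcon
        push Not at hcon
        apply hsep (xq c 0) (hQ.st c) (xq c (lq c)) (hQ.en c)
        refine jo_path (y := xq c) (Nat.zero_le _) ?_ ?_
        · intro j _ hj'
          exact (hcon j).2 hj'
        · intro j _ hj'
          rw [hadj]
          refine ⟨⟨Or.inl ⟨c, j, hj', rfl⟩, ?_⟩, (hQ.adj c j hj').ne⟩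
          intro h
          have h2 : s(xq c j, xq c (j + 1)) = s(xq q s, xq q (s + 1)) := h
          rw [Sym2.eq_iff] at h2
          rcases h2 with ⟨h3, -⟩ | ⟨h3, -⟩
          · exact hc (hQ.inj c j q s hj'.le hs.le h3).1
          · exact hc (hQ.inj c j q (s + 1) hj'.le hs h3).1
    choose z hz using hz
    refine ⟨z, fun c hc => (hz c hc).1, ?_⟩
    intro u hu v hv h
    apply hsep u hu v hv
    refine h.mono ?_ le_rfl
    intro w hw hwS
    have himg : (Finset.univ.erase q).image (fun c => xq c (z c)) ⊆ S := by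
      intro y hy
      obtain ⟨c, hc, rfl⟩ := Finset.mem_image.1 hy
      exact (hz c (Finset.ne_of_mem_erase hc)).2
    have hcard : ((Finset.univ.erase q).image (fun c => xq c (z c))).card = n - 1 := by
      rw [Finset.card_image_of_injOn, Finset.card_erase_of_mem (Finset.mem_univ q),
        Finset.card_univ, Fintype.card_fin]
      intro c hc c' hc' hcc
      have h1 := Finset.ne_of_mem_erase (Finset.mem_coe.1 hc)
      have h2 := Finset.ne_of_mem_erase (Finset.mem_coe.1 hc')
      exact (hQ.inj c (z c) c' (z c') (hz c h1).1 (hz c' h2).1 hcc).1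
    have heq := Finset.eq_of_subset_of_card_le himg (by omega)
    rw [← heq] at hwS
    obtain ⟨c, hc, hcw⟩ := Finset.mem_image.1 hwS
    exact hw c (Finset.ne_of_mem_erase hc) hcw.symm

end Pool.Agent.Helper28.GT
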