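import Pool.Agent.Helper28.GT.DecComp

/-!
# GT-18: spanning trees with potentials

`cn_finite`: a set which is connected in `sg G E` is finite: all its vertices except possibly one are ends of edges of `E`.
`span_tree`: for a finite connected `A` there are a set `F` of `|A| - 1` edges of `E` with ends in `A` joining all vertices of `A`, and `φ : ℕ → H` with `Pt G φ e` for `e ∈ F`. Proof: grow a tree: for every nonempty `A' ⊆ A` reached (start: one vertex, `F = ∅`) such data exist; if `A' ≠ A` connectedness gives an edge `e ∈ E` between `u ∈ A'` and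
`v ∈ A \ A'`; add it and put `φ v = φ u * g` if `G e = (u, v, g)`, `φ v = φ u * g⁻¹` if `G e = (v, u, g)` (`Function.update`). `e ∉ F` because `v ∉ A'`.
-/

set_option autoImplicit false

namespace Pool.Agent.Helper28.GT

open Pool.Agent.Helper28.BW

variable {H : Type} [Group H]

/-- the edge `e` satisfies the potential `φ` -/
def Pt (G : GG H) (φ : ℕ → H) (e : ℕ) : Prop := (G e).2.2 = (φ (G e).1)⁻¹ * φ (G e).2.1

theorem cn_finite {G : GG H} {E : Finset ℕ} {A : Set ℕ} (hc : Cn (sg G E) A) : A.Finite := by
  obtain ⟨⟨u, hu⟩, hj⟩ := hc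
  have h0 : (({u} : Set ℕ) ∪ ((fun e => (G e).1) '' (E : Set ℕ) ∪
      (fun e => (G e).2.1) '' (E : Set ℕ))).Finite :=
    (Set.finite_singleton u).union ((E.finite_toSet.image _).union (E.finite_toSet.image _))
  refine h0.subset ?_
  intro v hv
  have h1 := hj u hu v hv
  cases h1 with
  | refl _ => exact Or.inl rfl
  | step _ hadj _ =>
    right
    obtain ⟨-, e, he, ⟨g, hg⟩ | ⟨g, hg⟩⟩ := hadj
    · right
      exact ⟨e, he, by simp only [hg]⟩
    · left
      exact ⟨e, he, by simp only [hg]⟩

private theorem exit {Γ : SimpleGraph ℕ} {A B : Set ℕ} {u v : ℕ} (h : Jo Γ A u v) (hu : u ∈ B)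
    (hv : v ∉ B) : ∃ x ∈ B, ∃ y ∈ A, y ∉ B ∧ Γ.Adj x y := by
  induction h with
  | refl _ => exact absurd hu hv
  | @step x y h1 hadj hw ih =>
    by_cases hx : x ∈ B
    · exact ⟨x, hx, y, hw, hv, hadj⟩
    · exact ih hx

theorem span_tree {G : GG H} {E : Finset ℕ} {A : Set ℕ} (hc : Cn (sg G E) A) :
    ∃ (F : Finset ℕ) (φ : ℕ → H), F ⊆ E ∧ (∀ e ∈ F, (G e).1 ∈ A ∧ (G e).2.1 ∈ A) ∧
      F.card + 1 = A.ncard ∧ (∀ u ∈ A, ∀ v ∈ A, Con (img G F) u v) ∧ ∀ e ∈ F, Pt G φ e := by
  classical
  have hfin := cn_finite hc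
  obtain ⟨⟨a, ha⟩, hj⟩ := hc
  have key : ∀ k : ℕ, k + 1 ≤ A.ncard → ∃ (A' : Set ℕ) (F : Finset ℕ) (φ : ℕ → H),
      A' ⊆ A ∧ A'.ncard = k + 1 ∧ F ⊆ E ∧ (∀ e ∈ F, (G e).1 ∈ A' ∧ (G e).2.1 ∈ A') ∧
      F.card = k ∧ (∀ u ∈ A', ∀ v ∈ A', Con (img G F) u v) ∧ ∀ e ∈ F, Pt G φ e := by
    intro k
    induction k with
    | zero =>
      intro _
      refine ⟨{a}, ∅, fun _ => 1, Set.singleton_subset_iff.2 ha, Set.ncard_singleton a,
        Finset.empty_subset E, ?_, rfl, ?_, ?_⟩
      · intro e he
        exact absurd he (Finset.notMem_empty e)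
      · rintro u rfl v rfl
        exact ⟨1, W.refl _⟩
      · intro e he
        exact absurd he (Finset.notMem_empty e)
    | succ k ih =>
      intro hk
      obtain ⟨A', F, φ, hA, hcard, hF, hends, hFc, hcon, hpt⟩ := ih (by omega)
      have hfin' : A'.Finite := hfin.subset hA
      have hne : A'.Nonempty := by
        rw [← Set.ncard_pos hfin']
        omega
      obtain ⟨b, hb⟩ := hne
      have hnot : ¬ A ⊆ A' := by
        intro h
        have := Set.ncard_le_ncard h hfin'
        omega
      obtain ⟨c, hcA, hcA'⟩ := Set.not_subset.1 hnot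
      obtain ⟨x, hx, y, hyA, hyA', -, e, he, hJn⟩ := exit (hj b (hA hb) c hcA) hb hcA'
      have hxy : x ≠ y := fun h => hyA' (h ▸ hx)
      have heF : e ∉ F := by
        intro heF
        obtain ⟨h1, h2⟩ := hends e heF
        rcases hJn with ⟨g, hg⟩ | ⟨g, hg⟩
        · rw [hg] at h2
          exact hyA' h2
        · rw [hg] at h1
          exact hyA' h1
      have hcon' : Con (img G (insert e F)) x y := by
        have hmem : G e ∈ img G (insert e F) :=
          ⟨e, by simp, rfl⟩
        rcases hJn with ⟨g, hg⟩ | ⟨g, hg⟩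
        · rw [hg] at hmem
          exact ⟨_, W.edge hmem⟩
        · rw [hg] at hmem
          exact ⟨_, W.edge_inv hmem⟩
      have hmono : img G F ⊆ img G (insert e F) := by
        rintro t ⟨f, hf, rfl⟩
        exact ⟨f, by
          rw [Finset.coe_insert]
          exact Or.inr hf, rfl⟩
      obtain ⟨ψ, hψ, hψe⟩ : ∃ ψ : ℕ → H, (∀ z ∈ A', ψ z = φ z) ∧ Pt G ψ e := by
        rcases hJn with ⟨g, hg⟩ | ⟨g, hg⟩
        · refine ⟨Function.update φ y (φ x * g), ?_, ?_⟩
          · intro z hz
            have hzy : z ≠ y := fun h => hyA' (h ▸ hz)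
            exact Function.update_of_ne hzy _ _
          · unfold Pt
            rw [hg]
            simp only
            rw [Function.update_of_ne hxy, Function.update_self]
            group
        · refine ⟨Function.update φ y (φ x * g⁻¹), ?_, ?_⟩
          · intro z hz
            have hzy : z ≠ y := fun h => hyA' (h ▸ hz)
            exact Function.update_of_ne hzy _ _
          · unfold Pt
            rw [hg]
            simp only
            rw [Function.update_of_ne hxy, Function.update_self]
            group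
      refine ⟨insert y A', insert e F, ψ, ?_, ?_, ?_, ?_, ?_, ?_, ?_⟩
      · exact Set.insert_subset hyA hA
      · rw [Set.ncard_insert_of_notMem hyA' hfin', hcard]
      · exact Finset.insert_subset he hF
      · intro f hf
        rw [Finset.mem_insert] at hf
        rcases hf with rfl | hf
        · rcases hJn with ⟨g, hg⟩ | ⟨g, hg⟩
          · rw [hg]
            exact ⟨Or.inr hx, Or.inl rfl⟩
          · rw [hg]
            exact ⟨Or.inl rfl, Or.inr hx⟩
        · exact ⟨Or.inr (hends f hf).1, Or.inr (hends f hf).2⟩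
      · rw [Finset.card_insert_of_notMem heF, hFc]
      · have h1 : ∀ u ∈ insert y A', Con (img G (insert e F)) x u := by
          rintro u (rfl | hu)
          · exact hcon'
          · exact (hcon x hx u hu).mono hmono
        intro u hu v hv
        exact (h1 u hu).symm.trans (h1 v hv)
      · intro f hf
        rw [Finset.mem_insert] at hf
        rcases hf with rfl | hf
        · exact hψe
        · unfold Pt
          rw [hψ _ (hends f hf).1, hψ _ (hends f hf).2]
          exact hpt f hf
  have hpos : 0 < A.ncard := (Set.ncard_pos hfin).2 ⟨a, ha⟩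
  obtain ⟨A', F, φ, hA, hcard, hF, hends, hFc, hcon, hpt⟩ := key (A.ncard - 1) (by omega)
  have hAA : A' = A := Set.eq_of_subset_of_ncard_le hA (by omega) hfin
  subst hAA
  exact ⟨F, φ, hF, hends, by omega, hcon, hpt⟩

end Pool.Agent.Helper28.GT
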