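import Pool.Agent.Helper28.GT.SpanTree

/-!
# GT-19: grids with spanning trees and potentials

`TG`: an `m × n` grid minor with branch sets `B i j`, spanning trees `F i j`, horizontal edges `eh i j` (between `B i j` and `B i (j+1)`) and vertical edges `ev i j` (between `B i j` and `B (i+1) j`), all tree edges and horizontal edges satisfy the potential `φ`.
`tree_grid`: from `GridM (sg G E) m n B`. `cn_finite`, `span_tree` give `F i j` and potentials `φ0 i j`. For fixed `i` define `c i j : H` by recursion on `j`: `c i 0 = 1`; if `G (eh i j) = (u, v, g)` with `u ∈ B i j`, `v ∈ B i (j+1)` let `c i (j+1) = c i j * φ0 i j u * g * (φ0 i (j+1) v)⁻¹`; if `G (eh i j) = (v, u, g)` let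
`c i (j+1) = c i j * φ0 i j u * g⁻¹ * (φ0 i (j+1) v)⁻¹`. Put `φ w = c i j * φ0 i j w` for `w ∈ B i j` (the sets are disjoint) and `1` elsewhere. Left multiplication by a constant does not change the condition `Pt` inside one branch set.
-/

set_option autoImplicit false

namespace Pool.Agent.Helper28.GT

open Pool.Agent.Helper28.BW

variable {H : Type} [Group H]

/-- `e` runs between `A` and `B` -/
def JS (G : GG H) (e : ℕ) (A B : Set ℕ) : Prop :=
  ((G e).1 ∈ A ∧ (G e).2.1 ∈ B) ∨ ((G e).1 ∈ B ∧ (G e).2.1 ∈ A)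

/-- grid with spanning trees, trees and horizontal edges satisfy the potential -/
structure TG (G : GG H) (E : Finset ℕ) (m n : ℕ) (B : ℕ → ℕ → Set ℕ) (F : ℕ → ℕ → Finset ℕ)
    (eh ev : ℕ → ℕ → ℕ) (φ : ℕ → H) : Prop where
  fin : ∀ i j, i < m → j < n → (B i j).Finite
  ne : ∀ i j, i < m → j < n → (B i j).Nonempty
  dj : ∀ i j i' j', i < m → j < n → i' < m → j' < n → (i ≠ i' ∨ j ≠ j') →
    Disjoint (B i j) (B i' j')
  FE : ∀ i j, i < m → j < n → F i j ⊆ E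
  Fe : ∀ i j, i < m → j < n → ∀ e ∈ F i j, (G e).1 ∈ B i j ∧ (G e).2.1 ∈ B i j
  Fcard : ∀ i j, i < m → j < n → (F i j).card + 1 = (B i j).ncard
  Fcon : ∀ i j, i < m → j < n → ∀ u ∈ B i j, ∀ v ∈ B i j, Con (img G (F i j)) u v
  Fpot : ∀ i j, i < m → j < n → ∀ e ∈ F i j, Pt G φ e
  hE : ∀ i j, i < m → j + 1 < n → eh i j ∈ E ∧ JS G (eh i j) (B i j) (B i (j + 1)) ∧
    Pt G φ (eh i j)
  vE : ∀ i j, i + 1 < m → j < n → ev i j ∈ E ∧ JS G (ev i j) (B i j) (B (i + 1) j)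

theorem tree_grid {G : GG H} {E : Finset ℕ} {m n : ℕ} {B : ℕ → ℕ → Set ℕ}
    (h : GridM (sg G E) m n B) : ∃ F eh ev φ, TG G E m n B F eh ev φ := by
  classical
  have hF : ∀ i j, ∃ (F : Finset ℕ) (φ : ℕ → H), i < m → j < n → (F ⊆ E ∧
      (∀ e ∈ F, (G e).1 ∈ B i j ∧ (G e).2.1 ∈ B i j) ∧ F.card + 1 = (B i j).ncard ∧
      (∀ u ∈ B i j, ∀ v ∈ B i j, Con (img G F) u v) ∧ ∀ e ∈ F, Pt G φ e) := by
    intro i j
    by_cases hi : i < m
    · by_cases hj : j < n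
      · obtain ⟨F, φ, hF⟩ := span_tree (h.cn i j hi hj)
        exact ⟨F, φ, fun _ _ => hF⟩
      · exact ⟨∅, fun _ => 1, fun _ h1 => absurd h1 hj⟩
    · exact ⟨∅, fun _ => 1, fun h1 => absurd h1 hi⟩
  choose F φ0 hF using hF
  have hAd : ∀ A A' : Set ℕ, Ad (sg G E) A A' → ∃ e, e ∈ E ∧ JS G e A A' := by
    rintro A A' ⟨a, ha, b, hb, _, e, he, hj⟩
    refine ⟨e, he, ?_⟩
    rcases hj with ⟨g, hg⟩ | ⟨g, hg⟩
    · exact Or.inl (by rw [hg]; exact ⟨ha, hb⟩)
    · exact Or.inr (by rw [hg]; exact ⟨hb, ha⟩)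
  have hH : ∀ i j, ∃ e, i < m → j + 1 < n → (e ∈ E ∧ JS G e (B i j) (B i (j + 1))) := by
    intro i j
    by_cases hi : i < m
    · by_cases hj : j + 1 < n
      · obtain ⟨e, he⟩ := hAd _ _ (h.hor i j hi hj)
        exact ⟨e, fun _ _ => he⟩
      · exact ⟨0, fun _ h1 => absurd h1 hj⟩
    · exact ⟨0, fun h1 => absurd h1 hi⟩
  have hV : ∀ i j, ∃ e, i + 1 < m → j < n → (e ∈ E ∧ JS G e (B i j) (B (i + 1) j)) := by
    intro i j
    by_cases hi : i + 1 < m
    · by_cases hj : j < n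
      · obtain ⟨e, he⟩ := hAd _ _ (h.ver i j hi hj)
        exact ⟨e, fun _ _ => he⟩
      · exact ⟨0, fun _ h1 => absurd h1 hj⟩
    · exact ⟨0, fun h1 => absurd h1 hi⟩
  choose eh heh using hH
  choose ev hev using hV
  have hst : ∀ i j, ∃ s : H, ∀ (c : H) (φ : ℕ → H), i < m → j + 1 < n →
      (∀ w ∈ B i j, φ w = c * φ0 i j w) → (∀ w ∈ B i (j + 1), φ w = c * s * φ0 i (j + 1) w) →
      Pt G φ (eh i j) := by
    intro i j
    by_cases hi : i < m
    · by_cases hj : j + 1 < n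
      · rcases (heh i j hi hj).2 with ⟨h1, h2⟩ | ⟨h1, h2⟩
        · refine ⟨φ0 i j (G (eh i j)).1 * (G (eh i j)).2.2 * (φ0 i (j + 1) (G (eh i j)).2.1)⁻¹,
            fun c φ _ _ ha hb => ?_⟩
          rw [Pt, ha _ h1, hb _ h2]
          group
        · refine ⟨φ0 i j (G (eh i j)).2.1 * (G (eh i j)).2.2⁻¹ * (φ0 i (j + 1) (G (eh i j)).1)⁻¹,
            fun c φ _ _ ha hb => ?_⟩
          rw [Pt, ha _ h2, hb _ h1]
          group
      · exact ⟨1, fun _ _ _ h1 => absurd h1 hj⟩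
    · exact ⟨1, fun _ _ h1 => absurd h1 hi⟩
  choose s hs using hst
  let c : ℕ → ℕ → H := fun i j => Nat.rec 1 (fun j c => c * s i j) j
  have hc : ∀ i j, c i (j + 1) = c i j * s i j := fun i j => rfl
  let φ : ℕ → H := fun w => if h : ∃ p : ℕ × ℕ, p.1 < m ∧ p.2 < n ∧ w ∈ B p.1 p.2 then
    c h.choose.1 h.choose.2 * φ0 h.choose.1 h.choose.2 w else 1
  have hφ : ∀ i j, i < m → j < n → ∀ w ∈ B i j, φ w = c i j * φ0 i j w := by
    intro i j hi hj w hw
    have hex : ∃ p : ℕ × ℕ, p.1 < m ∧ p.2 < n ∧ w ∈ B p.1 p.2 := ⟨(i, j), hi, hj, hw⟩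
    have h1 : φ w = c hex.choose.1 hex.choose.2 * φ0 hex.choose.1 hex.choose.2 w := dif_pos hex
    obtain ⟨h2, h3, h4⟩ := hex.choose_spec
    have h5 : hex.choose = (i, j) := by
      by_contra hne
      have h6 : hex.choose.1 ≠ i ∨ hex.choose.2 ≠ j := by
        by_contra h7
        push Not at h7
        exact hne (Prod.ext h7.1 h7.2)
      exact Set.disjoint_left.1 (h.dj _ _ i j h2 h3 hi hj h6) h4 hw
    rw [h1, h5]
  refine ⟨F, eh, ev, φ, ?_⟩
  constructor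
  · exact fun i j hi hj => cn_finite (h.cn i j hi hj)
  · exact fun i j hi hj => (h.cn i j hi hj).1
  · exact h.dj
  · exact fun i j hi hj => (hF i j hi hj).1
  · exact fun i j hi hj => (hF i j hi hj).2.1
  · exact fun i j hi hj => (hF i j hi hj).2.2.1
  · exact fun i j hi hj => (hF i j hi hj).2.2.2.1
  · intro i j hi hj e he
    obtain ⟨h1, h2⟩ := (hF i j hi hj).2.1 e he
    have h3 : Pt G (φ0 i j) e := (hF i j hi hj).2.2.2.2 e he
    rw [Pt] at h3 ⊢
    rw [hφ i j hi hj _ h1, hφ i j hi hj _ h2, h3]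
    group
  · intro i j hi hj
    obtain ⟨h1, h2⟩ := heh i j hi hj
    refine ⟨h1, h2, hs i j (c i j) φ hi hj (hφ i j hi (by omega)) fun w hw => ?_⟩
    rw [hφ i (j + 1) hi hj w hw, hc]
  · exact fun i j hi hj => hev i j hi hj

end Pool.Agent.Helper28.GT
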