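import Pool.Agent.Helper28.GT.Sep

/-!
# GT-04: choosing vertical paths along a yardstick

`Q` (`n` paths from `ai` to `aj`) is minimal with respect to the edges `EP = ed lp xp` of the family `P` of `K` disjoint paths. `q` is one of the paths of `Q`; `P'` (the finset `P`) is a set of at least `d * (d * n)` paths of the family `P`, each meeting
path `q`. Then there are `d` different paths `v 0, ..., v (d-1)` in `P'` and positions `z t c'` on the paths `c' ≠ q` (`1 ≤ t < d`) such that every meeting point of `v c` with path `c'`, at position `s`, satisfies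
`z c c' < s` (if `1 ≤ c`) and `s < z (c+1) c'` (if `c + 1 < d`).
Proof. For `p ∈ P'` let `f p` be the least position on path `q` of a vertex on `p`. `f` is injective (paths of `P` are disjoint). Sort: `φ 0 < φ 1 < ...` the values of `f`. Let `N = d * n`; group `c` consists of the `p` with `f p ∈ {φ (c N), ..., φ ((c+1) N - 1)}`, `N` paths, for
`c < d`. For `1 ≤ t < d` some edge `e_t` of path `q`, between positions `s_t` and `s_t + 1`, with `φ (t N - 1) ≤ s_t < φ (t N)`, is not in `EP`: otherwise all vertices of path `q` between these positions lie on one path of `P` (`ed_of`), but `φ (t N - 1)` and `φ (t N)` are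
on different ones. `sep_exists` gives `z t`. Let `S` be the set of all `xq c' (z t c')`, `c' ≠ q`, `1 ≤ t < d`; `|S| ≤ (d - 1) * (n - 1) < N`. In group `c` choose `v c` having no vertex in `S` (the paths are disjoint).
Let `y = xp (v c) b = xq c' s`, `c' ≠ q`. Suppose `1 ≤ c` and `s ≤ z c c'`; `s ≠ z c c'` as `y ∉ S`. Walk along path `c'` from position `0` to `s`, along `v c` from `y` to the vertex at position `f (v c)` of path `q`, and along `q` to its end. It avoids the vertices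
`xq c'' (z c c'')` and the edge `e_c` (edges of `v c` are in `EP`; the edges of `q` used are after position `f (v c) > s_c`), and it runs in the graph of `sep_exists`: contradiction. Suppose `c + 1 < d` and `z (c+1) c' ≤ s`: walk along `q` from the start to position `f (v c) ≤ s_(c+1)`, along `v c` to `y`,
along path `c'` to its end: contradiction.
-/

set_option autoImplicit false

namespace Pool.Agent.Helper28.GT

private theorem sort_aux {K : ℕ} (P : Finset (Fin K)) (f : Fin K → ℕ) (hP : P.Nonempty)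
    (hf : ∀ p ∈ P, ∀ p' ∈ P, f p = f p' → p = p') :
    ∃ g : ℕ → Fin K, (∀ j, j < P.card → g j ∈ P) ∧
      ∀ i j, i < j → j < P.card → f (g i) < f (g j) := by
  classical
  obtain ⟨p0, hp0⟩ := hP
  have hcard : (P.image f).card = P.card :=
    Finset.card_image_of_injOn (fun p hp p' hp' h => hf p hp p' hp' h)
  have h1 : ∀ j : Fin P.card, ∃ p, p ∈ P ∧ f p = (P.image f).orderEmbOfFin hcard j := by
    intro j
    have h2 := (P.image f).orderEmbOfFin_mem hcard j
    obtain ⟨p, hp, h⟩ := Finset.mem_image.mp h2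
    exact ⟨p, hp, h⟩
  choose g hg hg2 using h1
  refine ⟨fun j => if hj : j < P.card then g ⟨j, hj⟩ else p0, fun j hj => ?_,
    fun i j hij hj => ?_⟩
  · simp only [dif_pos hj]
    exact hg _
  · simp only [dif_pos hj, dif_pos (hij.trans hj)]
    rw [hg2, hg2]
    exact ((P.image f).orderEmbOfFin hcard).strictMono (Fin.mk_lt_mk.mpr hij)

private theorem jo_between {Γ : SimpleGraph ℕ} {A : Set ℕ} {y : ℕ → ℕ} {m : ℕ}
    (hA : ∀ j, j ≤ m → y j ∈ A) (hadj : ∀ j, j < m → Γ.Adj (y j) (y (j + 1))) {s t : ℕ}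
    (hs : s ≤ m) (ht : t ≤ m) : Jo Γ A (y s) (y t) := by
  rcases le_total s t with h | h
  · exact jo_path h (fun j _ h2 => hA j (h2.trans ht)) (fun j _ h2 => hadj j (by omega))
  · exact (jo_path h (fun j _ h2 => hA j (h2.trans hs)) (fun j _ h2 => hadj j (by omega))).symm

private theorem adj_same {J : SimpleGraph ℕ} {ai aj : Set ℕ} {n : ℕ} {lq : Fin n → ℕ}
    {xq : Fin n → ℕ → ℕ} (hQ : LK J ai aj n lq xq) (EP : Set (Sym2 ℕ)) {q : Fin n} {s : ℕ}
    (hs : s < lq q) {c : Fin n} {j : ℕ} (hj : j < lq c) (hne : c ≠ q ∨ j ≠ s) :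
    (SimpleGraph.fromEdgeSet ((ed lq xq ∪ EP) \ {s(xq q s, xq q (s + 1))})).Adj
      (xq c j) (xq c (j + 1)) := by
  rw [SimpleGraph.fromEdgeSet_adj]
  refine ⟨⟨Or.inl ⟨c, j, hj, rfl⟩, ?_⟩, (hQ.adj c j hj).ne⟩
  intro h
  rw [Set.mem_singleton_iff, Sym2.eq_iff] at h
  rcases h with ⟨h1, h2⟩ | ⟨h1, h2⟩
  · obtain ⟨h3, h4⟩ := hQ.inj c j q s hj.le hs.le h1
    rcases hne with hne | hne
    · exact hne h3
    · exact hne h4
  · obtain ⟨h3, h4⟩ := hQ.inj c j q (s + 1) hj.le hs h1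
    obtain ⟨h5, h6⟩ := hQ.inj c (j + 1) q s hj hs.le h2
    omega

private theorem adj_EP {J : SimpleGraph ℕ} {ap aq : Set ℕ} {K : ℕ} {lp : Fin K → ℕ}
    {xp : Fin K → ℕ → ℕ} (hP : LK J ap aq K lp xp) (EQ : Set (Sym2 ℕ)) {e : Sym2 ℕ}
    (he : e ∉ ed lp xp) {c : Fin K} {j : ℕ} (hj : j < lp c) :
    (SimpleGraph.fromEdgeSet ((EQ ∪ ed lp xp) \ {e})).Adj (xp c j) (xp c (j + 1)) := by
  rw [SimpleGraph.fromEdgeSet_adj]
  refine ⟨⟨Or.inr ⟨c, j, hj, rfl⟩, ?_⟩, (hP.adj c j hj).ne⟩
  intro h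
  rw [Set.mem_singleton_iff] at h
  apply he
  rw [← h]
  exact ⟨c, j, hj, rfl⟩

theorem yard {J : SimpleGraph ℕ} {F ap aq ai aj : Set ℕ} (hJ : Fg J F) (hi : ai ⊆ F)
    (hj : aj ⊆ F) {K n : ℕ} {lp : Fin K → ℕ} {xp : Fin K → ℕ → ℕ} {lq : Fin n → ℕ}
    {xq : Fin n → ℕ → ℕ} (hP : LK J ap aq K lp xp) (hQ : LK J ai aj n lq xq)
    (hmin : ∀ l' x', LK J ai aj n l' x' →
      (ed lq xq \ ed lp xp).ncard ≤ (ed l' x' \ ed lp xp).ncard)
    {d : ℕ} (hd : 1 ≤ d) {P : Finset (Fin K)} (hcard : d * (d * n) ≤ P.card) (q : Fin n)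
    (hmeet : ∀ p ∈ P, ∃ b s, b ≤ lp p ∧ s ≤ lq q ∧ xp p b = xq q s) :
    ∃ (v : ℕ → Fin K) (z : ℕ → Fin n → ℕ), (∀ c, c < d → v c ∈ P) ∧
      (∀ c c', c < d → c' < d → v c = v c' → c = c') ∧
      ∀ c, c < d → ∀ c', c' ≠ q → ∀ b s, b ≤ lp (v c) → s ≤ lq c' → xp (v c) b = xq c' s →
        (1 ≤ c → z c c' < s) ∧ (c + 1 < d → s < z (c + 1) c') := by
  classical
  have hn : 1 ≤ n := by
    have := q.2
    omega
  obtain ⟨N, hN⟩ : ∃ N, N = d * n := ⟨_, rfl⟩
  have hN1 : 0 < N := by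
    rw [hN]
    exact Nat.mul_pos hd hn
  rw [← hN] at hcard
  have hex : ∀ p : Fin K, ∃ f b, p ∈ P → b ≤ lp p ∧ f ≤ lq q ∧ xp p b = xq q f := by
    intro p
    by_cases hp : p ∈ P
    · obtain ⟨b, s, h1, h2, h3⟩ := hmeet p hp
      exact ⟨s, b, fun _ => ⟨h1, h2, h3⟩⟩
    · exact ⟨0, 0, fun h => absurd h hp⟩
  choose f b0 hf using hex
  have hfinj : ∀ p ∈ P, ∀ p' ∈ P, f p = f p' → p = p' := by
    intro p hp p' hp' h
    obtain ⟨h1, -, h3⟩ := hf p hp
    obtain ⟨h4, -, h6⟩ := hf p' hp'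
    exact (hP.inj p (b0 p) p' (b0 p') h1 h4 (by rw [h3, h6, h])).1
  have hPne : P.Nonempty :=
    Finset.card_pos.mp (lt_of_lt_of_le (Nat.mul_pos hd hN1) hcard)
  obtain ⟨g, hgP0, hgs0⟩ := sort_aux P f hPne hfinj
  have hgP : ∀ j, j < d * N → g j ∈ P := fun j hj => hgP0 j (hj.trans_le hcard)
  have hgs : ∀ i j, i < j → j < d * N → f (g i) < f (g j) := fun i j hij hj =>
    hgs0 i j hij (hj.trans_le hcard)
  have hgle : ∀ i j, i ≤ j → j < d * N → f (g i) ≤ f (g j) := by
    intro i j hij hj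
    rcases eq_or_lt_of_le hij with h | h
    · rw [h]
    · exact (hgs i j h hj).le
  have hmulN : ∀ t, t < d → t * N + N ≤ d * N := by
    intro t ht
    have h1 := Nat.mul_le_mul_right N (show t + 1 ≤ d from ht)
    rwa [Nat.succ_mul] at h1
  have hedge : ∀ t, 1 ≤ t → t < d → ∃ s, f (g (t * N - 1)) ≤ s ∧ s < f (g (t * N)) ∧
      s(xq q s, xq q (s + 1)) ∉ ed lp xp := by
    intro t ht1 htd
    by_contra hcon
    push Not at hcon
    have htN := hmulN t htd
    have htN1 : 0 < t * N := Nat.mul_pos ht1 hN1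
    have hlt : f (g (t * N - 1)) < f (g (t * N)) := hgs _ _ (by omega) (by omega)
    obtain ⟨a1, a2, a3⟩ := hf _ (hgP (t * N - 1) (by omega))
    obtain ⟨b1, b2, b3⟩ := hf _ (hgP (t * N) (by omega))
    have key : ∀ s, f (g (t * N - 1)) ≤ s → s ≤ f (g (t * N)) →
        ∃ b, b ≤ lp (g (t * N - 1)) ∧ xq q s = xp (g (t * N - 1)) b := by
      intro s hs
      induction s, hs using Nat.le_induction with
      | base =>
        intro _
        exact ⟨_, a1, a3.symm⟩
      | succ s hs ih =>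
        intro hs2
        obtain ⟨b, hb1, hb2⟩ := ih (by omega)
        have he := hcon s hs (by omega)
        rw [hb2] at he
        rcases ed_of hP hb1 he with ⟨h1, h2⟩ | ⟨h1, h2⟩
        · exact ⟨b + 1, h1, h2⟩
        · exact ⟨b - 1, by omega, h2⟩
    obtain ⟨b, hb1, hb2⟩ := key _ hlt.le le_rfl
    have h3 := (hP.inj _ b _ (b0 (g (t * N))) hb1 b1 (by rw [← hb2, b3])).1
    rw [h3] at hlt
    exact lt_irrefl _ hlt
  choose! se hse1 hse2 hse3 using hedge
  have hselt : ∀ t, 1 ≤ t → t < d → se t < lq q := by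
    intro t h1 h2
    have htN := hmulN t h2
    exact (hse2 t h1 h2).trans_le (hf _ (hgP (t * N) (by omega))).2.1
  have hEP : ed lp xp ⊆ J.edgeSet := by
    intro e he
    induction e using Sym2.ind with
    | _ u v => exact ed_adj hP he
  have hsep : ∀ t, 1 ≤ t → t < d → ∃ z : Fin n → ℕ, (∀ c, c ≠ q → z c ≤ lq c) ∧
      ∀ u ∈ ai, ∀ v ∈ aj,
        ¬ Jo (SimpleGraph.fromEdgeSet ((ed lq xq ∪ ed lp xp) \
          {s(xq q (se t), xq q (se t + 1))})) {w | ∀ c, c ≠ q → w ≠ xq c (z c)} u v :=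
    fun t h1 h2 => sep_exists hJ hi hj hQ hEP hmin (hselt t h1 h2) (hse3 t h1 h2)
  choose! z hz1 hz2 using hsep
  obtain ⟨S, hS⟩ : ∃ S : Finset ℕ, S = ((Finset.Ico 1 d) ×ˢ (Finset.univ.erase q)).image
      (fun tc : ℕ × Fin n => xq tc.2 (z tc.1 tc.2)) := ⟨_, rfl⟩
  have hScard : S.card < N := by
    have h1 : S.card ≤ (d - 1) * (n - 1) := by
      rw [hS]
      refine Finset.card_image_le.trans (le_of_eq ?_)
      rw [Finset.card_product, Nat.card_Ico, Finset.card_erase_of_mem (Finset.mem_univ q),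
        Finset.card_univ, Fintype.card_fin]
    refine lt_of_le_of_lt h1 ?_
    rw [hN]
    exact Nat.mul_lt_mul'' (by omega) (by omega)
  have hSmem : ∀ t c, 1 ≤ t → t < d → c ≠ q → xq c (z t c) ∈ S := by
    intro t c h1 h2 hc
    rw [hS]
    exact Finset.mem_image.mpr ⟨(t, c), Finset.mem_product.mpr
      ⟨Finset.mem_Ico.mpr ⟨h1, h2⟩, Finset.mem_erase.mpr ⟨hc, Finset.mem_univ c⟩⟩, rfl⟩
  have hpick : ∀ c, c < d → ∃ j, c * N ≤ j ∧ j < c * N + N ∧
      ∀ b, b ≤ lp (g j) → xp (g j) b ∉ S := by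
    intro c hc
    by_contra hcon
    push Not at hcon
    have hcN := hmulN c hc
    choose! β hβ1 hβ2 using hcon
    have hle : (Finset.Ico (c * N) (c * N + N)).card ≤ S.card := by
      apply Finset.card_le_card_of_injOn (fun j => xp (g j) (β j))
      · intro j hj
        rw [Finset.coe_Ico, Set.mem_Ico] at hj
        exact hβ2 j hj.1 hj.2
      · intro i hi' j hj' h
        rw [Finset.coe_Ico, Set.mem_Ico] at hi' hj'
        have h1 := (hP.inj _ _ _ _ (hβ1 i hi'.1 hi'.2) (hβ1 j hj'.1 hj'.2) h).1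
        by_contra hne
        rcases lt_or_gt_of_ne hne with hlt | hlt
        · have h2 := hgs i j hlt (by omega)
          rw [h1] at h2
          exact lt_irrefl _ h2
        · have h2 := hgs j i hlt (by omega)
          rw [h1] at h2
          exact lt_irrefl _ h2
    rw [Nat.card_Ico] at hle
    omega
  choose! jj hj1 hj2 hj3 using hpick
  have hjd : ∀ c, c < d → jj c < d * N := by
    intro c hc
    have h1 := hmulN c hc
    have h2 := hj2 c hc
    omega
  have hlt2 : ∀ c c', c < d → c' < d → c < c' → f (g (jj c)) < f (g (jj c')) := by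
    intro c c' hc hc' h
    apply hgs _ _ _ (hjd c' hc')
    have h1 := Nat.mul_le_mul_right N (show c + 1 ≤ c' from h)
    rw [Nat.succ_mul] at h1
    have h2 := hj2 c hc
    have h3 := hj1 c' hc'
    omega
  have hA1 : ∀ t, 1 ≤ t → t < d → ∀ c', c' ≠ q → ∀ j, j ≤ lq c' → j ≠ z t c' →
      xq c' j ∈ {w | ∀ c, c ≠ q → w ≠ xq c (z t c)} := by
    intro t h1 h2 c' hc' j hj' hne c hc h
    obtain ⟨h3, h4⟩ := hQ.inj c' j c (z t c) hj' (hz1 t h1 h2 c hc) h
    subst h3
    exact hne h4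
  have hA2 : ∀ t, 1 ≤ t → t < d → ∀ j, j ≤ lq q →
      xq q j ∈ {w | ∀ c, c ≠ q → w ≠ xq c (z t c)} := by
    intro t h1 h2 j hj' c hc h
    exact hc (hQ.inj q j c (z t c) hj' (hz1 t h1 h2 c hc) h).1.symm
  have hA3 : ∀ t, 1 ≤ t → t < d → ∀ c, c < d → ∀ j, j ≤ lp (g (jj c)) →
      xp (g (jj c)) j ∈ {w | ∀ c, c ≠ q → w ≠ xq c (z t c)} := by
    intro t h1 h2 c hc j hj' c'' hc'' h
    apply hj3 c hc j hj'
    rw [h]
    exact hSmem t c'' h1 h2 hc''
  refine ⟨fun c => g (jj c), z, fun c hc => hgP _ (hjd c hc), ?_, ?_⟩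
  · intro c c' hc hc' h
    by_contra hne
    rcases lt_or_gt_of_ne hne with hlt | hlt
    · have h1 := hlt2 c c' hc hc' hlt
      rw [show g (jj c) = g (jj c') from h] at h1
      exact lt_irrefl _ h1
    · have h1 := hlt2 c' c hc' hc hlt
      rw [show g (jj c) = g (jj c') from h] at h1
      exact lt_irrefl _ h1
  · intro c hc c' hc' b s hb hs hxy
    have hxy' : xp (g (jj c)) b = xq c' s := hxy
    have hb' : b ≤ lp (g (jj c)) := hb
    obtain ⟨m1, m2, m3⟩ := hf _ (hgP _ (hjd c hc))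
    constructor
    · intro hc1
      by_contra hcon
      have hne : s ≠ z c c' := by
        intro h
        apply hj3 c hc b hb'
        rw [hxy', h]
        exact hSmem c c' hc1 hc hc'
      have hsz : s < z c c' := by omega
      have hfse : se c < f (g (jj c)) :=
        (hse2 c hc1 hc).trans_le (hgle _ _ (hj1 c hc) (hjd c hc))
      apply hz2 c hc1 hc (xq c' 0) (hQ.st c') (xq q (lq q)) (hQ.en q)
      refine Jo.trans (v := xq c' s) ?_ (Jo.trans (v := xq q (f (g (jj c)))) ?_ ?_)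
      · exact jo_path (Nat.zero_le s)
          (fun j _ h2 => hA1 c hc1 hc c' hc' j (h2.trans hs) (by omega))
          (fun j _ h2 => adj_same hQ _ (hselt c hc1 hc) (by omega) (Or.inl hc'))
      · rw [← hxy', ← m3]
        exact jo_between (hA3 c hc1 hc c hc) (fun j h2 => adj_EP hP _ (hse3 c hc1 hc) h2) hb' m1
      · exact jo_path m2 (fun j _ h2 => hA2 c hc1 hc j h2)
          (fun j h1 h2 => adj_same hQ _ (hselt c hc1 hc) h2 (Or.inr (by omega)))
    · intro hc1
      by_contra hcon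
      have hc2 : 1 ≤ c + 1 := by omega
      have hne : s ≠ z (c + 1) c' := by
        intro h
        apply hj3 c hc b hb'
        rw [hxy', h]
        exact hSmem (c + 1) c' hc2 hc1 hc'
      have hsz : z (c + 1) c' < s := by omega
      have hfse : f (g (jj c)) ≤ se (c + 1) := by
        refine le_trans (hgle _ _ ?_ ?_) (hse1 (c + 1) hc2 hc1)
        · have h2 := hj2 c hc
          rw [Nat.succ_mul]
          omega
        · have h2 := hmulN c hc
          rw [Nat.succ_mul]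
          omega
      apply hz2 (c + 1) hc2 hc1 (xq q 0) (hQ.st q) (xq c' (lq c')) (hQ.en c')
      refine Jo.trans (v := xq q (f (g (jj c)))) ?_ (Jo.trans (v := xq c' s) ?_ ?_)
      · exact jo_path (Nat.zero_le _)
          (fun j _ h2 => hA2 (c + 1) hc2 hc1 j (h2.trans m2))
          (fun j _ h2 => adj_same hQ _ (hselt (c + 1) hc2 hc1) (by omega) (Or.inr (by omega)))
      · rw [← hxy', ← m3]
        exact jo_between (hA3 (c + 1) hc2 hc1 c hc)
          (fun j h2 => adj_EP hP _ (hse3 (c + 1) hc2 hc1) h2) m1 hb'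
      · exact jo_path hs
          (fun j h1 h2 => hA1 (c + 1) hc2 hc1 c' hc' j h2 (by omega))
          (fun j _ h2 => adj_same hQ _ (hselt (c + 1) hc2 hc1) h2 (Or.inl hc'))

end Pool.Agent.Helper28.GT
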